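import Pool.Agent.H21.LDV2.Dat3

/-! Tree of `S_LPY 3 (4 / 7)`, type 3 (generated by machine) -/

set_option autoImplicit false
set_option maxRecDepth 100000

namespace Pool.LDV2.Y3

open Pool.LPT2

/-- tree -/
def tr3 : Tr :=
  (.br 11072 (.fk 0 74939897919704137729) (.br 11073 (.fk 0
  3243083124908178884734777088557395914989334134383508191723991388829814729211905) (.br 11075 (.fk 0
  6485261624496630490208675334571777109366101326699888973611912170570360903696385) (.br 11074 (.br
  11136 (.fk 0 56349038627988176897) (.br 11137 (.fk 0
  21324343444545607825873399699909896510471062125387881800086619703343547255826000709612726968693014303612972981629094078852366352)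
  (.br 11139 (.fk 0 1031480924967398175046470446408670380033) (.br 11138 (.br 11200 (.fk 0
  56493153816198250497) (.br 11203 (.fk 0
  28430695109041088092779898593160934937004758239456165265097869733590556661136087821582945002350629055325982202677929859168075782)
  (.br 11201 (.fk 0
  568615224286133648747561439245609706443111456151871832590507623808705898526546831698358152053176631728911390512294854953661366311)
  (.br 11202 (.fk 0
  376708032292661402789482621469617374044217379374434642959595227467963130391825032391682110851791737729263221794205666975802195981)
  (.tl 175))))) (.tl 174))))) (.tl 173)))))

lemma chk3 : check TL tr3 F3 [] = true := by decide +kernel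

end Pool.LDV2.Y3
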