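import Pool.Agent.H21.LDV2.Dat3

/-! Tree of `S_LPY 3 (4 / 7)`, type 5 (generated by machine) -/

set_option autoImplicit false
set_option maxRecDepth 100000

namespace Pool.LDV2.Y3

open Pool.LPT2

/-- tree -/
def tr5 : Tr :=
  (.br 11776 (.fk 0 74939897919704137729) (.br 11777 (.fk 0
  3243083124908178884734777088557475840860123009680856504876554395633469051895809) (.br 11779 (.fk 0
  6485261624496630490208675334571777109366101326699888354641892671995411529990145) (.br 11778 (.br
  12352 (.fk 0 74795782731762499585) (.br 12353 (.fk 0
  21324343444545607825873901402732144338614226992458729131604918951934927817321841679779558616188082852676469541127814681846611984)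
  (.br 12355 (.fk 0 1371763291966945831041504304722222252033) (.br 12354 (.br 12416 (.fk 0
  56493153816198250497) (.br 12419 (.fk 0 110968694999099637761) (.br 12417 (.fk 0
  42647364777153635154549325599895170744634369282020065802911626777090605565950334715591890269361166826963885287376623792547692549)
  (.br 12418 (.fk 0
  63970386109761662483224749797207716243273413157011320080997944986005211333725775971495553364293654507901868782708396913128898565)
  (.tl 194))))) (.tl 193))))) (.tl 184)))))

lemma chk5 : check TL tr5 F5 [] = true := by decide +kernel

end Pool.LDV2.Y3
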