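import Pool.Agent.H21.LDV2.Dat3

/-! Tree of `S_LPY 3 (4 / 7)`, type 6 (generated by machine) -/

set_option autoImplicit false
set_option maxRecDepth 100000

namespace Pool.LDV2.Y3

open Pool.LPT2

/-- tree -/
def tr6 : Tr :=
  (.br 12480 (.fk 0 74939897919704137729) (.br 12481 (.fk 0
  3243083124908178884734777088557475840860123009680857123846573894208418425602049) (.br 12483 (.fk 0
  6485261624496630490208675334571857035236892860453226999686162345148099590094849) (.br 12482 (.br
  10816 (.fk 0 56349038627988176897) (.br 10817 (.fk 0
  21324343444545607825873543044051856985931117572321682819582361416883530590196882801033153714035009839495595009982630225132912656)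
  (.br 10819 (.fk 0 1031480925204463692514424652018799869953) (.br 10818 (.br 12544 (.fk 0
  56349038628122394625) (.br 12547 (.fk 0
  63970386109761662483224534782878699408262445807513454949809497324128231392722008530415384592900577621889754796209314667234852888)
  (.br 12545 (.fk 0
  383815706098882072413355754404375797981618690982500999220587258031549592565824343168200335497555854782932858152801965614265532455)
  (.br 12546 (.fk 0
  191908514105409826455276936626409813561763456624205626907088864515603723617660117824585358699154633605697221263804155162097877005)
  (.tl 196))))) (.tl 169))))) (.tl 195)))))

lemma chk6 : check TL tr6 F6 [] = true := by decide +kernel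

end Pool.LDV2.Y3
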