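import Pool.Agent.H21.LDV2.Dat3

/-! Tree of `S_LPY 3 (4 / 7)`, type 7 (generated by machine) -/

set_option autoImplicit false
set_option maxRecDepth 100000

namespace Pool.LDV2.Y3

open Pool.LPT2

/-- tree -/
def tr7 : Tr :=
  (.br 12608 (.fk 0 74795782731628281857) (.br 12611 (.fk 0 147718068018303991809) (.br 12609 (.fk 0
  320626470211806979526748012545) (.br 12610 (.br 12096 (.fk 0 56637269004139888641) (.br 12097 (.fk
  0 83554189067597321336338386882155582114336141543190939177444094885355735233622117227429896) (.br
  12099 (.fk 0 4864172374796764500850693163008910798622292099901135989320696072654277052465153) (.br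
  12098 (.br 11136 (.fk 0 56349038628122394625) (.br 11137 (.fk 0
  426461748764098127070706961150444452253281067616767236039652159353239037855279286511961465223911833942126284792741456233078194224)
  (.br 11138 (.fk 0
  255877578103233908441303567572661779908739444226900806327503743523965598589933277101267371986519026560432366287622833064873295888)
  (.br 11139 (.fk 0 4864172374796764500850693163009002142474622622877532768761014531303834529038337)
  (.tl 174))))) (.tl 189))))) (.tl 197)))))

lemma chk7 : check TL tr7 F7 [] = true := by decide +kernel

end Pool.LDV2.Y3
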