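import Pool.Agent.H21.LDV2.Tr3_0
import Pool.Agent.H21.LDV2.Tr3_1
import Pool.Agent.H21.LDV2.Tr3_2
import Pool.Agent.H21.LDV2.Tr3_3
import Pool.Agent.H21.LDV2.Tr3_4
import Pool.Agent.H21.LDV2.Tr3_5
import Pool.Agent.H21.LDV2.Tr3_6
import Pool.Agent.H21.LDV2.Tr3_7

/-!
# `S_LPY 3 (4 / 7)`
-/

set_option autoImplicit false
set_option maxRecDepth 100000

namespace Pool.LDV2.Y3

open Finset Pool.LPT Pool.LPT2 Pool.BL Pool.LDV

/-- equality of forms up to zeros at the end -/
def eqf : List ℤ → List ℤ → Bool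
  | [], m => lzero m
  | a :: l, [] => a == 0 && eqf l []
  | a :: l, b :: m => a == b && eqf l m

lemma eqf_ev (l : List ℤ) : ∀ (m : List ℤ) (v : ℕ → ℝ), eqf l m = true → ev l v = ev m v := by
  induction l with
  | nil =>
    intro m v h
    simp only [eqf] at h
    rw [ev_lzero m h v]
    rfl
  | cons a l ih =>
    intro m v h
    cases m with
    | nil =>
      simp only [eqf, Bool.and_eq_true, beq_iff_eq] at h
      have := ih [] (fun n => v (n + 1)) h.2
      simp only [ev] at this ⊢
      rw [this, h.1]; simp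
    | cons b m =>
      simp only [eqf, Bool.and_eq_true, beq_iff_eq] at h
      have := ih m (fun n => v (n + 1)) h.2
      simp only [ev]
      rw [this, h.1]

/-- equality of lists of forms -/
def eqL : List (List ℤ) → List (List ℤ) → Bool
  | [], [] => true
  | a :: l, b :: m => eqf a b && eqL l m
  | _, _ => false

lemma eqL_ex (A : List (List ℤ)) : ∀ (B : List (List ℤ)) (v : ℕ → ℝ), eqL A B = true →
    (∃ f ∈ A, 0 < ev f v) → ∃ f ∈ B, 0 < ev f v := by
  induction A with
  | nil => intro B v _ h; obtain ⟨f, hf, _⟩ := h; simp at hf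
  | cons a A ih =>
    intro B v h hA
    cases B with
    | nil => simp [eqL] at h
    | cons b B =>
      simp only [eqL, Bool.and_eq_true] at h
      obtain ⟨f, hf, hf0⟩ := hA
      rcases List.mem_cons.1 hf with hf | hf
      · refine ⟨b, List.mem_cons_self, ?_⟩
        rw [← eqf_ev a b v h.1, ← hf]
        exact hf0
      · obtain ⟨f', hf', h0⟩ := ih B v h.2 ⟨f, hf, hf0⟩
        exact ⟨f', List.mem_cons_of_mem _ hf', h0⟩

/-- the data are the pieces of the tools -/
def okAll : List Tool → List (List (List ℤ)) → Bool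
  | [], [] => true
  | t :: L, P :: M => ok t && eqL (pieces t) P && okAll L M
  | _, _ => false

lemma okAll_sound {m : ℝ} {c g : Fin 3 → ℕ → ℝ} {x : Fin 3 → ℝ} (H : LSY 3 (4 / 7) m c g x)
    (L : List Tool) : ∀ M : List (List (List ℤ)), okAll L M = true →
    ∀ P ∈ M, ∃ f ∈ P, 0 < ev f (vec m c g) := by
  induction L with
  | nil =>
    intro M h P hP
    cases M with
    | nil => simp at hP
    | cons Q M => simp [okAll] at h
  | cons t L ih =>
    intro M h P hP
    cases M with
    | nil => simp at hP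
    | cons Q M =>
      simp only [okAll, Bool.and_eq_true] at h
      rcases List.mem_cons.1 hP with hP | hP
      · rw [hP]
        exact eqL_ex _ _ _ h.1.2 (tool_fails H t h.1.1)
      · exact ih M h.2 P hP

lemma okAll_TL : okAll tools TL = true := by decide +kernel

/-- computed root constraints, common part -/
def RC : List (Bool × List ℤ) :=
  [(false, lc [(1, [1]), (-1, xf 0), (-1, xf 1), (-1, xf 2)]),
    (true, lc [(7, xf 0), (7, xf 1), (-4, [1])]),
    (true, lc [(7, xf 0), (7, xf 2), (-4, [1])]),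
    (true, lc [(7, xf 1), (7, xf 2), (-4, [1])]),
    (false, lc [(7, unit 22), (-4, [1])]),
    (false, lc [(1, unit 22), (-1, gainf 0 labL)]),
    (false, lc [(1, gf 1 9), (-4, cf 1 9)]),
    (false, lc [(1, gf 2 9), (-4, cf 2 9)])]

/-- a big layer is present -/
def RB (l : Fin 3) : List (Bool × List ℤ) := [(true, lc [(14, cf l 8), (-1, rhof l)])]

/-- no big layer -/
def RN (l : Fin 3) : List (Bool × List ℤ) :=
  [(false, lc [(-1, cf l 8)]), (false, lc [(-1, unit (6 + 7 * l.val))])]

/-- signs of the variables -/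
def RX : ℕ → List (Bool × List ℤ)
  | 0 => []
  | n + 1 => RX n ++ [(false, unit (n + 1))]

/-- equality of lists of constraints -/
def eqC : List (Bool × List ℤ) → List (Bool × List ℤ) → Bool
  | [], [] => true
  | a :: l, b :: m => (a.1 == b.1) && eqf a.2 b.2 && eqC l m
  | _, _ => false

lemma eqC_sound (A : List (Bool × List ℤ)) : ∀ (B : List (Bool × List ℤ)) (v : ℕ → ℝ),
    eqC A B = true → (∀ e ∈ A, holds e v) → ∀ e ∈ B, holds e v := by
  induction A with
  | nil =>
    intro B v h hA e he
    cases B with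
    | nil => simp at he
    | cons b B => simp [eqC] at h
  | cons a A ih =>
    intro B v h hA e he
    cases B with
    | nil => simp at he
    | cons b B =>
      simp only [eqC, Bool.and_eq_true, beq_iff_eq] at h
      rcases List.mem_cons.1 he with he | he
      · have := hA a List.mem_cons_self
        rw [he]
        unfold holds at this ⊢
        rw [← h.1.1, ← eqf_ev a.2 b.2 v h.1.2]
        exact this
      · exact ih B v h.2 (fun e he => hA e (List.mem_cons_of_mem _ he)) e he

section

variable {m : ℝ} {c g : Fin 3 → ℕ → ℝ} {x : Fin 3 → ℝ}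

lemma sum3 (f : ℕ → ℝ) : ∑ n ∈ Icc 1 3, f n = f 1 + f 2 + f 3 := by
  rw [show Icc 1 3 = ({1, 2, 3} : Finset ℕ) from rfl]
  simp; ring

lemma holds_RC (H : LSY 3 (4 / 7) m c g x) : ∀ e ∈ RC, holds e (vec m c g) := by
  have hm : vec m c g 22 = m := rfl
  have h1 := H.ht 0 1 (by decide)
  have h2 := H.ht 0 2 (by decide)
  have h3 := H.ht 1 2 (by decide)
  have h4 := H.hm
  have h5 := H.hs
  have h6 := H.G0 0
  have h7 := H.g9 1
  have h8 := H.g9 2
  have hg : ev (gainf 0 labL) (vec m c g) = ∑ n ∈ Icc 1 3, g 0 n + g 0 8 + g 0 9 := by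
    rw [ev_gainf H 0 labL (fun n hn => hn) (by decide), sum3]
    rw [show (labL.toFinset) = ({1, 2, 3, 8, 9} : Finset ℕ) from rfl]
    simp; ring
  have e1 := ev_gf H 1 9 (by simp [labL])
  have e2 := ev_gf H 2 9 (by simp [labL])
  have e3 := ev_cf (m := m) (c := c) (g := g) 1 9 (by simp [labL])
  have e4 := ev_cf (m := m) (c := c) (g := g) 2 9 (by simp [labL])
  simp only [RC, List.forall_mem_cons, List.not_mem_nil, false_imp_iff, implies_true, and_true,
    holds, if_true, Bool.false_eq_true, if_false, ev_lc, List.map_cons, List.map_nil,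
    List.sum_cons, List.sum_nil, ev_xf H, ev_unit, hm, ev_const, vec0, hg, e1, e2, e3, e4]
  push_cast at h7 h8 ⊢
  refine ⟨?_, ?_, ?_, ?_, ?_, ?_, ?_, ?_⟩ <;> linarith

lemma holds_RB (H : LSY 3 (4 / 7) m c g x) (l : Fin 3)
    (hl : 4 / 7 - 1 / 2 + x l / 2 < c l 8) : ∀ e ∈ RB l, holds e (vec m c g) := by
  have e3 := ev_cf (m := m) (c := c) (g := g) l 8 (by simp [labL])
  simp only [RB, rhof, List.forall_mem_cons, List.not_mem_nil, false_imp_iff, implies_true,
    and_true, holds, if_true, ev_lc, List.map_cons, List.map_nil,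
    List.sum_cons, List.sum_nil, ev_xf H, ev_const, vec0, e3]
  push_cast
  linarith

lemma holds_RN (l : Fin 3) (h8 : c l 8 = 0) (h9 : g l 8 = 0) :
    ∀ e ∈ RN l, holds e (vec m c g) := by
  have e3 := ev_cf (m := m) (c := c) (g := g) l 8 (by simp [labL])
  have hB : vec m c g (6 + 7 * l.val) = g l 8 - 4 * c l 8 := by
    fin_cases l <;> rfl
  simp only [RN, List.forall_mem_cons, List.not_mem_nil, false_imp_iff, implies_true,
    and_true, holds, Bool.false_eq_true, if_false, ev_lc, List.map_cons, List.map_nil,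
    List.sum_cons, List.sum_nil, ev_unit, e3, hB, h8, h9]
  norm_num

lemma holds_RX (H : LSY 3 (4 / 7) m c g x) (n : ℕ) (hn : n ≤ 22) :
    ∀ e ∈ RX n, holds e (vec m c g) := by
  have hv : ∀ n ≤ 22, 0 ≤ vec m c g n := by
    have a := H.hc
    have b := H.g8
    have d := H.g9 0
    have b0 := b 0
    have b1 := b 1
    have b2 := b 2
    have hm := H.hm
    push_cast at b0 b1 b2 d
    intro n hn
    interval_cases n
    · exact zero_le_one
    · exact a 0 1
    · exact a 0 2
    · exact a 0 3
    · exact a 0 8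
    · exact a 0 9
    · show 0 ≤ g 0 8 - 4 * c 0 8
      linarith
    · show 0 ≤ g 0 9 - 4 * c 0 9
      linarith
    · exact a 1 1
    · exact a 1 2
    · exact a 1 3
    · exact a 1 8
    · exact a 1 9
    · show 0 ≤ g 1 8 - 4 * c 1 8
      linarith
    · exact le_refl (0 : ℝ)
    · exact a 2 1
    · exact a 2 2
    · exact a 2 3
    · exact a 2 8
    · exact a 2 9
    · show 0 ≤ g 2 8 - 4 * c 2 8
      linarith
    · exact le_refl (0 : ℝ)
    · show 0 ≤ m
      linarith
  induction n with
  | zero => intro e he; simp [RX] at he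
  | succ n ih =>
    intro e he
    rcases List.mem_append.1 he with he | he
    · exact ih (by omega) e he
    · rw [List.mem_singleton] at he
      rw [he]
      simp only [holds, Bool.false_eq_true, if_false, ev_unit]
      exact hv _ hn

end

/-- one type -/
lemma type_false {m : ℝ} {c g : Fin 3 → ℕ → ℝ} {x : Fin 3 → ℝ} (H : LSY 3 (4 / 7) m c g x)
    {F Y : List (Bool × List ℤ)} {tr : LPT2.Tr} (hF : eqC (RC ++ (Y ++ RX 22)) F = true)
    (hY : ∀ e ∈ Y, holds e (vec m c g)) (h : LPT2.check TL tr F [] = true) : False := by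
  refine LPT2.sound h (vec m c g) rfl ?_ (okAll_sound H tools TL okAll_TL)
  refine eqC_sound _ F _ hF ?_
  intro e he
  rcases List.mem_append.1 he with he | he
  · exact holds_RC H e he
  · rcases List.mem_append.1 he with he | he
    · exact hY e he
    · exact holds_RX H 22 le_rfl e he

lemma app {A B : List (Bool × List ℤ)} {v : ℕ → ℝ} (hA : ∀ e ∈ A, holds e v)
    (hB : ∀ e ∈ B, holds e v) : ∀ e ∈ A ++ B, holds e v := by
  intro e he
  rcases List.mem_append.1 he with he | he
  · exact hA e he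
  · exact hB e he

/-- THEOREM: the label system `LSY 3 (4 / 7)` has no solution -/
theorem lpy : S_LPY 3 (4 / 7) := by
  intro m c g x H
  rcases H.hb 0 with a0 | a0 <;> rcases H.hb 1 with a1 | a1 <;> rcases H.hb 2 with a2 | a2
  · exact type_false H (F := F0) (Y := RN 0 ++ (RN 1 ++ RN 2)) (by decide +kernel)
      (app (holds_RN 0 a0.1 a0.2) (app (holds_RN 1 a1.1 a1.2) (holds_RN 2 a2.1 a2.2))) chk0
  · exact type_false H (F := F4) (Y := RB 2 ++ (RN 0 ++ RN 1)) (by decide +kernel)
      (app (holds_RB H 2 a2) (app (holds_RN 0 a0.1 a0.2) (holds_RN 1 a1.1 a1.2))) chk4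
  · exact type_false H (F := F2) (Y := RB 1 ++ (RN 0 ++ RN 2)) (by decide +kernel)
      (app (holds_RB H 1 a1) (app (holds_RN 0 a0.1 a0.2) (holds_RN 2 a2.1 a2.2))) chk2
  · exact type_false H (F := F6) (Y := RB 1 ++ (RB 2 ++ RN 0)) (by decide +kernel)
      (app (holds_RB H 1 a1) (app (holds_RB H 2 a2) (holds_RN 0 a0.1 a0.2))) chk6
  · exact type_false H (F := F1) (Y := RB 0 ++ (RN 1 ++ RN 2)) (by decide +kernel)
      (app (holds_RB H 0 a0) (app (holds_RN 1 a1.1 a1.2) (holds_RN 2 a2.1 a2.2))) chk1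
  · exact type_false H (F := F5) (Y := RB 0 ++ (RB 2 ++ RN 1)) (by decide +kernel)
      (app (holds_RB H 0 a0) (app (holds_RB H 2 a2) (holds_RN 1 a1.1 a1.2))) chk5
  · exact type_false H (F := F3) (Y := RB 0 ++ (RB 1 ++ RN 2)) (by decide +kernel)
      (app (holds_RB H 0 a0) (app (holds_RB H 1 a1) (holds_RN 2 a2.1 a2.2))) chk3
  · exact type_false H (F := F7) (Y := RB 0 ++ (RB 1 ++ RB 2)) (by decide +kernel)
      (app (holds_RB H 0 a0) (app (holds_RB H 1 a1) (holds_RB H 2 a2))) chk7

end Pool.LDV2.Y3
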