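import Pool.Agent.H14.BL.FTL
import Pool.Agent.H2.FEX.OMB
import Pool.Agent.H31.BL.TTL
import Pool.Agent.H40.SHA.SRD
import Pool.Agent.H44.BL.MOMG
import Pool.Agent.H44.RIC.CNT
import Pool.Agent.H49.MED.RTN
import Pool.Agent.H51.BL.AEN
import Pool.Agent.H51.BL.SUB
import Pool.Agent.H64.BL.HOL
import Pool.Agent.H65.BL.LAY
import Pool.Agent.H71.BL.CTL
import Pool.Agent.H91.BL.ENQ
import Pool.Agent.H99.MED.RTS
import Pool.Agent.H18.LDV.LTL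
import Pool.Agent.H36.LDV.RTL
import Pool.Agent.H42.LDV.LOW
import Pool.Agent.H65.LDV3.LDY
import Pool.Agent.H67.LDV2.CHU
import Pool.Agent.H48.LDV2.KST
import Pool.Agent.H98.KON.Ldv
import Pool.Agent.H80.LDV2.LWX
import Pool.Agent.H37.LDV2.LRX
import Pool.Agent.H44.LDV2.CHY
import Pool.Agent.H21.LDV2.Lpy
import Pool.Agent.H10.LDV.Final
import Pool.Agent.H46.EXC.All

/-!
# LDV2 with the exponent `4 / 7`: assembly with a small cone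
-/

set_option autoImplicit false

namespace Pool.LDV2.Y3

open Finset Pool.BL Pool.LDV Pool.ASY

theorem cnt : Pool.RIC.S_CNT := Pool.RIC.cnt_thm Pool.SHA.srd_thm

theorem enq : S_ENQ :=
  enq_thm hol_thm (momg_thm (Pool.MED.rtn_thm Pool.MED.rts_thm) Pool.FEX.omb_thm) lay_thm cnt

/-- the window bound from a choice lemma -/
theorem wb_of3' {T : ℝ} (h1 : 6 / 11 ≤ T) (h2 : T ≤ 3 / 5) (h : Pool.LDV3.CHT3 T) : WB T :=
  Pool.LDV3.ldy_thm lay_thm (ttl_thm cnt) (ftl_thm aen_thm lay_thm cnt) (ctl_thm enq lay_thm cnt)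
    (ltl_thm lay_thm cnt Pool.MED.rts_thm Pool.FEX.omb_thm) (rtl_thm lay_thm cnt)
    (kst_thm enq lay_thm cnt) (con_thm Pool.MED.rts_thm lay_thm cnt Pool.FEX.omb_thm) chu_thm
    T h1 h2 h

theorem chg47 : CHG (4 / 7) :=
  chy_thm sub_thm 3 (4 / 7) (by norm_num) (by norm_num) (by norm_num) lpy

theorem wb47 : WB (4 / 7) :=
  wb_of3' (by norm_num) (by norm_num) fun J m p t a hJ hm hp ht hs hi ha =>
    Pool.LDV3.alt3_of_alt2 hp ht (chg47 J m p t a hJ hm hp ht hs hi ha)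

/-- `#{R ≤ X, R ^ θ ≤ c ≤ R ^ κ} ≤ C X ^ (max (1 - θ) (4 / 7) + ε)` -/
theorem lr47 : Pool.LDV.Final.LR (4 / 7) := lrx_thm lwx_thm (4 / 7) (by norm_num) (by norm_num) wb47

/-- all heights -/
theorem upper47 : ∀ θ ε : ℝ, 1 / 3 ≤ θ → 0 < ε → ∃ C : ℝ, ∀ X : ℝ, 1 ≤ X →
    (({t | t ∈ Pool.VIO.Tri X ∧ (Rd t : ℝ) ^ θ ≤ ((t.1 + t.2 : ℕ) : ℝ)} :
      Set (ℕ × ℕ)).ncard : ℝ) ≤ C * X ^ (max (1 - θ) (4 / 7) + ε) :=
  Pool.LDV.Final.upper (by norm_num) lr47 Pool.EXC.all_XFI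

/-- lower bound -/
theorem lower47 : ∀ θ : ℝ, 1 / 3 ≤ θ → θ < 1 → ∃ c X₀ : ℝ, 0 < c ∧
    ∀ X : ℝ, X₀ ≤ X → c * X ^ (1 - θ) ≤
      (({t | t ∈ Pool.VIO.Tri X ∧ X ^ θ ≤ ((t.1 + t.2 : ℕ) : ℝ)} : Set (ℕ × ℕ)).ncard : ℝ) :=
  Pool.LDV.Final.lower low_thm

end Pool.LDV2.Y3
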