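import Pool.Agent.H21.LDV2.Sys3

/-! Data of the tree of `S_LPY 3 (4 / 7)` (generated by machine) -/

set_option autoImplicit false
set_option maxRecDepth 100000

namespace Pool.LDV2.Y3

open Pool.LPT2

/-- the tools used -/
def tools : List Tool :=
  [Tool.C1 0 1 2 [2], Tool.C1 0 1 2 [3], Tool.C1 0 1 2 [9], Tool.C1 0 1 2 [2, 9], Tool.C1 0 1 2 [3,
  9], Tool.C3 0 1 2 [2], Tool.C3 0 1 2 [3], Tool.C3 0 1 2 [9], Tool.C3 0 1 2 [3, 9], Tool.L 0 1 2 1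
  [2], Tool.L 0 1 2 1 [3], Tool.L 0 1 2 1 [2, 3], Tool.L 0 1 2 1 [9], Tool.L 0 1 2 1 [1, 9], Tool.L
  0 1 2 1 [3, 9], Tool.L 0 1 2 1 [1, 3, 9], Tool.L 0 1 2 2 [2], Tool.L 0 1 2 2 [3], Tool.L 0 1 2 2
  [2, 9], Tool.L 0 1 2 2 [3, 9], Tool.L 0 1 2 2 [2, 3, 9], Tool.L 0 1 2 3 [2], Tool.L 0 1 2 3 [3],
  Tool.L 0 1 2 3 [9], Tool.L 0 1 2 3 [1, 9], Tool.L 0 1 2 3 [3, 9], Tool.L 0 1 2 3 [2, 3, 9],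
  Tool.C1 1 0 2 [9], Tool.C1 1 0 2 [2, 9], Tool.C1 1 0 2 [3, 9], Tool.C1 1 0 2 [2, 3, 9], Tool.C3 1
  0 2 [2], Tool.C3 1 0 2 [9], Tool.C3 1 0 2 [3, 9], Tool.C3 1 0 2 [2, 3, 9], Tool.L 1 0 2 1 [2],
  Tool.L 1 0 2 1 [2, 9], Tool.L 1 0 2 1 [3, 9], Tool.L 1 0 2 1 [2, 3, 9], Tool.L 1 0 2 2 [3], Tool.L
  1 0 2 2 [9], Tool.L 1 0 2 2 [1, 2, 9], Tool.L 1 0 2 2 [3, 9], Tool.L 1 0 2 2 [2, 3, 9], Tool.L 1 0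
  2 3 [2, 3], Tool.L 1 0 2 3 [9], Tool.L 1 0 2 3 [3, 9], Tool.L 1 0 2 3 [1, 3, 9], Tool.C1 2 0 1
  [2], Tool.C1 2 0 1 [3], Tool.C1 2 0 1 [2, 3], Tool.C1 2 0 1 [9], Tool.C1 2 0 1 [2, 9], Tool.C1 2 0
  1 [3, 9], Tool.C3 2 0 1 [3], Tool.C3 2 0 1 [9], Tool.C3 2 0 1 [2, 9], Tool.C3 2 0 1 [3, 9], Tool.L
  2 0 1 1 [2], Tool.L 2 0 1 1 [3], Tool.L 2 0 1 1 [1, 3], Tool.L 2 0 1 1 [2, 3], Tool.L 2 0 1 1 [9],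
  Tool.L 2 0 1 1 [2, 9], Tool.L 2 0 1 1 [3, 9], Tool.L 2 0 1 1 [1, 3, 9], Tool.L 2 0 1 2 [3], Tool.L
  2 0 1 2 [2, 3], Tool.L 2 0 1 2 [9], Tool.L 2 0 1 2 [2, 9], Tool.L 2 0 1 2 [3, 9], Tool.L 2 0 1 2
  [2, 3, 9], Tool.L 2 0 1 3 [2, 3], Tool.L 2 0 1 3 [9], Tool.L 2 0 1 3 [3, 9], Tool.L 2 0 1 3 [2, 3,
  9], Tool.K1 0 1 2 [2] 2 [3], Tool.K1 0 1 2 [2] 2 [1, 3], Tool.K1 0 1 2 [2] 2 [3, 9], Tool.K1 0 1 2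
  [2] 2 [1, 3, 9], Tool.K1 0 2 1 [3] 3 [1, 2], Tool.K1 0 2 1 [3] 3 [1, 2, 9], Tool.K1 1 2 0 [2] 2
  [3, 9], Tool.K1 1 0 2 [2] 2 [3, 9], Tool.K1 1 0 2 [2] 2 [1, 3, 9], Tool.K1 2 0 1 [2] 2 [1, 3],
  Tool.K1 2 0 1 [2] 2 [1, 9], Tool.K1 2 0 1 [3] 3 [1, 2], Tool.K1 2 0 1 [3] 3 [1, 2, 9], Tool.K1 2 1
  0 [2] 2 [1, 3, 9], Tool.K1 2 1 0 [3] 3 [2], Tool.K1 2 1 0 [3] 3 [2, 9], Tool.K1 2 1 0 [3] 3 [1, 2,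
  9], Tool.K3 0 1 2 [2] 2 [1], Tool.K3 0 1 2 [2] 2 [3], Tool.K3 0 1 2 [2] 2 [1, 3, 9], Tool.K3 0 1 2
  [3] 3 [1, 2], Tool.K3 0 2 1 [2] 2 [1, 3], Tool.K3 0 2 1 [2] 2 [1, 9], Tool.K3 0 2 1 [2] 2 [1, 3,
  9], Tool.K3 0 2 1 [3] 3 [1], Tool.K3 0 2 1 [3] 3 [2], Tool.K3 0 2 1 [3] 3 [1, 2, 9], Tool.K3 1 2 0
  [2] 2 [1, 3, 9], Tool.K3 1 2 0 [3] 3 [1, 2, 9], Tool.K3 1 0 2 [2] 2 [1], Tool.K3 1 0 2 [2] 2 [1,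
  3, 9], Tool.K3 1 0 2 [3] 3 [1, 2, 9], Tool.K3 2 0 1 [2] 2 [1], Tool.K3 2 0 1 [2] 2 [3, 9], Tool.K3
  2 0 1 [3] 3 [1, 2], Tool.K3 2 0 1 [3] 3 [1, 9], Tool.K3 2 0 1 [3] 3 [1, 2, 9], Tool.K3 2 1 0 [2] 2
  [3], Tool.K3 2 1 0 [2] 2 [9], Tool.K3 2 1 0 [2] 2 [1, 9], Tool.K3 2 1 0 [2] 2 [3, 9], Tool.K3 2 1
  0 [2] 2 [1, 3, 9], Tool.K3 2 1 0 [3] 3 [2], Tool.K3 2 1 0 [3] 3 [1, 2], Tool.R 1 1, Tool.R 1 2,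
  Tool.R 1 3, Tool.R 2 1, Tool.R 2 2, Tool.R 2 3, Tool.N, Tool.S1 0 1 2 1 20, Tool.S3 0 1 2 1 20,
  Tool.S1 0 1 2 1 16, Tool.S3 0 1 2 1 16, Tool.S1 0 1 2 1 14, Tool.S3 0 1 2 1 14, Tool.S1 0 1 2 1
  12, Tool.S1 1 0 2 1 14, Tool.S3 1 0 2 1 14, Tool.S3 1 0 2 1 12, Tool.S1 1 0 2 1 10, Tool.S3 1 0 2
  1 10, Tool.S3 2 0 1 1 20, Tool.S1 2 0 1 1 16, Tool.S3 2 0 1 1 16, Tool.S1 2 0 1 1 14, Tool.S3 2 0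
  1 1 14, Tool.S1 2 0 1 1 12, Tool.S1 2 0 1 1 10, Tool.S3 2 0 1 1 10, Tool.L 0 1 2 1 [8], Tool.L 0 1
  2 2 [8], Tool.L 0 1 2 2 [2, 3, 8], Tool.L 0 1 2 2 [1, 2, 3, 8], Tool.L 0 1 2 3 [8], Tool.C3 1 0 2
  [3], Tool.L 1 0 2 1 [3], Tool.L 1 0 2 2 [2, 3], Tool.L 1 0 2 3 [3], Tool.L 1 0 2 3 [2, 3, 9],
  Tool.C3 2 0 1 [2, 3], Tool.K1 0 1 2 [8] 2 [], Tool.K3 0 2 1 [8] 2 [1, 2, 3, 9], Tool.K3 2 0 1 [3]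
  3 [9], Tool.L 1 0 2 1 [8, 9], Tool.L 1 0 2 2 [8], Tool.L 1 0 2 2 [1, 2, 8, 9], Tool.L 1 0 2 3 [1,
  8], Tool.L 1 0 2 3 [3, 8, 9], Tool.K1 1 0 2 [8] 2 [2], Tool.K1 1 0 2 [8] 2 [1, 2], Tool.K3 1 2 0
  [8] 2 [1, 3, 9], Tool.K3 1 2 0 [8] 2 [1, 2, 3, 9], Tool.R 1 8, Tool.S1 0 1 2 1 10, Tool.S1 2 0 1 1
  20, Tool.K1 1 0 2 [8] 2 [1, 2, 3, 9], Tool.K3 0 1 2 [8] 2 [1, 2, 3, 9], Tool.K3 1 2 0 [8] 2 [9],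
  Tool.C1 1 0 2 [2], Tool.L 1 0 2 3 [2, 9], Tool.L 2 0 1 1 [8], Tool.L 2 0 1 2 [8], Tool.L 2 0 1 2
  [1, 8], Tool.L 2 0 1 2 [3, 8], Tool.L 2 0 1 3 [8], Tool.K1 0 2 1 [2] 2 [3], Tool.K1 2 0 1 [8] 2
  [1, 2, 3, 9], Tool.K3 0 1 2 [3] 3 [2, 9], Tool.K3 0 1 2 [3] 3 [1, 2, 9], Tool.K3 0 2 1 [3] 3 [9],
  Tool.K3 1 2 0 [3] 3 [1, 2], Tool.K3 2 0 1 [8] 2 [1, 2, 3, 9], Tool.K3 2 1 0 [8] 2 [1, 2, 9],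
  Tool.R 2 8, Tool.S3 1 0 2 1 16, Tool.K1 0 2 1 [8] 2 [1, 2, 3, 9], Tool.K3 2 1 0 [8] 2 [], Tool.K1
  2 1 0 [8] 2 [1, 2, 3, 9], Tool.K3 1 0 2 [8] 2 [9], Tool.K1 0 2 1 [8] 2 []]

/-- pieces of tool 0 -/
def P0 : List (List ℤ) :=
  [[-32, 0, 56, 0, 0, 0, 0, 0, 28, 28, 28, 28, 28, 0, 0, 28, 28, 28, 28, 28], [-32, 0, 42, 0, 0, 0,
  0, 0, 28, 28, 28, 28, 28, 0, 0, 42, 42, 42, 42, 42], [-32, 0, 14, 0, 0, 0, 0, 0, 28, 28, 28, 28,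
  28, 0, 0, 56, 56, 56, 56, 56], [-32, 0, 42, 0, 0, 0, 0, 0, 42, 42, 42, 42, 42, 0, 0, 28, 28, 28,
  28, 28], [-32, 0, 28, 0, 0, 0, 0, 0, 42, 42, 42, 42, 42, 0, 0, 42, 42, 42, 42, 42], [-32, 0, 0, 0,
  0, 0, 0, 0, 42, 42, 42, 42, 42, 0, 0, 56, 56, 56, 56, 56], [-32, 0, 14, 0, 0, 0, 0, 0, 56, 56, 56,
  56, 56, 0, 0, 28, 28, 28, 28, 28], [-32, 0, 0, 0, 0, 0, 0, 0, 56, 56, 56, 56, 56, 0, 0, 42, 42,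
  42, 42, 42], [-32, 0, -28, 0, 0, 0, 0, 0, 56, 56, 56, 56, 56, 0, 0, 56, 56, 56, 56, 56]]

/-- pieces of tool 1 -/
def P1 : List (List ℤ) :=
  [[-32, 0, 0, 56, 0, 0, 0, 0, 28, 28, 28, 28, 28, 0, 0, 28, 28, 28, 28, 28], [-32, 0, 0, 35, 0, 0,
  0, 0, 28, 28, 28, 28, 28, 0, 0, 42, 42, 42, 42, 42], [-32, 0, 0, -7, 0, 0, 0, 0, 28, 28, 28, 28,
  28, 0, 0, 56, 56, 56, 56, 56], [-32, 0, 0, 35, 0, 0, 0, 0, 42, 42, 42, 42, 42, 0, 0, 28, 28, 28,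
  28, 28], [-32, 0, 0, 14, 0, 0, 0, 0, 42, 42, 42, 42, 42, 0, 0, 42, 42, 42, 42, 42], [-32, 0, 0,
  -28, 0, 0, 0, 0, 42, 42, 42, 42, 42, 0, 0, 56, 56, 56, 56, 56], [-32, 0, 0, -7, 0, 0, 0, 0, 56,
  56, 56, 56, 56, 0, 0, 28, 28, 28, 28, 28], [-32, 0, 0, -28, 0, 0, 0, 0, 56, 56, 56, 56, 56, 0, 0,
  42, 42, 42, 42, 42], [-32, 0, 0, -70, 0, 0, 0, 0, 56, 56, 56, 56, 56, 0, 0, 56, 56, 56, 56, 56]]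

/-- pieces of tool 2 -/
def P2 : List (List ℤ) :=
  [[-32, 0, 0, 0, 0, 56, 0, 0, 28, 28, 28, 28, 28, 0, 0, 28, 28, 28, 28, 28], [-32, 0, 0, 0, 0, 28,
  0, -7, 28, 28, 28, 28, 28, 0, 0, 42, 42, 42, 42, 42], [-32, 0, 0, 0, 0, -28, 0, -21, 28, 28, 28,
  28, 28, 0, 0, 56, 56, 56, 56, 56], [-32, 0, 0, 0, 0, 28, 0, -7, 42, 42, 42, 42, 42, 0, 0, 28, 28,
  28, 28, 28], [-32, 0, 0, 0, 0, 0, 0, -14, 42, 42, 42, 42, 42, 0, 0, 42, 42, 42, 42, 42], [-32, 0,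
  0, 0, 0, -56, 0, -28, 42, 42, 42, 42, 42, 0, 0, 56, 56, 56, 56, 56], [-32, 0, 0, 0, 0, -28, 0,
  -21, 56, 56, 56, 56, 56, 0, 0, 28, 28, 28, 28, 28], [-32, 0, 0, 0, 0, -56, 0, -28, 56, 56, 56, 56,
  56, 0, 0, 42, 42, 42, 42, 42], [-32, 0, 0, 0, 0, -112, 0, -42, 56, 56, 56, 56, 56, 0, 0, 56, 56,
  56, 56, 56]]

/-- pieces of tool 3 -/
def P3 : List (List ℤ) :=
  [[-32, 0, 56, 0, 0, 56, 0, 0, 28, 28, 28, 28, 28, 0, 0, 28, 28, 28, 28, 28], [-32, 0, 42, 0, 0,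
  28, 0, -7, 28, 28, 28, 28, 28, 0, 0, 42, 42, 42, 42, 42], [-32, 0, 14, 0, 0, -28, 0, -21, 28, 28,
  28, 28, 28, 0, 0, 56, 56, 56, 56, 56], [-32, 0, 42, 0, 0, 28, 0, -7, 42, 42, 42, 42, 42, 0, 0, 28,
  28, 28, 28, 28], [-32, 0, 28, 0, 0, 0, 0, -14, 42, 42, 42, 42, 42, 0, 0, 42, 42, 42, 42, 42],
  [-32, 0, 0, 0, 0, -56, 0, -28, 42, 42, 42, 42, 42, 0, 0, 56, 56, 56, 56, 56], [-32, 0, 14, 0, 0,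
  -28, 0, -21, 56, 56, 56, 56, 56, 0, 0, 28, 28, 28, 28, 28], [-32, 0, 0, 0, 0, -56, 0, -28, 56, 56,
  56, 56, 56, 0, 0, 42, 42, 42, 42, 42], [-32, 0, -28, 0, 0, -112, 0, -42, 56, 56, 56, 56, 56, 0, 0,
  56, 56, 56, 56, 56]]

/-- pieces of tool 4 -/
def P4 : List (List ℤ) :=
  [[-32, 0, 0, 56, 0, 56, 0, 0, 28, 28, 28, 28, 28, 0, 0, 28, 28, 28, 28, 28], [-32, 0, 0, 35, 0,
  28, 0, -7, 28, 28, 28, 28, 28, 0, 0, 42, 42, 42, 42, 42], [-32, 0, 0, -7, 0, -28, 0, -21, 28, 28,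
  28, 28, 28, 0, 0, 56, 56, 56, 56, 56], [-32, 0, 0, 35, 0, 28, 0, -7, 42, 42, 42, 42, 42, 0, 0, 28,
  28, 28, 28, 28], [-32, 0, 0, 14, 0, 0, 0, -14, 42, 42, 42, 42, 42, 0, 0, 42, 42, 42, 42, 42],
  [-32, 0, 0, -28, 0, -56, 0, -28, 42, 42, 42, 42, 42, 0, 0, 56, 56, 56, 56, 56], [-32, 0, 0, -7, 0,
  -28, 0, -21, 56, 56, 56, 56, 56, 0, 0, 28, 28, 28, 28, 28], [-32, 0, 0, -28, 0, -56, 0, -28, 56,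
  56, 56, 56, 56, 0, 0, 42, 42, 42, 42, 42], [-32, 0, 0, -70, 0, -112, 0, -42, 56, 56, 56, 56, 56,
  0, 0, 56, 56, 56, 56, 56]]

/-- pieces of tool 5 -/
def P5 : List (List ℤ) :=
  [[-24, 0, 42, 0, 0, 0, 0, 0, 21, 21, 21, 21, 21, 0, 0, 21, 21, 21, 21, 21], [-24, 0, 28, 0, 0, 0,
  0, 0, 21, 21, 21, 21, 21, 0, 0, 35, 35, 35, 35, 35], [-24, 0, 0, 0, 0, 0, 0, 0, 21, 21, 21, 21,
  21, 0, 0, 42, 42, 42, 42, 42], [-24, 0, 28, 0, 0, 0, 0, 0, 35, 35, 35, 35, 35, 0, 0, 21, 21, 21,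
  21, 21], [-24, 0, 14, 0, 0, 0, 0, 0, 35, 35, 35, 35, 35, 0, 0, 35, 35, 35, 35, 35], [-24, 0, -14,
  0, 0, 0, 0, 0, 35, 35, 35, 35, 35, 0, 0, 42, 42, 42, 42, 42], [-24, 0, 0, 0, 0, 0, 0, 0, 42, 42,
  42, 42, 42, 0, 0, 21, 21, 21, 21, 21], [-24, 0, -14, 0, 0, 0, 0, 0, 42, 42, 42, 42, 42, 0, 0, 35,
  35, 35, 35, 35], [-24, 0, -42, 0, 0, 0, 0, 0, 42, 42, 42, 42, 42, 0, 0, 42, 42, 42, 42, 42]]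

/-- pieces of tool 6 -/
def P6 : List (List ℤ) :=
  [[-24, 0, 0, 42, 0, 0, 0, 0, 21, 21, 21, 21, 21, 0, 0, 21, 21, 21, 21, 21], [-24, 0, 0, 21, 0, 0,
  0, 0, 21, 21, 21, 21, 21, 0, 0, 35, 35, 35, 35, 35], [-24, 0, 0, -21, 0, 0, 0, 0, 21, 21, 21, 21,
  21, 0, 0, 42, 42, 42, 42, 42], [-24, 0, 0, 21, 0, 0, 0, 0, 35, 35, 35, 35, 35, 0, 0, 21, 21, 21,
  21, 21], [-24, 0, 0, 0, 0, 0, 0, 0, 35, 35, 35, 35, 35, 0, 0, 35, 35, 35, 35, 35], [-24, 0, 0,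
  -42, 0, 0, 0, 0, 35, 35, 35, 35, 35, 0, 0, 42, 42, 42, 42, 42], [-24, 0, 0, -21, 0, 0, 0, 0, 42,
  42, 42, 42, 42, 0, 0, 21, 21, 21, 21, 21], [-24, 0, 0, -42, 0, 0, 0, 0, 42, 42, 42, 42, 42, 0, 0,
  35, 35, 35, 35, 35], [-24, 0, 0, -84, 0, 0, 0, 0, 42, 42, 42, 42, 42, 0, 0, 42, 42, 42, 42, 42]]

/-- pieces of tool 7 -/
def P7 : List (List ℤ) :=
  [[-24, 0, 0, 0, 0, 42, 0, 0, 21, 21, 21, 21, 21, 0, 0, 21, 21, 21, 21, 21], [-24, 0, 0, 0, 0, 14,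
  0, -7, 21, 21, 21, 21, 21, 0, 0, 35, 35, 35, 35, 35], [-24, 0, 0, 0, 0, -42, 0, -21, 21, 21, 21,
  21, 21, 0, 0, 42, 42, 42, 42, 42], [-24, 0, 0, 0, 0, 14, 0, -7, 35, 35, 35, 35, 35, 0, 0, 21, 21,
  21, 21, 21], [-24, 0, 0, 0, 0, -14, 0, -14, 35, 35, 35, 35, 35, 0, 0, 35, 35, 35, 35, 35], [-24,
  0, 0, 0, 0, -70, 0, -28, 35, 35, 35, 35, 35, 0, 0, 42, 42, 42, 42, 42], [-24, 0, 0, 0, 0, -42, 0,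
  -21, 42, 42, 42, 42, 42, 0, 0, 21, 21, 21, 21, 21], [-24, 0, 0, 0, 0, -70, 0, -28, 42, 42, 42, 42,
  42, 0, 0, 35, 35, 35, 35, 35], [-24, 0, 0, 0, 0, -126, 0, -42, 42, 42, 42, 42, 42, 0, 0, 42, 42,
  42, 42, 42]]

/-- pieces of tool 8 -/
def P8 : List (List ℤ) :=
  [[-24, 0, 0, 42, 0, 42, 0, 0, 21, 21, 21, 21, 21, 0, 0, 21, 21, 21, 21, 21], [-24, 0, 0, 21, 0,
  14, 0, -7, 21, 21, 21, 21, 21, 0, 0, 35, 35, 35, 35, 35], [-24, 0, 0, -21, 0, -42, 0, -21, 21, 21,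
  21, 21, 21, 0, 0, 42, 42, 42, 42, 42], [-24, 0, 0, 21, 0, 14, 0, -7, 35, 35, 35, 35, 35, 0, 0, 21,
  21, 21, 21, 21], [-24, 0, 0, 0, 0, -14, 0, -14, 35, 35, 35, 35, 35, 0, 0, 35, 35, 35, 35, 35],
  [-24, 0, 0, -42, 0, -70, 0, -28, 35, 35, 35, 35, 35, 0, 0, 42, 42, 42, 42, 42], [-24, 0, 0, -21,
  0, -42, 0, -21, 42, 42, 42, 42, 42, 0, 0, 21, 21, 21, 21, 21], [-24, 0, 0, -42, 0, -70, 0, -28,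
  42, 42, 42, 42, 42, 0, 0, 35, 35, 35, 35, 35], [-24, 0, 0, -84, 0, -126, 0, -42, 42, 42, 42, 42,
  42, 0, 0, 42, 42, 42, 42, 42]]

/-- pieces of tool 9 -/
def P9 : List (List ℤ) :=
  [[-4, 0, 7, 0, 0, 0, 0, 0, 0, 7, 7, 7, 7, 0, 0, 0, 7, 7, 7, 7], [-4, 0, -7, 0, 0, 0, 0, 0, 7, 7,
  7, 7, 7, 0, 0, 7, 7, 7, 7, 7]]

/-- pieces of tool 10 -/
def P10 : List (List ℤ) :=
  [[-4, 0, 0, 7, 0, 0, 0, 0, 0, 7, 7, 7, 7, 0, 0, 0, 7, 7, 7, 7], [-4, 0, 0, -14, 0, 0, 0, 0, 7, 7,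
  7, 7, 7, 0, 0, 7, 7, 7, 7, 7]]

/-- pieces of tool 11 -/
def P11 : List (List ℤ) :=
  [[-4, 0, 7, 7, 0, 0, 0, 0, 0, 7, 7, 7, 7, 0, 0, 0, 7, 7, 7, 7], [-4, 0, -7, -14, 0, 0, 0, 0, 7, 7,
  7, 7, 7, 0, 0, 7, 7, 7, 7, 7]]

/-- pieces of tool 12 -/
def P12 : List (List ℤ) :=
  [[-4, 0, 0, 0, 0, 7, 0, 0, 0, 7, 7, 7, 7, 0, 0, 0, 7, 7, 7, 7], [-4, 0, 0, 0, 0, -21, 0, -7, 7, 7,
  7, 7, 7, 0, 0, 7, 7, 7, 7, 7]]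

/-- pieces of tool 13 -/
def P13 : List (List ℤ) :=
  [[-4, 7, 0, 0, 0, 7, 0, 0, 0, 7, 7, 7, 7, 0, 0, 0, 7, 7, 7, 7], [-4, 0, 0, 0, 0, -21, 0, -7, 7, 7,
  7, 7, 7, 0, 0, 7, 7, 7, 7, 7]]

/-- pieces of tool 14 -/
def P14 : List (List ℤ) :=
  [[-4, 0, 0, 7, 0, 7, 0, 0, 0, 7, 7, 7, 7, 0, 0, 0, 7, 7, 7, 7], [-4, 0, 0, -14, 0, -21, 0, -7, 7,
  7, 7, 7, 7, 0, 0, 7, 7, 7, 7, 7]]

/-- pieces of tool 15 -/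
def P15 : List (List ℤ) :=
  [[-4, 7, 0, 7, 0, 7, 0, 0, 0, 7, 7, 7, 7, 0, 0, 0, 7, 7, 7, 7], [-4, 0, 0, -14, 0, -21, 0, -7, 7,
  7, 7, 7, 7, 0, 0, 7, 7, 7, 7, 7]]

/-- pieces of tool 16 -/
def P16 : List (List ℤ) :=
  [[-4, 0, 7, 0, 0, 0, 0, 0, 7, 0, 7, 7, 7, 0, 0, 7, 0, 7, 7, 7], [-4, 0, -7, 0, 0, 0, 0, 0, 7, 7,
  7, 7, 7, 0, 0, 7, 7, 7, 7, 7]]

/-- pieces of tool 17 -/
def P17 : List (List ℤ) :=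
  [[-4, 0, 0, 7, 0, 0, 0, 0, 7, 0, 7, 7, 7, 0, 0, 7, 0, 7, 7, 7], [-4, 0, 0, -14, 0, 0, 0, 0, 7, 7,
  7, 7, 7, 0, 0, 7, 7, 7, 7, 7]]

/-- pieces of tool 18 -/
def P18 : List (List ℤ) :=
  [[-4, 0, 7, 0, 0, 7, 0, 0, 7, 0, 7, 7, 7, 0, 0, 7, 0, 7, 7, 7], [-4, 0, -7, 0, 0, -21, 0, -7, 7,
  7, 7, 7, 7, 0, 0, 7, 7, 7, 7, 7]]

/-- pieces of tool 19 -/
def P19 : List (List ℤ) :=
  [[-4, 0, 0, 7, 0, 7, 0, 0, 7, 0, 7, 7, 7, 0, 0, 7, 0, 7, 7, 7], [-4, 0, 0, -14, 0, -21, 0, -7, 7,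
  7, 7, 7, 7, 0, 0, 7, 7, 7, 7, 7]]

/-- pieces of tool 20 -/
def P20 : List (List ℤ) :=
  [[-4, 0, 7, 7, 0, 7, 0, 0, 7, 0, 7, 7, 7, 0, 0, 7, 0, 7, 7, 7], [-4, 0, -7, -14, 0, -21, 0, -7, 7,
  7, 7, 7, 7, 0, 0, 7, 7, 7, 7, 7]]

/-- pieces of tool 21 -/
def P21 : List (List ℤ) :=
  [[-4, 0, 7, 0, 0, 0, 0, 0, 7, 7, 0, 7, 7, 0, 0, 7, 7, 0, 7, 7], [-4, 0, -7, 0, 0, 0, 0, 0, 7, 7,
  7, 7, 7, 0, 0, 7, 7, 7, 7, 7]]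

/-- pieces of tool 22 -/
def P22 : List (List ℤ) :=
  [[-4, 0, 0, 7, 0, 0, 0, 0, 7, 7, 0, 7, 7, 0, 0, 7, 7, 0, 7, 7], [-4, 0, 0, -14, 0, 0, 0, 0, 7, 7,
  7, 7, 7, 0, 0, 7, 7, 7, 7, 7]]

/-- pieces of tool 23 -/
def P23 : List (List ℤ) :=
  [[-4, 0, 0, 0, 0, 7, 0, 0, 7, 7, 0, 7, 7, 0, 0, 7, 7, 0, 7, 7], [-4, 0, 0, 0, 0, -21, 0, -7, 7, 7,
  7, 7, 7, 0, 0, 7, 7, 7, 7, 7]]

/-- pieces of tool 24 -/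
def P24 : List (List ℤ) :=
  [[-4, 7, 0, 0, 0, 7, 0, 0, 7, 7, 0, 7, 7, 0, 0, 7, 7, 0, 7, 7], [-4, 0, 0, 0, 0, -21, 0, -7, 7, 7,
  7, 7, 7, 0, 0, 7, 7, 7, 7, 7]]

/-- pieces of tool 25 -/
def P25 : List (List ℤ) :=
  [[-4, 0, 0, 7, 0, 7, 0, 0, 7, 7, 0, 7, 7, 0, 0, 7, 7, 0, 7, 7], [-4, 0, 0, -14, 0, -21, 0, -7, 7,
  7, 7, 7, 7, 0, 0, 7, 7, 7, 7, 7]]

/-- pieces of tool 26 -/
def P26 : List (List ℤ) :=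
  [[-4, 0, 7, 7, 0, 7, 0, 0, 7, 7, 0, 7, 7, 0, 0, 7, 7, 0, 7, 7], [-4, 0, -7, -14, 0, -21, 0, -7, 7,
  7, 7, 7, 7, 0, 0, 7, 7, 7, 7, 7]]

/-- pieces of tool 27 -/
def P27 : List (List ℤ) :=
  [[-32, 28, 28, 28, 28, 28, 0, 0, 0, 0, 0, 0, 56, 0, 0, 28, 28, 28, 28, 28], [-32, 28, 28, 28, 28,
  28, 0, 0, 7, 14, 21, 28, 56, 7, 0, 42, 42, 42, 42, 42, 0, 0, -7], [-32, 28, 28, 28, 28, 28, 0, 0,
  21, 42, 63, 84, 56, 21, 0, 56, 56, 56, 56, 56, 0, 0, -21], [-32, 42, 42, 42, 42, 42, 0, 0, 7, 14,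
  21, 28, 56, 7, 0, 28, 28, 28, 28, 28, 0, 0, -7], [-32, 42, 42, 42, 42, 42, 0, 0, 14, 28, 42, 56,
  56, 14, 0, 42, 42, 42, 42, 42, 0, 0, -14], [-32, 42, 42, 42, 42, 42, 0, 0, 28, 56, 84, 112, 56,
  28, 0, 56, 56, 56, 56, 56, 0, 0, -28], [-32, 56, 56, 56, 56, 56, 0, 0, 21, 42, 63, 84, 56, 21, 0,
  28, 28, 28, 28, 28, 0, 0, -21], [-32, 56, 56, 56, 56, 56, 0, 0, 28, 56, 84, 112, 56, 28, 0, 42,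
  42, 42, 42, 42, 0, 0, -28], [-32, 56, 56, 56, 56, 56, 0, 0, 42, 84, 126, 168, 56, 42, 0, 56, 56,
  56, 56, 56, 0, 0, -42]]

/-- pieces of tool 28 -/
def P28 : List (List ℤ) :=
  [[-32, 28, 28, 28, 28, 28, 0, 0, 0, 56, 0, 0, 56, 0, 0, 28, 28, 28, 28, 28], [-32, 28, 28, 28, 28,
  28, 0, 0, 7, 56, 21, 28, 56, 7, 0, 42, 42, 42, 42, 42, 0, 0, -7], [-32, 28, 28, 28, 28, 28, 0, 0,
  21, 56, 63, 84, 56, 21, 0, 56, 56, 56, 56, 56, 0, 0, -21], [-32, 42, 42, 42, 42, 42, 0, 0, 7, 56,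
  21, 28, 56, 7, 0, 28, 28, 28, 28, 28, 0, 0, -7], [-32, 42, 42, 42, 42, 42, 0, 0, 14, 56, 42, 56,
  56, 14, 0, 42, 42, 42, 42, 42, 0, 0, -14], [-32, 42, 42, 42, 42, 42, 0, 0, 28, 56, 84, 112, 56,
  28, 0, 56, 56, 56, 56, 56, 0, 0, -28], [-32, 56, 56, 56, 56, 56, 0, 0, 21, 56, 63, 84, 56, 21, 0,
  28, 28, 28, 28, 28, 0, 0, -21], [-32, 56, 56, 56, 56, 56, 0, 0, 28, 56, 84, 112, 56, 28, 0, 42,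
  42, 42, 42, 42, 0, 0, -28], [-32, 56, 56, 56, 56, 56, 0, 0, 42, 56, 126, 168, 56, 42, 0, 56, 56,
  56, 56, 56, 0, 0, -42]]

/-- pieces of tool 29 -/
def P29 : List (List ℤ) :=
  [[-32, 28, 28, 28, 28, 28, 0, 0, 0, 0, 56, 0, 56, 0, 0, 28, 28, 28, 28, 28], [-32, 28, 28, 28, 28,
  28, 0, 0, 7, 14, 56, 28, 56, 7, 0, 42, 42, 42, 42, 42, 0, 0, -7], [-32, 28, 28, 28, 28, 28, 0, 0,
  21, 42, 56, 84, 56, 21, 0, 56, 56, 56, 56, 56, 0, 0, -21], [-32, 42, 42, 42, 42, 42, 0, 0, 7, 14,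
  56, 28, 56, 7, 0, 28, 28, 28, 28, 28, 0, 0, -7], [-32, 42, 42, 42, 42, 42, 0, 0, 14, 28, 56, 56,
  56, 14, 0, 42, 42, 42, 42, 42, 0, 0, -14], [-32, 42, 42, 42, 42, 42, 0, 0, 28, 56, 56, 112, 56,
  28, 0, 56, 56, 56, 56, 56, 0, 0, -28], [-32, 56, 56, 56, 56, 56, 0, 0, 21, 42, 56, 84, 56, 21, 0,
  28, 28, 28, 28, 28, 0, 0, -21], [-32, 56, 56, 56, 56, 56, 0, 0, 28, 56, 56, 112, 56, 28, 0, 42,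
  42, 42, 42, 42, 0, 0, -28], [-32, 56, 56, 56, 56, 56, 0, 0, 42, 84, 56, 168, 56, 42, 0, 56, 56,
  56, 56, 56, 0, 0, -42]]

/-- pieces of tool 30 -/
def P30 : List (List ℤ) :=
  [[-32, 28, 28, 28, 28, 28, 0, 0, 0, 56, 56, 0, 56, 0, 0, 28, 28, 28, 28, 28], [-32, 28, 28, 28,
  28, 28, 0, 0, 7, 56, 56, 28, 56, 7, 0, 42, 42, 42, 42, 42, 0, 0, -7], [-32, 28, 28, 28, 28, 28, 0,
  0, 21, 56, 56, 84, 56, 21, 0, 56, 56, 56, 56, 56, 0, 0, -21], [-32, 42, 42, 42, 42, 42, 0, 0, 7,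
  56, 56, 28, 56, 7, 0, 28, 28, 28, 28, 28, 0, 0, -7], [-32, 42, 42, 42, 42, 42, 0, 0, 14, 56, 56,
  56, 56, 14, 0, 42, 42, 42, 42, 42, 0, 0, -14], [-32, 42, 42, 42, 42, 42, 0, 0, 28, 56, 56, 112,
  56, 28, 0, 56, 56, 56, 56, 56, 0, 0, -28], [-32, 56, 56, 56, 56, 56, 0, 0, 21, 56, 56, 84, 56, 21,
  0, 28, 28, 28, 28, 28, 0, 0, -21], [-32, 56, 56, 56, 56, 56, 0, 0, 28, 56, 56, 112, 56, 28, 0, 42,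
  42, 42, 42, 42, 0, 0, -28], [-32, 56, 56, 56, 56, 56, 0, 0, 42, 56, 56, 168, 56, 42, 0, 56, 56,
  56, 56, 56, 0, 0, -42]]

/-- pieces of tool 31 -/
def P31 : List (List ℤ) :=
  [[-24, 21, 21, 21, 21, 21, 0, 0, 0, 42, 0, 0, 0, 0, 0, 21, 21, 21, 21, 21], [-24, 21, 21, 21, 21,
  21, 0, 0, 0, 28, 0, 0, 0, 0, 0, 35, 35, 35, 35, 35], [-24, 21, 21, 21, 21, 21, 0, 0, 0, 0, 0, 0,
  0, 0, 0, 42, 42, 42, 42, 42], [-24, 35, 35, 35, 35, 35, 0, 0, 0, 28, 0, 0, 0, 0, 0, 21, 21, 21,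
  21, 21], [-24, 35, 35, 35, 35, 35, 0, 0, 0, 14, 0, 0, 0, 0, 0, 35, 35, 35, 35, 35], [-24, 35, 35,
  35, 35, 35, 0, 0, 0, -14, 0, 0, 0, 0, 0, 42, 42, 42, 42, 42], [-24, 42, 42, 42, 42, 42, 0, 0, 0,
  0, 0, 0, 0, 0, 0, 21, 21, 21, 21, 21], [-24, 42, 42, 42, 42, 42, 0, 0, 0, -14, 0, 0, 0, 0, 0, 35,
  35, 35, 35, 35], [-24, 42, 42, 42, 42, 42, 0, 0, 0, -42, 0, 0, 0, 0, 0, 42, 42, 42, 42, 42]]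

/-- pieces of tool 32 -/
def P32 : List (List ℤ) :=
  [[-24, 21, 21, 21, 21, 21, 0, 0, 0, 0, 0, 0, 42, 0, 0, 21, 21, 21, 21, 21], [-24, 21, 21, 21, 21,
  21, 0, 0, 7, 14, 21, 28, 42, 7, 0, 35, 35, 35, 35, 35, 0, 0, -7], [-24, 21, 21, 21, 21, 21, 0, 0,
  21, 42, 63, 84, 42, 21, 0, 42, 42, 42, 42, 42, 0, 0, -21], [-24, 35, 35, 35, 35, 35, 0, 0, 7, 14,
  21, 28, 42, 7, 0, 21, 21, 21, 21, 21, 0, 0, -7], [-24, 35, 35, 35, 35, 35, 0, 0, 14, 28, 42, 56,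
  42, 14, 0, 35, 35, 35, 35, 35, 0, 0, -14], [-24, 35, 35, 35, 35, 35, 0, 0, 28, 56, 84, 112, 42,
  28, 0, 42, 42, 42, 42, 42, 0, 0, -28], [-24, 42, 42, 42, 42, 42, 0, 0, 21, 42, 63, 84, 42, 21, 0,
  21, 21, 21, 21, 21, 0, 0, -21], [-24, 42, 42, 42, 42, 42, 0, 0, 28, 56, 84, 112, 42, 28, 0, 35,
  35, 35, 35, 35, 0, 0, -28], [-24, 42, 42, 42, 42, 42, 0, 0, 42, 84, 126, 168, 42, 42, 0, 42, 42,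
  42, 42, 42, 0, 0, -42]]

/-- pieces of tool 33 -/
def P33 : List (List ℤ) :=
  [[-24, 21, 21, 21, 21, 21, 0, 0, 0, 0, 42, 0, 42, 0, 0, 21, 21, 21, 21, 21], [-24, 21, 21, 21, 21,
  21, 0, 0, 7, 14, 42, 28, 42, 7, 0, 35, 35, 35, 35, 35, 0, 0, -7], [-24, 21, 21, 21, 21, 21, 0, 0,
  21, 42, 42, 84, 42, 21, 0, 42, 42, 42, 42, 42, 0, 0, -21], [-24, 35, 35, 35, 35, 35, 0, 0, 7, 14,
  42, 28, 42, 7, 0, 21, 21, 21, 21, 21, 0, 0, -7], [-24, 35, 35, 35, 35, 35, 0, 0, 14, 28, 42, 56,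
  42, 14, 0, 35, 35, 35, 35, 35, 0, 0, -14], [-24, 35, 35, 35, 35, 35, 0, 0, 28, 56, 42, 112, 42,
  28, 0, 42, 42, 42, 42, 42, 0, 0, -28], [-24, 42, 42, 42, 42, 42, 0, 0, 21, 42, 42, 84, 42, 21, 0,
  21, 21, 21, 21, 21, 0, 0, -21], [-24, 42, 42, 42, 42, 42, 0, 0, 28, 56, 42, 112, 42, 28, 0, 35,
  35, 35, 35, 35, 0, 0, -28], [-24, 42, 42, 42, 42, 42, 0, 0, 42, 84, 42, 168, 42, 42, 0, 42, 42,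
  42, 42, 42, 0, 0, -42]]

/-- pieces of tool 34 -/
def P34 : List (List ℤ) :=
  [[-24, 21, 21, 21, 21, 21, 0, 0, 0, 42, 42, 0, 42, 0, 0, 21, 21, 21, 21, 21], [-24, 21, 21, 21,
  21, 21, 0, 0, 7, 42, 42, 28, 42, 7, 0, 35, 35, 35, 35, 35, 0, 0, -7], [-24, 21, 21, 21, 21, 21, 0,
  0, 21, 42, 42, 84, 42, 21, 0, 42, 42, 42, 42, 42, 0, 0, -21], [-24, 35, 35, 35, 35, 35, 0, 0, 7,
  42, 42, 28, 42, 7, 0, 21, 21, 21, 21, 21, 0, 0, -7], [-24, 35, 35, 35, 35, 35, 0, 0, 14, 42, 42,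
  56, 42, 14, 0, 35, 35, 35, 35, 35, 0, 0, -14], [-24, 35, 35, 35, 35, 35, 0, 0, 28, 42, 42, 112,
  42, 28, 0, 42, 42, 42, 42, 42, 0, 0, -28], [-24, 42, 42, 42, 42, 42, 0, 0, 21, 42, 42, 84, 42, 21,
  0, 21, 21, 21, 21, 21, 0, 0, -21], [-24, 42, 42, 42, 42, 42, 0, 0, 28, 42, 42, 112, 42, 28, 0, 35,
  35, 35, 35, 35, 0, 0, -28], [-24, 42, 42, 42, 42, 42, 0, 0, 42, 42, 42, 168, 42, 42, 0, 42, 42,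
  42, 42, 42, 0, 0, -42]]

/-- pieces of tool 35 -/
def P35 : List (List ℤ) :=
  [[-4, 0, 7, 7, 7, 7, 0, 0, 0, 7, 0, 0, 0, 0, 0, 0, 7, 7, 7, 7], [-4, 7, 7, 7, 7, 7, 0, 0, 0, -7,
  0, 0, 0, 0, 0, 7, 7, 7, 7, 7]]

/-- pieces of tool 36 -/
def P36 : List (List ℤ) :=
  [[-4, 0, 7, 7, 7, 7, 0, 0, 0, 7, 0, 0, 7, 0, 0, 0, 7, 7, 7, 7], [-4, 7, 7, 7, 7, 7, 0, 0, 7, 7,
  21, 28, 7, 7, 0, 7, 7, 7, 7, 7, 0, 0, -7]]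

/-- pieces of tool 37 -/
def P37 : List (List ℤ) :=
  [[-4, 0, 7, 7, 7, 7, 0, 0, 0, 0, 7, 0, 7, 0, 0, 0, 7, 7, 7, 7], [-4, 7, 7, 7, 7, 7, 0, 0, 7, 14,
  7, 28, 7, 7, 0, 7, 7, 7, 7, 7, 0, 0, -7]]

/-- pieces of tool 38 -/
def P38 : List (List ℤ) :=
  [[-4, 0, 7, 7, 7, 7, 0, 0, 0, 7, 7, 0, 7, 0, 0, 0, 7, 7, 7, 7], [-4, 7, 7, 7, 7, 7, 0, 0, 7, 7, 7,
  28, 7, 7, 0, 7, 7, 7, 7, 7, 0, 0, -7]]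

/-- pieces of tool 39 -/
def P39 : List (List ℤ) :=
  [[-4, 7, 0, 7, 7, 7, 0, 0, 0, 0, 7, 0, 0, 0, 0, 7, 0, 7, 7, 7], [-4, 7, 7, 7, 7, 7, 0, 0, 0, 0,
  -14, 0, 0, 0, 0, 7, 7, 7, 7, 7]]

/-- pieces of tool 40 -/
def P40 : List (List ℤ) :=
  [[-4, 7, 0, 7, 7, 7, 0, 0, 0, 0, 0, 0, 7, 0, 0, 7, 0, 7, 7, 7], [-4, 7, 7, 7, 7, 7, 0, 0, 7, 14,
  21, 28, 7, 7, 0, 7, 7, 7, 7, 7, 0, 0, -7]]

/-- pieces of tool 41 -/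
def P41 : List (List ℤ) :=
  [[-4, 7, 0, 7, 7, 7, 0, 0, 7, 7, 0, 0, 7, 0, 0, 7, 0, 7, 7, 7], [-4, 7, 7, 7, 7, 7, 0, 0, 7, 7,
  21, 28, 7, 7, 0, 7, 7, 7, 7, 7, 0, 0, -7]]

/-- pieces of tool 42 -/
def P42 : List (List ℤ) :=
  [[-4, 7, 0, 7, 7, 7, 0, 0, 0, 0, 7, 0, 7, 0, 0, 7, 0, 7, 7, 7], [-4, 7, 7, 7, 7, 7, 0, 0, 7, 14,
  7, 28, 7, 7, 0, 7, 7, 7, 7, 7, 0, 0, -7]]

/-- pieces of tool 43 -/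
def P43 : List (List ℤ) :=
  [[-4, 7, 0, 7, 7, 7, 0, 0, 0, 7, 7, 0, 7, 0, 0, 7, 0, 7, 7, 7], [-4, 7, 7, 7, 7, 7, 0, 0, 7, 7, 7,
  28, 7, 7, 0, 7, 7, 7, 7, 7, 0, 0, -7]]

/-- pieces of tool 44 -/
def P44 : List (List ℤ) :=
  [[-4, 7, 7, 0, 7, 7, 0, 0, 0, 7, 7, 0, 0, 0, 0, 7, 7, 0, 7, 7], [-4, 7, 7, 7, 7, 7, 0, 0, 0, -7,
  -14, 0, 0, 0, 0, 7, 7, 7, 7, 7]]

/-- pieces of tool 45 -/
def P45 : List (List ℤ) :=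
  [[-4, 7, 7, 0, 7, 7, 0, 0, 0, 0, 0, 0, 7, 0, 0, 7, 7, 0, 7, 7], [-4, 7, 7, 7, 7, 7, 0, 0, 7, 14,
  21, 28, 7, 7, 0, 7, 7, 7, 7, 7, 0, 0, -7]]

/-- pieces of tool 46 -/
def P46 : List (List ℤ) :=
  [[-4, 7, 7, 0, 7, 7, 0, 0, 0, 0, 7, 0, 7, 0, 0, 7, 7, 0, 7, 7], [-4, 7, 7, 7, 7, 7, 0, 0, 7, 14,
  7, 28, 7, 7, 0, 7, 7, 7, 7, 7, 0, 0, -7]]

/-- pieces of tool 47 -/
def P47 : List (List ℤ) :=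
  [[-4, 7, 7, 0, 7, 7, 0, 0, 7, 0, 7, 0, 7, 0, 0, 7, 7, 0, 7, 7], [-4, 7, 7, 7, 7, 7, 0, 0, 7, 14,
  7, 28, 7, 7, 0, 7, 7, 7, 7, 7, 0, 0, -7]]

/-- pieces of tool 48 -/
def P48 : List (List ℤ) :=
  [[-32, 28, 28, 28, 28, 28, 0, 0, 28, 28, 28, 28, 28, 0, 0, 0, 56], [-32, 28, 28, 28, 28, 28, 0, 0,
  42, 42, 42, 42, 42, 0, 0, 0, 42], [-32, 28, 28, 28, 28, 28, 0, 0, 56, 56, 56, 56, 56, 0, 0, 0,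
  14], [-32, 42, 42, 42, 42, 42, 0, 0, 28, 28, 28, 28, 28, 0, 0, 0, 42], [-32, 42, 42, 42, 42, 42,
  0, 0, 42, 42, 42, 42, 42, 0, 0, 0, 28], [-32, 42, 42, 42, 42, 42, 0, 0, 56, 56, 56, 56, 56], [-32,
  56, 56, 56, 56, 56, 0, 0, 28, 28, 28, 28, 28, 0, 0, 0, 14], [-32, 56, 56, 56, 56, 56, 0, 0, 42,
  42, 42, 42, 42], [-32, 56, 56, 56, 56, 56, 0, 0, 56, 56, 56, 56, 56, 0, 0, 0, -28]]

/-- pieces of tool 49 -/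
def P49 : List (List ℤ) :=
  [[-32, 28, 28, 28, 28, 28, 0, 0, 28, 28, 28, 28, 28, 0, 0, 0, 0, 56], [-32, 28, 28, 28, 28, 28, 0,
  0, 42, 42, 42, 42, 42, 0, 0, 0, 0, 35], [-32, 28, 28, 28, 28, 28, 0, 0, 56, 56, 56, 56, 56, 0, 0,
  0, 0, -7], [-32, 42, 42, 42, 42, 42, 0, 0, 28, 28, 28, 28, 28, 0, 0, 0, 0, 35], [-32, 42, 42, 42,
  42, 42, 0, 0, 42, 42, 42, 42, 42, 0, 0, 0, 0, 14], [-32, 42, 42, 42, 42, 42, 0, 0, 56, 56, 56, 56,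
  56, 0, 0, 0, 0, -28], [-32, 56, 56, 56, 56, 56, 0, 0, 28, 28, 28, 28, 28, 0, 0, 0, 0, -7], [-32,
  56, 56, 56, 56, 56, 0, 0, 42, 42, 42, 42, 42, 0, 0, 0, 0, -28], [-32, 56, 56, 56, 56, 56, 0, 0,
  56, 56, 56, 56, 56, 0, 0, 0, 0, -70]]

/-- pieces of tool 50 -/
def P50 : List (List ℤ) :=
  [[-32, 28, 28, 28, 28, 28, 0, 0, 28, 28, 28, 28, 28, 0, 0, 0, 56, 56], [-32, 28, 28, 28, 28, 28,
  0, 0, 42, 42, 42, 42, 42, 0, 0, 0, 42, 35], [-32, 28, 28, 28, 28, 28, 0, 0, 56, 56, 56, 56, 56, 0,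
  0, 0, 14, -7], [-32, 42, 42, 42, 42, 42, 0, 0, 28, 28, 28, 28, 28, 0, 0, 0, 42, 35], [-32, 42, 42,
  42, 42, 42, 0, 0, 42, 42, 42, 42, 42, 0, 0, 0, 28, 14], [-32, 42, 42, 42, 42, 42, 0, 0, 56, 56,
  56, 56, 56, 0, 0, 0, 0, -28], [-32, 56, 56, 56, 56, 56, 0, 0, 28, 28, 28, 28, 28, 0, 0, 0, 14,
  -7], [-32, 56, 56, 56, 56, 56, 0, 0, 42, 42, 42, 42, 42, 0, 0, 0, 0, -28], [-32, 56, 56, 56, 56,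
  56, 0, 0, 56, 56, 56, 56, 56, 0, 0, 0, -28, -70]]

/-- pieces of tool 51 -/
def P51 : List (List ℤ) :=
  [[-32, 28, 28, 28, 28, 28, 0, 0, 28, 28, 28, 28, 28, 0, 0, 0, 0, 0, 0, 56], [-32, 28, 28, 28, 28,
  28, 0, 0, 42, 42, 42, 42, 42, 0, 0, 7, 14, 21, 28, 56, 7, 0, -7], [-32, 28, 28, 28, 28, 28, 0, 0,
  56, 56, 56, 56, 56, 0, 0, 21, 42, 63, 84, 56, 21, 0, -21], [-32, 42, 42, 42, 42, 42, 0, 0, 28, 28,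
  28, 28, 28, 0, 0, 7, 14, 21, 28, 56, 7, 0, -7], [-32, 42, 42, 42, 42, 42, 0, 0, 42, 42, 42, 42,
  42, 0, 0, 14, 28, 42, 56, 56, 14, 0, -14], [-32, 42, 42, 42, 42, 42, 0, 0, 56, 56, 56, 56, 56, 0,
  0, 28, 56, 84, 112, 56, 28, 0, -28], [-32, 56, 56, 56, 56, 56, 0, 0, 28, 28, 28, 28, 28, 0, 0, 21,
  42, 63, 84, 56, 21, 0, -21], [-32, 56, 56, 56, 56, 56, 0, 0, 42, 42, 42, 42, 42, 0, 0, 28, 56, 84,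
  112, 56, 28, 0, -28], [-32, 56, 56, 56, 56, 56, 0, 0, 56, 56, 56, 56, 56, 0, 0, 42, 84, 126, 168,
  56, 42, 0, -42]]

/-- pieces of tool 52 -/
def P52 : List (List ℤ) :=
  [[-32, 28, 28, 28, 28, 28, 0, 0, 28, 28, 28, 28, 28, 0, 0, 0, 56, 0, 0, 56], [-32, 28, 28, 28, 28,
  28, 0, 0, 42, 42, 42, 42, 42, 0, 0, 7, 56, 21, 28, 56, 7, 0, -7], [-32, 28, 28, 28, 28, 28, 0, 0,
  56, 56, 56, 56, 56, 0, 0, 21, 56, 63, 84, 56, 21, 0, -21], [-32, 42, 42, 42, 42, 42, 0, 0, 28, 28,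
  28, 28, 28, 0, 0, 7, 56, 21, 28, 56, 7, 0, -7], [-32, 42, 42, 42, 42, 42, 0, 0, 42, 42, 42, 42,
  42, 0, 0, 14, 56, 42, 56, 56, 14, 0, -14], [-32, 42, 42, 42, 42, 42, 0, 0, 56, 56, 56, 56, 56, 0,
  0, 28, 56, 84, 112, 56, 28, 0, -28], [-32, 56, 56, 56, 56, 56, 0, 0, 28, 28, 28, 28, 28, 0, 0, 21,
  56, 63, 84, 56, 21, 0, -21], [-32, 56, 56, 56, 56, 56, 0, 0, 42, 42, 42, 42, 42, 0, 0, 28, 56, 84,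
  112, 56, 28, 0, -28], [-32, 56, 56, 56, 56, 56, 0, 0, 56, 56, 56, 56, 56, 0, 0, 42, 56, 126, 168,
  56, 42, 0, -42]]

/-- pieces of tool 53 -/
def P53 : List (List ℤ) :=
  [[-32, 28, 28, 28, 28, 28, 0, 0, 28, 28, 28, 28, 28, 0, 0, 0, 0, 56, 0, 56], [-32, 28, 28, 28, 28,
  28, 0, 0, 42, 42, 42, 42, 42, 0, 0, 7, 14, 56, 28, 56, 7, 0, -7], [-32, 28, 28, 28, 28, 28, 0, 0,
  56, 56, 56, 56, 56, 0, 0, 21, 42, 56, 84, 56, 21, 0, -21], [-32, 42, 42, 42, 42, 42, 0, 0, 28, 28,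
  28, 28, 28, 0, 0, 7, 14, 56, 28, 56, 7, 0, -7], [-32, 42, 42, 42, 42, 42, 0, 0, 42, 42, 42, 42,
  42, 0, 0, 14, 28, 56, 56, 56, 14, 0, -14], [-32, 42, 42, 42, 42, 42, 0, 0, 56, 56, 56, 56, 56, 0,
  0, 28, 56, 56, 112, 56, 28, 0, -28], [-32, 56, 56, 56, 56, 56, 0, 0, 28, 28, 28, 28, 28, 0, 0, 21,
  42, 56, 84, 56, 21, 0, -21], [-32, 56, 56, 56, 56, 56, 0, 0, 42, 42, 42, 42, 42, 0, 0, 28, 56, 56,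
  112, 56, 28, 0, -28], [-32, 56, 56, 56, 56, 56, 0, 0, 56, 56, 56, 56, 56, 0, 0, 42, 84, 56, 168,
  56, 42, 0, -42]]

/-- pieces of tool 54 -/
def P54 : List (List ℤ) :=
  [[-24, 21, 21, 21, 21, 21, 0, 0, 21, 21, 21, 21, 21, 0, 0, 0, 0, 42], [-24, 21, 21, 21, 21, 21, 0,
  0, 35, 35, 35, 35, 35, 0, 0, 0, 0, 21], [-24, 21, 21, 21, 21, 21, 0, 0, 42, 42, 42, 42, 42, 0, 0,
  0, 0, -21], [-24, 35, 35, 35, 35, 35, 0, 0, 21, 21, 21, 21, 21, 0, 0, 0, 0, 21], [-24, 35, 35, 35,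
  35, 35, 0, 0, 35, 35, 35, 35, 35], [-24, 35, 35, 35, 35, 35, 0, 0, 42, 42, 42, 42, 42, 0, 0, 0, 0,
  -42], [-24, 42, 42, 42, 42, 42, 0, 0, 21, 21, 21, 21, 21, 0, 0, 0, 0, -21], [-24, 42, 42, 42, 42,
  42, 0, 0, 35, 35, 35, 35, 35, 0, 0, 0, 0, -42], [-24, 42, 42, 42, 42, 42, 0, 0, 42, 42, 42, 42,
  42, 0, 0, 0, 0, -84]]

/-- pieces of tool 55 -/
def P55 : List (List ℤ) :=
  [[-24, 21, 21, 21, 21, 21, 0, 0, 21, 21, 21, 21, 21, 0, 0, 0, 0, 0, 0, 42], [-24, 21, 21, 21, 21,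
  21, 0, 0, 35, 35, 35, 35, 35, 0, 0, 7, 14, 21, 28, 42, 7, 0, -7], [-24, 21, 21, 21, 21, 21, 0, 0,
  42, 42, 42, 42, 42, 0, 0, 21, 42, 63, 84, 42, 21, 0, -21], [-24, 35, 35, 35, 35, 35, 0, 0, 21, 21,
  21, 21, 21, 0, 0, 7, 14, 21, 28, 42, 7, 0, -7], [-24, 35, 35, 35, 35, 35, 0, 0, 35, 35, 35, 35,
  35, 0, 0, 14, 28, 42, 56, 42, 14, 0, -14], [-24, 35, 35, 35, 35, 35, 0, 0, 42, 42, 42, 42, 42, 0,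
  0, 28, 56, 84, 112, 42, 28, 0, -28], [-24, 42, 42, 42, 42, 42, 0, 0, 21, 21, 21, 21, 21, 0, 0, 21,
  42, 63, 84, 42, 21, 0, -21], [-24, 42, 42, 42, 42, 42, 0, 0, 35, 35, 35, 35, 35, 0, 0, 28, 56, 84,
  112, 42, 28, 0, -28], [-24, 42, 42, 42, 42, 42, 0, 0, 42, 42, 42, 42, 42, 0, 0, 42, 84, 126, 168,
  42, 42, 0, -42]]

/-- pieces of tool 56 -/
def P56 : List (List ℤ) :=
  [[-24, 21, 21, 21, 21, 21, 0, 0, 21, 21, 21, 21, 21, 0, 0, 0, 42, 0, 0, 42], [-24, 21, 21, 21, 21,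
  21, 0, 0, 35, 35, 35, 35, 35, 0, 0, 7, 42, 21, 28, 42, 7, 0, -7], [-24, 21, 21, 21, 21, 21, 0, 0,
  42, 42, 42, 42, 42, 0, 0, 21, 42, 63, 84, 42, 21, 0, -21], [-24, 35, 35, 35, 35, 35, 0, 0, 21, 21,
  21, 21, 21, 0, 0, 7, 42, 21, 28, 42, 7, 0, -7], [-24, 35, 35, 35, 35, 35, 0, 0, 35, 35, 35, 35,
  35, 0, 0, 14, 42, 42, 56, 42, 14, 0, -14], [-24, 35, 35, 35, 35, 35, 0, 0, 42, 42, 42, 42, 42, 0,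
  0, 28, 42, 84, 112, 42, 28, 0, -28], [-24, 42, 42, 42, 42, 42, 0, 0, 21, 21, 21, 21, 21, 0, 0, 21,
  42, 63, 84, 42, 21, 0, -21], [-24, 42, 42, 42, 42, 42, 0, 0, 35, 35, 35, 35, 35, 0, 0, 28, 42, 84,
  112, 42, 28, 0, -28], [-24, 42, 42, 42, 42, 42, 0, 0, 42, 42, 42, 42, 42, 0, 0, 42, 42, 126, 168,
  42, 42, 0, -42]]

/-- pieces of tool 57 -/
def P57 : List (List ℤ) :=
  [[-24, 21, 21, 21, 21, 21, 0, 0, 21, 21, 21, 21, 21, 0, 0, 0, 0, 42, 0, 42], [-24, 21, 21, 21, 21,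
  21, 0, 0, 35, 35, 35, 35, 35, 0, 0, 7, 14, 42, 28, 42, 7, 0, -7], [-24, 21, 21, 21, 21, 21, 0, 0,
  42, 42, 42, 42, 42, 0, 0, 21, 42, 42, 84, 42, 21, 0, -21], [-24, 35, 35, 35, 35, 35, 0, 0, 21, 21,
  21, 21, 21, 0, 0, 7, 14, 42, 28, 42, 7, 0, -7], [-24, 35, 35, 35, 35, 35, 0, 0, 35, 35, 35, 35,
  35, 0, 0, 14, 28, 42, 56, 42, 14, 0, -14], [-24, 35, 35, 35, 35, 35, 0, 0, 42, 42, 42, 42, 42, 0,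
  0, 28, 56, 42, 112, 42, 28, 0, -28], [-24, 42, 42, 42, 42, 42, 0, 0, 21, 21, 21, 21, 21, 0, 0, 21,
  42, 42, 84, 42, 21, 0, -21], [-24, 42, 42, 42, 42, 42, 0, 0, 35, 35, 35, 35, 35, 0, 0, 28, 56, 42,
  112, 42, 28, 0, -28], [-24, 42, 42, 42, 42, 42, 0, 0, 42, 42, 42, 42, 42, 0, 0, 42, 84, 42, 168,
  42, 42, 0, -42]]

/-- pieces of tool 58 -/
def P58 : List (List ℤ) :=
  [[-4, 0, 7, 7, 7, 7, 0, 0, 0, 7, 7, 7, 7, 0, 0, 0, 7], [-4, 7, 7, 7, 7, 7, 0, 0, 7, 7, 7, 7, 7, 0,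
  0, 0, -7]]

/-- pieces of tool 59 -/
def P59 : List (List ℤ) :=
  [[-4, 0, 7, 7, 7, 7, 0, 0, 0, 7, 7, 7, 7, 0, 0, 0, 0, 7], [-4, 7, 7, 7, 7, 7, 0, 0, 7, 7, 7, 7, 7,
  0, 0, 0, 0, -14]]

/-- pieces of tool 60 -/
def P60 : List (List ℤ) :=
  [[-4, 0, 7, 7, 7, 7, 0, 0, 0, 7, 7, 7, 7, 0, 0, 7, 0, 7], [-4, 7, 7, 7, 7, 7, 0, 0, 7, 7, 7, 7, 7,
  0, 0, 0, 0, -14]]

/-- pieces of tool 61 -/
def P61 : List (List ℤ) :=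
  [[-4, 0, 7, 7, 7, 7, 0, 0, 0, 7, 7, 7, 7, 0, 0, 0, 7, 7], [-4, 7, 7, 7, 7, 7, 0, 0, 7, 7, 7, 7, 7,
  0, 0, 0, -7, -14]]

/-- pieces of tool 62 -/
def P62 : List (List ℤ) :=
  [[-4, 0, 7, 7, 7, 7, 0, 0, 0, 7, 7, 7, 7, 0, 0, 0, 0, 0, 0, 7], [-4, 7, 7, 7, 7, 7, 0, 0, 7, 7, 7,
  7, 7, 0, 0, 7, 14, 21, 28, 7, 7, 0, -7]]

/-- pieces of tool 63 -/
def P63 : List (List ℤ) :=
  [[-4, 0, 7, 7, 7, 7, 0, 0, 0, 7, 7, 7, 7, 0, 0, 0, 7, 0, 0, 7], [-4, 7, 7, 7, 7, 7, 0, 0, 7, 7, 7,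
  7, 7, 0, 0, 7, 7, 21, 28, 7, 7, 0, -7]]

/-- pieces of tool 64 -/
def P64 : List (List ℤ) :=
  [[-4, 0, 7, 7, 7, 7, 0, 0, 0, 7, 7, 7, 7, 0, 0, 0, 0, 7, 0, 7], [-4, 7, 7, 7, 7, 7, 0, 0, 7, 7, 7,
  7, 7, 0, 0, 7, 14, 7, 28, 7, 7, 0, -7]]

/-- pieces of tool 65 -/
def P65 : List (List ℤ) :=
  [[-4, 0, 7, 7, 7, 7, 0, 0, 0, 7, 7, 7, 7, 0, 0, 7, 0, 7, 0, 7], [-4, 7, 7, 7, 7, 7, 0, 0, 7, 7, 7,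
  7, 7, 0, 0, 7, 14, 7, 28, 7, 7, 0, -7]]

/-- pieces of tool 66 -/
def P66 : List (List ℤ) :=
  [[-4, 7, 0, 7, 7, 7, 0, 0, 7, 0, 7, 7, 7, 0, 0, 0, 0, 7], [-4, 7, 7, 7, 7, 7, 0, 0, 7, 7, 7, 7, 7,
  0, 0, 0, 0, -14]]

/-- pieces of tool 67 -/
def P67 : List (List ℤ) :=
  [[-4, 7, 0, 7, 7, 7, 0, 0, 7, 0, 7, 7, 7, 0, 0, 0, 7, 7], [-4, 7, 7, 7, 7, 7, 0, 0, 7, 7, 7, 7, 7,
  0, 0, 0, -7, -14]]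

/-- pieces of tool 68 -/
def P68 : List (List ℤ) :=
  [[-4, 7, 0, 7, 7, 7, 0, 0, 7, 0, 7, 7, 7, 0, 0, 0, 0, 0, 0, 7], [-4, 7, 7, 7, 7, 7, 0, 0, 7, 7, 7,
  7, 7, 0, 0, 7, 14, 21, 28, 7, 7, 0, -7]]

/-- pieces of tool 69 -/
def P69 : List (List ℤ) :=
  [[-4, 7, 0, 7, 7, 7, 0, 0, 7, 0, 7, 7, 7, 0, 0, 0, 7, 0, 0, 7], [-4, 7, 7, 7, 7, 7, 0, 0, 7, 7, 7,
  7, 7, 0, 0, 7, 7, 21, 28, 7, 7, 0, -7]]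

/-- pieces of tool 70 -/
def P70 : List (List ℤ) :=
  [[-4, 7, 0, 7, 7, 7, 0, 0, 7, 0, 7, 7, 7, 0, 0, 0, 0, 7, 0, 7], [-4, 7, 7, 7, 7, 7, 0, 0, 7, 7, 7,
  7, 7, 0, 0, 7, 14, 7, 28, 7, 7, 0, -7]]

/-- pieces of tool 71 -/
def P71 : List (List ℤ) :=
  [[-4, 7, 0, 7, 7, 7, 0, 0, 7, 0, 7, 7, 7, 0, 0, 0, 7, 7, 0, 7], [-4, 7, 7, 7, 7, 7, 0, 0, 7, 7, 7,
  7, 7, 0, 0, 7, 7, 7, 28, 7, 7, 0, -7]]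

/-- pieces of tool 72 -/
def P72 : List (List ℤ) :=
  [[-4, 7, 7, 0, 7, 7, 0, 0, 7, 7, 0, 7, 7, 0, 0, 0, 7, 7], [-4, 7, 7, 7, 7, 7, 0, 0, 7, 7, 7, 7, 7,
  0, 0, 0, -7, -14]]

/-- pieces of tool 73 -/
def P73 : List (List ℤ) :=
  [[-4, 7, 7, 0, 7, 7, 0, 0, 7, 7, 0, 7, 7, 0, 0, 0, 0, 0, 0, 7], [-4, 7, 7, 7, 7, 7, 0, 0, 7, 7, 7,
  7, 7, 0, 0, 7, 14, 21, 28, 7, 7, 0, -7]]

/-- pieces of tool 74 -/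
def P74 : List (List ℤ) :=
  [[-4, 7, 7, 0, 7, 7, 0, 0, 7, 7, 0, 7, 7, 0, 0, 0, 0, 7, 0, 7], [-4, 7, 7, 7, 7, 7, 0, 0, 7, 7, 7,
  7, 7, 0, 0, 7, 14, 7, 28, 7, 7, 0, -7]]

/-- pieces of tool 75 -/
def P75 : List (List ℤ) :=
  [[-4, 7, 7, 0, 7, 7, 0, 0, 7, 7, 0, 7, 7, 0, 0, 0, 7, 7, 0, 7], [-4, 7, 7, 7, 7, 7, 0, 0, 7, 7, 7,
  7, 7, 0, 0, 7, 7, 7, 28, 7, 7, 0, -7]]

/-- pieces of tool 76 -/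
def P76 : List (List ℤ) :=
  [[-32, 56, 0, 56, 56, 56, 0, 0, 28, 28, 28, 28, 28, 0, 0, 28, 28, 28, 28, 28], [-32, 56, 0, 35,
  56, 56, 0, 0, 42, 42, 42, 42, 42, 0, 0, 28, 28, 28, 28, 28], [-32, 56, 0, -7, 56, 56, 0, 0, 56,
  56, 56, 56, 56, 0, 0, 28, 28, 28, 28, 28], [-32, 0, 0, 56, 0, 0, 0, 0, 0, 0, 0, 0, 0, 0, 0, 56,
  56, 56, 56, 56]]

/-- pieces of tool 77 -/
def P77 : List (List ℤ) :=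
  [[-32, 56, 0, 56, 56, 56, 0, 0, 28, 28, 28, 28, 28, 0, 0, 28, 28, 28, 28, 28], [-32, 49, 0, 35,
  56, 56, 0, 0, 42, 42, 42, 42, 42, 0, 0, 28, 28, 28, 28, 28], [-32, 35, 0, -7, 56, 56, 0, 0, 56,
  56, 56, 56, 56, 0, 0, 28, 28, 28, 28, 28], [-32, 56, 0, 56, 0, 0, 0, 0, 0, 0, 0, 0, 0, 0, 0, 56,
  56, 56, 56, 56]]

/-- pieces of tool 78 -/
def P78 : List (List ℤ) :=
  [[-32, 56, 0, 56, 56, 56, 0, 0, 28, 28, 28, 28, 28, 0, 0, 28, 28, 28, 28, 28], [-32, 56, 0, 35,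
  56, 28, 0, -7, 42, 42, 42, 42, 42, 0, 0, 28, 28, 28, 28, 28], [-32, 56, 0, -7, 56, -28, 0, -21,
  56, 56, 56, 56, 56, 0, 0, 28, 28, 28, 28, 28], [-32, 0, 0, 56, 0, 56, 0, 0, 0, 0, 0, 0, 0, 0, 0,
  56, 56, 56, 56, 56]]

/-- pieces of tool 79 -/
def P79 : List (List ℤ) :=
  [[-32, 56, 0, 56, 56, 56, 0, 0, 28, 28, 28, 28, 28, 0, 0, 28, 28, 28, 28, 28], [-32, 49, 0, 35,
  56, 28, 0, -7, 42, 42, 42, 42, 42, 0, 0, 28, 28, 28, 28, 28], [-32, 35, 0, -7, 56, -28, 0, -21,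
  56, 56, 56, 56, 56, 0, 0, 28, 28, 28, 28, 28], [-32, 56, 0, 56, 0, 56, 0, 0, 0, 0, 0, 0, 0, 0, 0,
  56, 56, 56, 56, 56]]

/-- pieces of tool 80 -/
def P80 : List (List ℤ) :=
  [[-32, 56, 56, 0, 56, 56, 0, 0, 28, 28, 28, 28, 28, 0, 0, 28, 28, 28, 28, 28], [-32, 49, 42, 0,
  56, 56, 0, 0, 28, 28, 28, 28, 28, 0, 0, 42, 42, 42, 42, 42], [-32, 35, 14, 0, 56, 56, 0, 0, 28,
  28, 28, 28, 28, 0, 0, 56, 56, 56, 56, 56], [-32, 56, 56, 0, 0, 0, 0, 0, 56, 56, 56, 56, 56]]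

/-- pieces of tool 81 -/
def P81 : List (List ℤ) :=
  [[-32, 56, 56, 0, 56, 56, 0, 0, 28, 28, 28, 28, 28, 0, 0, 28, 28, 28, 28, 28], [-32, 49, 42, 0,
  56, 28, 0, -7, 28, 28, 28, 28, 28, 0, 0, 42, 42, 42, 42, 42], [-32, 35, 14, 0, 56, -28, 0, -21,
  28, 28, 28, 28, 28, 0, 0, 56, 56, 56, 56, 56], [-32, 56, 56, 0, 0, 56, 0, 0, 56, 56, 56, 56, 56]]

/-- pieces of tool 82 -/
def P82 : List (List ℤ) :=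
  [[-32, 28, 28, 28, 28, 28, 0, 0, 56, 0, 56, 56, 56, 0, 0, 28, 28, 28, 28, 28], [-32, 28, 28, 28,
  28, 28, 0, 0, 63, 14, 56, 84, 56, 7, 0, 42, 42, 42, 42, 42, 0, 0, -7], [-32, 28, 28, 28, 28, 28,
  0, 0, 77, 42, 56, 140, 56, 21, 0, 56, 56, 56, 56, 56, 0, 0, -21], [-32, 56, 56, 56, 56, 56, 0, 0,
  0, 0, 56, 0, 56]]

/-- pieces of tool 83 -/
def P83 : List (List ℤ) :=
  [[-32, 28, 28, 28, 28, 28, 0, 0, 56, 0, 56, 56, 56, 0, 0, 28, 28, 28, 28, 28], [-32, 42, 42, 42,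
  42, 42, 0, 0, 63, 14, 56, 84, 56, 7, 0, 28, 28, 28, 28, 28, 0, 0, -7], [-32, 56, 56, 56, 56, 56,
  0, 0, 77, 42, 56, 140, 56, 21, 0, 28, 28, 28, 28, 28, 0, 0, -21], [-32, 0, 0, 0, 0, 0, 0, 0, 0, 0,
  56, 0, 56, 0, 0, 56, 56, 56, 56, 56]]

/-- pieces of tool 84 -/
def P84 : List (List ℤ) :=
  [[-32, 28, 28, 28, 28, 28, 0, 0, 56, 0, 56, 56, 56, 0, 0, 28, 28, 28, 28, 28], [-32, 42, 42, 42,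
  42, 42, 0, 0, 56, 14, 56, 84, 56, 7, 0, 28, 28, 28, 28, 28, 0, 0, -7], [-32, 56, 56, 56, 56, 56,
  0, 0, 56, 42, 56, 140, 56, 21, 0, 28, 28, 28, 28, 28, 0, 0, -21], [-32, 0, 0, 0, 0, 0, 0, 0, 56,
  0, 56, 0, 56, 0, 0, 56, 56, 56, 56, 56]]

/-- pieces of tool 85 -/
def P85 : List (List ℤ) :=
  [[-32, 28, 28, 28, 28, 28, 0, 0, 28, 28, 28, 28, 28, 0, 0, 56, 0, 56, 56, 56], [-32, 42, 42, 42,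
  42, 42, 0, 0, 28, 28, 28, 28, 28, 0, 0, 49, 0, 35, 56, 56], [-32, 56, 56, 56, 56, 56, 0, 0, 28,
  28, 28, 28, 28, 0, 0, 35, 0, -7, 56, 56], [-32, 0, 0, 0, 0, 0, 0, 0, 56, 56, 56, 56, 56, 0, 0, 56,
  0, 56]]

/-- pieces of tool 86 -/
def P86 : List (List ℤ) :=
  [[-32, 28, 28, 28, 28, 28, 0, 0, 28, 28, 28, 28, 28, 0, 0, 56, 0, 56, 56, 56], [-32, 42, 42, 42,
  42, 42, 0, 0, 28, 28, 28, 28, 28, 0, 0, 56, 14, 77, 84, 56, 7, 0, -7], [-32, 56, 56, 56, 56, 56,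
  0, 0, 28, 28, 28, 28, 28, 0, 0, 56, 42, 119, 140, 56, 21, 0, -21], [-32, 0, 0, 0, 0, 0, 0, 0, 56,
  56, 56, 56, 56, 0, 0, 56, 0, 0, 0, 56]]

/-- pieces of tool 87 -/
def P87 : List (List ℤ) :=
  [[-32, 28, 28, 28, 28, 28, 0, 0, 28, 28, 28, 28, 28, 0, 0, 56, 56, 0, 56, 56], [-32, 42, 42, 42,
  42, 42, 0, 0, 28, 28, 28, 28, 28, 0, 0, 49, 42, 0, 56, 56], [-32, 56, 56, 56, 56, 56, 0, 0, 28,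
  28, 28, 28, 28, 0, 0, 35, 14, 0, 56, 56], [-32, 0, 0, 0, 0, 0, 0, 0, 56, 56, 56, 56, 56, 0, 0, 56,
  56]]

/-- pieces of tool 88 -/
def P88 : List (List ℤ) :=
  [[-32, 28, 28, 28, 28, 28, 0, 0, 28, 28, 28, 28, 28, 0, 0, 56, 56, 0, 56, 56], [-32, 42, 42, 42,
  42, 42, 0, 0, 28, 28, 28, 28, 28, 0, 0, 56, 56, 21, 84, 56, 7, 0, -7], [-32, 56, 56, 56, 56, 56,
  0, 0, 28, 28, 28, 28, 28, 0, 0, 56, 56, 63, 140, 56, 21, 0, -21], [-32, 0, 0, 0, 0, 0, 0, 0, 56,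
  56, 56, 56, 56, 0, 0, 56, 56, 0, 0, 56]]

/-- pieces of tool 89 -/
def P89 : List (List ℤ) :=
  [[-32, 28, 28, 28, 28, 28, 0, 0, 28, 28, 28, 28, 28, 0, 0, 56, 0, 56, 56, 56], [-32, 28, 28, 28,
  28, 28, 0, 0, 42, 42, 42, 42, 42, 0, 0, 56, 14, 56, 84, 56, 7, 0, -7], [-32, 28, 28, 28, 28, 28,
  0, 0, 56, 56, 56, 56, 56, 0, 0, 56, 42, 56, 140, 56, 21, 0, -21], [-32, 56, 56, 56, 56, 56, 0, 0,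
  0, 0, 0, 0, 0, 0, 0, 56, 0, 56, 0, 56]]

/-- pieces of tool 90 -/
def P90 : List (List ℤ) :=
  [[-32, 28, 28, 28, 28, 28, 0, 0, 28, 28, 28, 28, 28, 0, 0, 56, 56, 0, 56, 56], [-32, 28, 28, 28,
  28, 28, 0, 0, 42, 42, 42, 42, 42, 0, 0, 56, 42, 0, 56, 56], [-32, 28, 28, 28, 28, 28, 0, 0, 56,
  56, 56, 56, 56, 0, 0, 56, 14, 0, 56, 56], [-32, 56, 56, 56, 56, 56, 0, 0, 0, 0, 0, 0, 0, 0, 0, 0,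
  56]]

/-- pieces of tool 91 -/
def P91 : List (List ℤ) :=
  [[-32, 28, 28, 28, 28, 28, 0, 0, 28, 28, 28, 28, 28, 0, 0, 56, 56, 0, 56, 56], [-32, 28, 28, 28,
  28, 28, 0, 0, 42, 42, 42, 42, 42, 0, 0, 63, 56, 21, 84, 56, 7, 0, -7], [-32, 28, 28, 28, 28, 28,
  0, 0, 56, 56, 56, 56, 56, 0, 0, 77, 56, 63, 140, 56, 21, 0, -21], [-32, 56, 56, 56, 56, 56, 0, 0,
  0, 0, 0, 0, 0, 0, 0, 0, 56, 0, 0, 56]]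

/-- pieces of tool 92 -/
def P92 : List (List ℤ) :=
  [[-32, 28, 28, 28, 28, 28, 0, 0, 28, 28, 28, 28, 28, 0, 0, 56, 56, 0, 56, 56], [-32, 28, 28, 28,
  28, 28, 0, 0, 42, 42, 42, 42, 42, 0, 0, 56, 56, 21, 84, 56, 7, 0, -7], [-32, 28, 28, 28, 28, 28,
  0, 0, 56, 56, 56, 56, 56, 0, 0, 56, 56, 63, 140, 56, 21, 0, -21], [-32, 56, 56, 56, 56, 56, 0, 0,
  0, 0, 0, 0, 0, 0, 0, 56, 56, 0, 0, 56]]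

/-- pieces of tool 93 -/
def P93 : List (List ℤ) :=
  [[-24, 42, 0, 42, 42, 42, 0, 0, 21, 21, 21, 21, 21, 0, 0, 21, 21, 21, 21, 21], [-24, 35, 0, 42,
  42, 42, 0, 0, 35, 35, 35, 35, 35, 0, 0, 21, 21, 21, 21, 21], [-24, 21, 0, 42, 42, 42, 0, 0, 42,
  42, 42, 42, 42, 0, 0, 21, 21, 21, 21, 21], [-24, 42, 0, 0, 0, 0, 0, 0, 0, 0, 0, 0, 0, 0, 0, 42,
  42, 42, 42, 42]]

/-- pieces of tool 94 -/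
def P94 : List (List ℤ) :=
  [[-24, 42, 0, 42, 42, 42, 0, 0, 21, 21, 21, 21, 21, 0, 0, 21, 21, 21, 21, 21], [-24, 42, 0, 21,
  42, 42, 0, 0, 35, 35, 35, 35, 35, 0, 0, 21, 21, 21, 21, 21], [-24, 42, 0, -21, 42, 42, 0, 0, 42,
  42, 42, 42, 42, 0, 0, 21, 21, 21, 21, 21], [-24, 0, 0, 42, 0, 0, 0, 0, 0, 0, 0, 0, 0, 0, 0, 42,
  42, 42, 42, 42]]

/-- pieces of tool 95 -/
def P95 : List (List ℤ) :=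
  [[-24, 42, 0, 42, 42, 42, 0, 0, 21, 21, 21, 21, 21, 0, 0, 21, 21, 21, 21, 21], [-24, 35, 0, 21,
  42, 14, 0, -7, 35, 35, 35, 35, 35, 0, 0, 21, 21, 21, 21, 21], [-24, 21, 0, -21, 42, -42, 0, -21,
  42, 42, 42, 42, 42, 0, 0, 21, 21, 21, 21, 21], [-24, 42, 0, 42, 0, 42, 0, 0, 0, 0, 0, 0, 0, 0, 0,
  42, 42, 42, 42, 42]]

/-- pieces of tool 96 -/
def P96 : List (List ℤ) :=
  [[-24, 42, 42, 0, 42, 42, 0, 0, 21, 21, 21, 21, 21, 0, 0, 21, 21, 21, 21, 21], [-24, 35, 28, 0,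
  42, 42, 0, 0, 35, 35, 35, 35, 35, 0, 0, 21, 21, 21, 21, 21], [-24, 21, 0, 0, 42, 42, 0, 0, 42, 42,
  42, 42, 42, 0, 0, 21, 21, 21, 21, 21], [-24, 42, 42, 0, 0, 0, 0, 0, 0, 0, 0, 0, 0, 0, 0, 42, 42,
  42, 42, 42]]

/-- pieces of tool 97 -/
def P97 : List (List ℤ) :=
  [[-24, 42, 0, 42, 42, 42, 0, 0, 21, 21, 21, 21, 21, 0, 0, 21, 21, 21, 21, 21], [-24, 35, 0, 21,
  42, 42, 0, 0, 21, 21, 21, 21, 21, 0, 0, 35, 35, 35, 35, 35], [-24, 21, 0, -21, 42, 42, 0, 0, 21,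
  21, 21, 21, 21, 0, 0, 42, 42, 42, 42, 42], [-24, 42, 0, 42, 0, 0, 0, 0, 42, 42, 42, 42, 42]]

/-- pieces of tool 98 -/
def P98 : List (List ℤ) :=
  [[-24, 42, 0, 42, 42, 42, 0, 0, 21, 21, 21, 21, 21, 0, 0, 21, 21, 21, 21, 21], [-24, 35, 0, 42,
  42, 14, 0, -7, 21, 21, 21, 21, 21, 0, 0, 35, 35, 35, 35, 35], [-24, 21, 0, 42, 42, -42, 0, -21,
  21, 21, 21, 21, 21, 0, 0, 42, 42, 42, 42, 42], [-24, 42, 0, 0, 0, 42, 0, 0, 42, 42, 42, 42, 42]]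

/-- pieces of tool 99 -/
def P99 : List (List ℤ) :=
  [[-24, 42, 0, 42, 42, 42, 0, 0, 21, 21, 21, 21, 21, 0, 0, 21, 21, 21, 21, 21], [-24, 35, 0, 21,
  42, 14, 0, -7, 21, 21, 21, 21, 21, 0, 0, 35, 35, 35, 35, 35], [-24, 21, 0, -21, 42, -42, 0, -21,
  21, 21, 21, 21, 21, 0, 0, 42, 42, 42, 42, 42], [-24, 42, 0, 42, 0, 42, 0, 0, 42, 42, 42, 42, 42]]

/-- pieces of tool 100 -/
def P100 : List (List ℤ) :=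
  [[-24, 42, 42, 0, 42, 42, 0, 0, 21, 21, 21, 21, 21, 0, 0, 21, 21, 21, 21, 21], [-24, 35, 42, 0,
  42, 42, 0, 0, 21, 21, 21, 21, 21, 0, 0, 35, 35, 35, 35, 35], [-24, 21, 42, 0, 42, 42, 0, 0, 21,
  21, 21, 21, 21, 0, 0, 42, 42, 42, 42, 42], [-24, 42, 0, 0, 0, 0, 0, 0, 42, 42, 42, 42, 42]]

/-- pieces of tool 101 -/
def P101 : List (List ℤ) :=
  [[-24, 42, 42, 0, 42, 42, 0, 0, 21, 21, 21, 21, 21, 0, 0, 21, 21, 21, 21, 21], [-24, 42, 28, 0,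
  42, 42, 0, 0, 21, 21, 21, 21, 21, 0, 0, 35, 35, 35, 35, 35], [-24, 42, 0, 0, 42, 42, 0, 0, 21, 21,
  21, 21, 21, 0, 0, 42, 42, 42, 42, 42], [-24, 0, 42, 0, 0, 0, 0, 0, 42, 42, 42, 42, 42]]

/-- pieces of tool 102 -/
def P102 : List (List ℤ) :=
  [[-24, 42, 42, 0, 42, 42, 0, 0, 21, 21, 21, 21, 21, 0, 0, 21, 21, 21, 21, 21], [-24, 35, 28, 0,
  42, 14, 0, -7, 21, 21, 21, 21, 21, 0, 0, 35, 35, 35, 35, 35], [-24, 21, 0, 0, 42, -42, 0, -21, 21,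
  21, 21, 21, 21, 0, 0, 42, 42, 42, 42, 42], [-24, 42, 42, 0, 0, 42, 0, 0, 42, 42, 42, 42, 42]]

/-- pieces of tool 103 -/
def P103 : List (List ℤ) :=
  [[-24, 21, 21, 21, 21, 21, 0, 0, 42, 0, 42, 42, 42, 0, 0, 21, 21, 21, 21, 21], [-24, 21, 21, 21,
  21, 21, 0, 0, 42, 14, 42, 70, 42, 7, 0, 35, 35, 35, 35, 35, 0, 0, -7], [-24, 21, 21, 21, 21, 21,
  0, 0, 42, 42, 42, 126, 42, 21, 0, 42, 42, 42, 42, 42, 0, 0, -21], [-24, 42, 42, 42, 42, 42, 0, 0,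
  42, 0, 42, 0, 42]]

/-- pieces of tool 104 -/
def P104 : List (List ℤ) :=
  [[-24, 21, 21, 21, 21, 21, 0, 0, 42, 42, 0, 42, 42, 0, 0, 21, 21, 21, 21, 21], [-24, 21, 21, 21,
  21, 21, 0, 0, 42, 42, 21, 70, 42, 7, 0, 35, 35, 35, 35, 35, 0, 0, -7], [-24, 21, 21, 21, 21, 21,
  0, 0, 42, 42, 63, 126, 42, 21, 0, 42, 42, 42, 42, 42, 0, 0, -21], [-24, 42, 42, 42, 42, 42, 0, 0,
  42, 42, 0, 0, 42]]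

/-- pieces of tool 105 -/
def P105 : List (List ℤ) :=
  [[-24, 21, 21, 21, 21, 21, 0, 0, 42, 0, 42, 42, 42, 0, 0, 21, 21, 21, 21, 21], [-24, 35, 35, 35,
  35, 35, 0, 0, 35, 0, 42, 42, 42, 0, 0, 21, 21, 21, 21, 21], [-24, 42, 42, 42, 42, 42, 0, 0, 21, 0,
  42, 42, 42, 0, 0, 21, 21, 21, 21, 21], [-24, 0, 0, 0, 0, 0, 0, 0, 42, 0, 0, 0, 0, 0, 0, 42, 42,
  42, 42, 42]]

/-- pieces of tool 106 -/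
def P106 : List (List ℤ) :=
  [[-24, 21, 21, 21, 21, 21, 0, 0, 42, 0, 42, 42, 42, 0, 0, 21, 21, 21, 21, 21], [-24, 35, 35, 35,
  35, 35, 0, 0, 42, 14, 42, 70, 42, 7, 0, 21, 21, 21, 21, 21, 0, 0, -7], [-24, 42, 42, 42, 42, 42,
  0, 0, 42, 42, 42, 126, 42, 21, 0, 21, 21, 21, 21, 21, 0, 0, -21], [-24, 0, 0, 0, 0, 0, 0, 0, 42,
  0, 42, 0, 42, 0, 0, 42, 42, 42, 42, 42]]

/-- pieces of tool 107 -/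
def P107 : List (List ℤ) :=
  [[-24, 21, 21, 21, 21, 21, 0, 0, 42, 42, 0, 42, 42, 0, 0, 21, 21, 21, 21, 21], [-24, 35, 35, 35,
  35, 35, 0, 0, 42, 42, 21, 70, 42, 7, 0, 21, 21, 21, 21, 21, 0, 0, -7], [-24, 42, 42, 42, 42, 42,
  0, 0, 42, 42, 63, 126, 42, 21, 0, 21, 21, 21, 21, 21, 0, 0, -21], [-24, 0, 0, 0, 0, 0, 0, 0, 42,
  42, 0, 0, 42, 0, 0, 42, 42, 42, 42, 42]]

/-- pieces of tool 108 -/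
def P108 : List (List ℤ) :=
  [[-24, 21, 21, 21, 21, 21, 0, 0, 21, 21, 21, 21, 21, 0, 0, 42, 0, 42, 42, 42], [-24, 35, 35, 35,
  35, 35, 0, 0, 21, 21, 21, 21, 21, 0, 0, 35, 0, 42, 42, 42], [-24, 42, 42, 42, 42, 42, 0, 0, 21,
  21, 21, 21, 21, 0, 0, 21, 0, 42, 42, 42], [-24, 0, 0, 0, 0, 0, 0, 0, 42, 42, 42, 42, 42, 0, 0,
  42]]

/-- pieces of tool 109 -/
def P109 : List (List ℤ) :=
  [[-24, 21, 21, 21, 21, 21, 0, 0, 21, 21, 21, 21, 21, 0, 0, 42, 0, 42, 42, 42], [-24, 35, 35, 35,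
  35, 35, 0, 0, 21, 21, 21, 21, 21, 0, 0, 49, 14, 42, 70, 42, 7, 0, -7], [-24, 42, 42, 42, 42, 42,
  0, 0, 21, 21, 21, 21, 21, 0, 0, 63, 42, 42, 126, 42, 21, 0, -21], [-24, 0, 0, 0, 0, 0, 0, 0, 42,
  42, 42, 42, 42, 0, 0, 0, 0, 42, 0, 42]]

/-- pieces of tool 110 -/
def P110 : List (List ℤ) :=
  [[-24, 21, 21, 21, 21, 21, 0, 0, 21, 21, 21, 21, 21, 0, 0, 42, 42, 0, 42, 42], [-24, 35, 35, 35,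
  35, 35, 0, 0, 21, 21, 21, 21, 21, 0, 0, 35, 28, 0, 42, 42], [-24, 42, 42, 42, 42, 42, 0, 0, 21,
  21, 21, 21, 21, 0, 0, 21, 0, 0, 42, 42], [-24, 0, 0, 0, 0, 0, 0, 0, 42, 42, 42, 42, 42, 0, 0, 42,
  42]]

/-- pieces of tool 111 -/
def P111 : List (List ℤ) :=
  [[-24, 21, 21, 21, 21, 21, 0, 0, 21, 21, 21, 21, 21, 0, 0, 42, 42, 0, 42, 42], [-24, 35, 35, 35,
  35, 35, 0, 0, 21, 21, 21, 21, 21, 0, 0, 42, 56, 21, 70, 42, 7, 0, -7], [-24, 42, 42, 42, 42, 42,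
  0, 0, 21, 21, 21, 21, 21, 0, 0, 42, 84, 63, 126, 42, 21, 0, -21], [-24, 0, 0, 0, 0, 0, 0, 0, 42,
  42, 42, 42, 42, 0, 0, 42, 0, 0, 0, 42]]

/-- pieces of tool 112 -/
def P112 : List (List ℤ) :=
  [[-24, 21, 21, 21, 21, 21, 0, 0, 21, 21, 21, 21, 21, 0, 0, 42, 42, 0, 42, 42], [-24, 35, 35, 35,
  35, 35, 0, 0, 21, 21, 21, 21, 21, 0, 0, 42, 42, 21, 70, 42, 7, 0, -7], [-24, 42, 42, 42, 42, 42,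
  0, 0, 21, 21, 21, 21, 21, 0, 0, 42, 42, 63, 126, 42, 21, 0, -21], [-24, 0, 0, 0, 0, 0, 0, 0, 42,
  42, 42, 42, 42, 0, 0, 42, 42, 0, 0, 42]]

/-- pieces of tool 113 -/
def P113 : List (List ℤ) :=
  [[-24, 21, 21, 21, 21, 21, 0, 0, 21, 21, 21, 21, 21, 0, 0, 42, 0, 42, 42, 42], [-24, 21, 21, 21,
  21, 21, 0, 0, 35, 35, 35, 35, 35, 0, 0, 42, 0, 21, 42, 42], [-24, 21, 21, 21, 21, 21, 0, 0, 42,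
  42, 42, 42, 42, 0, 0, 42, 0, -21, 42, 42], [-24, 42, 42, 42, 42, 42, 0, 0, 0, 0, 0, 0, 0, 0, 0, 0,
  0, 42]]

/-- pieces of tool 114 -/
def P114 : List (List ℤ) :=
  [[-24, 21, 21, 21, 21, 21, 0, 0, 21, 21, 21, 21, 21, 0, 0, 42, 0, 42, 42, 42], [-24, 21, 21, 21,
  21, 21, 0, 0, 35, 35, 35, 35, 35, 0, 0, 49, 14, 63, 70, 42, 7, 0, -7], [-24, 21, 21, 21, 21, 21,
  0, 0, 42, 42, 42, 42, 42, 0, 0, 63, 42, 105, 126, 42, 21, 0, -21], [-24, 42, 42, 42, 42, 42, 0, 0,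
  0, 0, 0, 0, 0, 0, 0, 0, 0, 0, 0, 42]]

/-- pieces of tool 115 -/
def P115 : List (List ℤ) :=
  [[-24, 21, 21, 21, 21, 21, 0, 0, 21, 21, 21, 21, 21, 0, 0, 42, 0, 42, 42, 42], [-24, 21, 21, 21,
  21, 21, 0, 0, 35, 35, 35, 35, 35, 0, 0, 42, 14, 63, 70, 42, 7, 0, -7], [-24, 21, 21, 21, 21, 21,
  0, 0, 42, 42, 42, 42, 42, 0, 0, 42, 42, 105, 126, 42, 21, 0, -21], [-24, 42, 42, 42, 42, 42, 0, 0,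
  0, 0, 0, 0, 0, 0, 0, 42, 0, 0, 0, 42]]

/-- pieces of tool 116 -/
def P116 : List (List ℤ) :=
  [[-24, 21, 21, 21, 21, 21, 0, 0, 21, 21, 21, 21, 21, 0, 0, 42, 0, 42, 42, 42], [-24, 21, 21, 21,
  21, 21, 0, 0, 35, 35, 35, 35, 35, 0, 0, 49, 14, 42, 70, 42, 7, 0, -7], [-24, 21, 21, 21, 21, 21,
  0, 0, 42, 42, 42, 42, 42, 0, 0, 63, 42, 42, 126, 42, 21, 0, -21], [-24, 42, 42, 42, 42, 42, 0, 0,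
  0, 0, 0, 0, 0, 0, 0, 0, 0, 42, 0, 42]]

/-- pieces of tool 117 -/
def P117 : List (List ℤ) :=
  [[-24, 21, 21, 21, 21, 21, 0, 0, 21, 21, 21, 21, 21, 0, 0, 42, 0, 42, 42, 42], [-24, 21, 21, 21,
  21, 21, 0, 0, 35, 35, 35, 35, 35, 0, 0, 42, 14, 42, 70, 42, 7, 0, -7], [-24, 21, 21, 21, 21, 21,
  0, 0, 42, 42, 42, 42, 42, 0, 0, 42, 42, 42, 126, 42, 21, 0, -21], [-24, 42, 42, 42, 42, 42, 0, 0,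
  0, 0, 0, 0, 0, 0, 0, 42, 0, 42, 0, 42]]

/-- pieces of tool 118 -/
def P118 : List (List ℤ) :=
  [[-24, 21, 21, 21, 21, 21, 0, 0, 21, 21, 21, 21, 21, 0, 0, 42, 42, 0, 42, 42], [-24, 21, 21, 21,
  21, 21, 0, 0, 35, 35, 35, 35, 35, 0, 0, 42, 28, 0, 42, 42], [-24, 21, 21, 21, 21, 21, 0, 0, 42,
  42, 42, 42, 42, 0, 0, 42, 0, 0, 42, 42], [-24, 42, 42, 42, 42, 42, 0, 0, 0, 0, 0, 0, 0, 0, 0, 0,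
  42]]

/-- pieces of tool 119 -/
def P119 : List (List ℤ) :=
  [[-24, 21, 21, 21, 21, 21, 0, 0, 21, 21, 21, 21, 21, 0, 0, 42, 42, 0, 42, 42], [-24, 21, 21, 21,
  21, 21, 0, 0, 35, 35, 35, 35, 35, 0, 0, 35, 28, 0, 42, 42], [-24, 21, 21, 21, 21, 21, 0, 0, 42,
  42, 42, 42, 42, 0, 0, 21, 0, 0, 42, 42], [-24, 42, 42, 42, 42, 42, 0, 0, 0, 0, 0, 0, 0, 0, 0, 42,
  42]]

/-- pieces of tool 120 -/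
def P120 : List (List ℤ) :=
  [[-4, 0, 0, 0, 0, 0, 0, 0, 0, 7, 7, 7, 7, 0, 0, 7, 7, 7, 7, 7], [-4, 7, 14, 21, 28, 28, 7, 7, 7,
  7, 7, 7, 7, 0, 0, 7, 7, 7, 7, 7, 0, 0, -7]]

/-- pieces of tool 121 -/
def P121 : List (List ℤ) :=
  [[-4, 0, 0, 0, 0, 0, 0, 0, 7, 0, 7, 7, 7, 0, 0, 7, 7, 7, 7, 7], [-4, 7, 14, 21, 28, 28, 7, 7, 7,
  7, 7, 7, 7, 0, 0, 7, 7, 7, 7, 7, 0, 0, -7]]

/-- pieces of tool 122 -/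
def P122 : List (List ℤ) :=
  [[-4, 0, 0, 0, 0, 0, 0, 0, 7, 7, 0, 7, 7, 0, 0, 7, 7, 7, 7, 7], [-4, 7, 14, 21, 28, 28, 7, 7, 7,
  7, 7, 7, 7, 0, 0, 7, 7, 7, 7, 7, 0, 0, -7]]

/-- pieces of tool 123 -/
def P123 : List (List ℤ) :=
  [[-4, 0, 0, 0, 0, 0, 0, 0, 7, 7, 7, 7, 7, 0, 0, 0, 7, 7, 7, 7], [-4, 7, 14, 21, 28, 28, 7, 7, 7,
  7, 7, 7, 7, 0, 0, 7, 7, 7, 7, 7, 0, 0, -7]]

/-- pieces of tool 124 -/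
def P124 : List (List ℤ) :=
  [[-4, 0, 0, 0, 0, 0, 0, 0, 7, 7, 7, 7, 7, 0, 0, 7, 0, 7, 7, 7], [-4, 7, 14, 21, 28, 28, 7, 7, 7,
  7, 7, 7, 7, 0, 0, 7, 7, 7, 7, 7, 0, 0, -7]]

/-- pieces of tool 125 -/
def P125 : List (List ℤ) :=
  [[-4, 0, 0, 0, 0, 0, 0, 0, 7, 7, 7, 7, 7, 0, 0, 7, 7, 0, 7, 7], [-4, 7, 14, 21, 28, 28, 7, 7, 7,
  7, 7, 7, 7, 0, 0, 7, 7, 7, 7, 7, 0, 0, -7]]

/-- pieces of tool 126 -/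
def P126 : List (List ℤ) :=
  [[-4, 7, 0, 7, 7, 7, 0, 0, 7, 0, 7, 7, 7, 0, 0, 7, 0, 7, 7, 7], [-4, 7, 7, 7, 7, 7, 0, 0, 7, 7, 7,
  7, 7, 0, 0, 7, 7, 7, 7, 7, 0, 0, -7]]

/-- pieces of tool 127 -/
def P127 : List (List ℤ) :=
  [[1, 0, 0, 0, 0, -20], [8, -140, -140, -140, -140, -140], [-292, 0, 0, 0, 0, 0, 0, 0, 280, 280,
  280, 280, 280, 0, 0, 280, 280, 280, 280, 280], [-306, 0, 0, 0, 0, 0, 0, 0, 280, 280, 280, 280,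
  280, 0, 0, 420, 420, 420, 420, 420], [-334, 0, 0, 0, 0, 0, 0, 0, 280, 280, 280, 280, 280, 0, 0,
  560, 560, 560, 560, 560], [-306, 0, 0, 0, 0, 0, 0, 0, 420, 420, 420, 420, 420, 0, 0, 280, 280,
  280, 280, 280], [-320, 0, 0, 0, 0, 0, 0, 0, 420, 420, 420, 420, 420, 0, 0, 420, 420, 420, 420,
  420], [-348, 0, 0, 0, 0, 0, 0, 0, 420, 420, 420, 420, 420, 0, 0, 560, 560, 560, 560, 560], [-334,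
  0, 0, 0, 0, 0, 0, 0, 560, 560, 560, 560, 560, 0, 0, 280, 280, 280, 280, 280], [-348, 0, 0, 0, 0,
  0, 0, 0, 560, 560, 560, 560, 560, 0, 0, 420, 420, 420, 420, 420], [-376, 0, 0, 0, 0, 0, 0, 0, 560,
  560, 560, 560, 560, 0, 0, 560, 560, 560, 560, 560], [-56, 56, 56, 56, 56, 56, 0, 0, 56, 56, 56,
  56, 56, 0, 0, 56, 56, 56, 56, 56], [-60, 28, 28, 28, 28, 28, 0, 0, 56, 56, 56, 56, 56, 0, 0, 84,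
  84, 84, 84, 84], [-68, -28, -28, -28, -28, -28, 0, 0, 56, 56, 56, 56, 56, 0, 0, 112, 112, 112,
  112, 112], [-60, 28, 28, 28, 28, 28, 0, 0, 84, 84, 84, 84, 84, 0, 0, 56, 56, 56, 56, 56], [-64, 0,
  0, 0, 0, 0, 0, 0, 84, 84, 84, 84, 84, 0, 0, 84, 84, 84, 84, 84], [-72, -56, -56, -56, -56, -56, 0,
  0, 84, 84, 84, 84, 84, 0, 0, 112, 112, 112, 112, 112], [-68, -28, -28, -28, -28, -28, 0, 0, 112,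
  112, 112, 112, 112, 0, 0, 56, 56, 56, 56, 56], [-72, -56, -56, -56, -56, -56, 0, 0, 112, 112, 112,
  112, 112, 0, 0, 84, 84, 84, 84, 84], [-80, -112, -112, -112, -112, -112, 0, 0, 112, 112, 112, 112,
  112, 0, 0, 112, 112, 112, 112, 112]]

/-- pieces of tool 128 -/
def P128 : List (List ℤ) :=
  [[1, 0, 0, 0, 0, -20], [8, -140, -140, -140, -140, -140], [-438, 0, 0, 0, 0, 0, 0, 0, 420, 420,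
  420, 420, 420, 0, 0, 420, 420, 420, 420, 420], [-466, 0, 0, 0, 0, 0, 0, 0, 420, 420, 420, 420,
  420, 0, 0, 700, 700, 700, 700, 700], [-522, 0, 0, 0, 0, 0, 0, 0, 420, 420, 420, 420, 420, 0, 0,
  840, 840, 840, 840, 840], [-466, 0, 0, 0, 0, 0, 0, 0, 700, 700, 700, 700, 700, 0, 0, 420, 420,
  420, 420, 420], [-494, 0, 0, 0, 0, 0, 0, 0, 700, 700, 700, 700, 700, 0, 0, 700, 700, 700, 700,
  700], [-550, 0, 0, 0, 0, 0, 0, 0, 700, 700, 700, 700, 700, 0, 0, 840, 840, 840, 840, 840], [-522,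
  0, 0, 0, 0, 0, 0, 0, 840, 840, 840, 840, 840, 0, 0, 420, 420, 420, 420, 420], [-550, 0, 0, 0, 0,
  0, 0, 0, 840, 840, 840, 840, 840, 0, 0, 700, 700, 700, 700, 700], [-606, 0, 0, 0, 0, 0, 0, 0, 840,
  840, 840, 840, 840, 0, 0, 840, 840, 840, 840, 840], [-42, 42, 42, 42, 42, 42, 0, 0, 42, 42, 42,
  42, 42, 0, 0, 42, 42, 42, 42, 42], [-46, 14, 14, 14, 14, 14, 0, 0, 42, 42, 42, 42, 42, 0, 0, 70,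
  70, 70, 70, 70], [-54, -42, -42, -42, -42, -42, 0, 0, 42, 42, 42, 42, 42, 0, 0, 84, 84, 84, 84,
  84], [-46, 14, 14, 14, 14, 14, 0, 0, 70, 70, 70, 70, 70, 0, 0, 42, 42, 42, 42, 42], [-50, -14,
  -14, -14, -14, -14, 0, 0, 70, 70, 70, 70, 70, 0, 0, 70, 70, 70, 70, 70], [-58, -70, -70, -70, -70,
  -70, 0, 0, 70, 70, 70, 70, 70, 0, 0, 84, 84, 84, 84, 84], [-54, -42, -42, -42, -42, -42, 0, 0, 84,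
  84, 84, 84, 84, 0, 0, 42, 42, 42, 42, 42], [-58, -70, -70, -70, -70, -70, 0, 0, 84, 84, 84, 84,
  84, 0, 0, 70, 70, 70, 70, 70], [-66, -126, -126, -126, -126, -126, 0, 0, 84, 84, 84, 84, 84, 0, 0,
  84, 84, 84, 84, 84]]

/-- pieces of tool 129 -/
def P129 : List (List ℤ) :=
  [[1, 0, 0, 0, 0, -16], [12, -112, -112, -112, -112, -112], [-228, 0, 0, 0, 0, 0, 0, 0, 224, 224,
  224, 224, 224, 0, 0, 224, 224, 224, 224, 224], [-242, 0, 0, 0, 0, 0, 0, 0, 224, 224, 224, 224,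
  224, 0, 0, 336, 336, 336, 336, 336], [-270, 0, 0, 0, 0, 0, 0, 0, 224, 224, 224, 224, 224, 0, 0,
  448, 448, 448, 448, 448], [-242, 0, 0, 0, 0, 0, 0, 0, 336, 336, 336, 336, 336, 0, 0, 224, 224,
  224, 224, 224], [-256, 0, 0, 0, 0, 0, 0, 0, 336, 336, 336, 336, 336, 0, 0, 336, 336, 336, 336,
  336], [-284, 0, 0, 0, 0, 0, 0, 0, 336, 336, 336, 336, 336, 0, 0, 448, 448, 448, 448, 448], [-270,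
  0, 0, 0, 0, 0, 0, 0, 448, 448, 448, 448, 448, 0, 0, 224, 224, 224, 224, 224], [-284, 0, 0, 0, 0,
  0, 0, 0, 448, 448, 448, 448, 448, 0, 0, 336, 336, 336, 336, 336], [-312, 0, 0, 0, 0, 0, 0, 0, 448,
  448, 448, 448, 448, 0, 0, 448, 448, 448, 448, 448], [-56, 56, 56, 56, 56, 56, 0, 0, 56, 56, 56,
  56, 56, 0, 0, 56, 56, 56, 56, 56], [-60, 28, 28, 28, 28, 28, 0, 0, 56, 56, 56, 56, 56, 0, 0, 84,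
  84, 84, 84, 84], [-68, -28, -28, -28, -28, -28, 0, 0, 56, 56, 56, 56, 56, 0, 0, 112, 112, 112,
  112, 112], [-60, 28, 28, 28, 28, 28, 0, 0, 84, 84, 84, 84, 84, 0, 0, 56, 56, 56, 56, 56], [-64, 0,
  0, 0, 0, 0, 0, 0, 84, 84, 84, 84, 84, 0, 0, 84, 84, 84, 84, 84], [-72, -56, -56, -56, -56, -56, 0,
  0, 84, 84, 84, 84, 84, 0, 0, 112, 112, 112, 112, 112], [-68, -28, -28, -28, -28, -28, 0, 0, 112,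
  112, 112, 112, 112, 0, 0, 56, 56, 56, 56, 56], [-72, -56, -56, -56, -56, -56, 0, 0, 112, 112, 112,
  112, 112, 0, 0, 84, 84, 84, 84, 84], [-80, -112, -112, -112, -112, -112, 0, 0, 112, 112, 112, 112,
  112, 0, 0, 112, 112, 112, 112, 112]]

/-- pieces of tool 130 -/
def P130 : List (List ℤ) :=
  [[1, 0, 0, 0, 0, -16], [12, -112, -112, -112, -112, -112], [-342, 0, 0, 0, 0, 0, 0, 0, 336, 336,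
  336, 336, 336, 0, 0, 336, 336, 336, 336, 336], [-370, 0, 0, 0, 0, 0, 0, 0, 336, 336, 336, 336,
  336, 0, 0, 560, 560, 560, 560, 560], [-426, 0, 0, 0, 0, 0, 0, 0, 336, 336, 336, 336, 336, 0, 0,
  672, 672, 672, 672, 672], [-370, 0, 0, 0, 0, 0, 0, 0, 560, 560, 560, 560, 560, 0, 0, 336, 336,
  336, 336, 336], [-398, 0, 0, 0, 0, 0, 0, 0, 560, 560, 560, 560, 560, 0, 0, 560, 560, 560, 560,
  560], [-454, 0, 0, 0, 0, 0, 0, 0, 560, 560, 560, 560, 560, 0, 0, 672, 672, 672, 672, 672], [-426,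
  0, 0, 0, 0, 0, 0, 0, 672, 672, 672, 672, 672, 0, 0, 336, 336, 336, 336, 336], [-454, 0, 0, 0, 0,
  0, 0, 0, 672, 672, 672, 672, 672, 0, 0, 560, 560, 560, 560, 560], [-510, 0, 0, 0, 0, 0, 0, 0, 672,
  672, 672, 672, 672, 0, 0, 672, 672, 672, 672, 672], [-42, 42, 42, 42, 42, 42, 0, 0, 42, 42, 42,
  42, 42, 0, 0, 42, 42, 42, 42, 42], [-46, 14, 14, 14, 14, 14, 0, 0, 42, 42, 42, 42, 42, 0, 0, 70,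
  70, 70, 70, 70], [-54, -42, -42, -42, -42, -42, 0, 0, 42, 42, 42, 42, 42, 0, 0, 84, 84, 84, 84,
  84], [-46, 14, 14, 14, 14, 14, 0, 0, 70, 70, 70, 70, 70, 0, 0, 42, 42, 42, 42, 42], [-50, -14,
  -14, -14, -14, -14, 0, 0, 70, 70, 70, 70, 70, 0, 0, 70, 70, 70, 70, 70], [-58, -70, -70, -70, -70,
  -70, 0, 0, 70, 70, 70, 70, 70, 0, 0, 84, 84, 84, 84, 84], [-54, -42, -42, -42, -42, -42, 0, 0, 84,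
  84, 84, 84, 84, 0, 0, 42, 42, 42, 42, 42], [-58, -70, -70, -70, -70, -70, 0, 0, 84, 84, 84, 84,
  84, 0, 0, 70, 70, 70, 70, 70], [-66, -126, -126, -126, -126, -126, 0, 0, 84, 84, 84, 84, 84, 0, 0,
  84, 84, 84, 84, 84]]

/-- pieces of tool 131 -/
def P131 : List (List ℤ) :=
  [[1, 0, 0, 0, 0, -14], [14, -98, -98, -98, -98, -98], [-196, 0, 0, 0, 0, 0, 0, 0, 196, 196, 196,
  196, 196, 0, 0, 196, 196, 196, 196, 196], [-210, 0, 0, 0, 0, 0, 0, 0, 196, 196, 196, 196, 196, 0,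
  0, 294, 294, 294, 294, 294], [-238, 0, 0, 0, 0, 0, 0, 0, 196, 196, 196, 196, 196, 0, 0, 392, 392,
  392, 392, 392], [-210, 0, 0, 0, 0, 0, 0, 0, 294, 294, 294, 294, 294, 0, 0, 196, 196, 196, 196,
  196], [-224, 0, 0, 0, 0, 0, 0, 0, 294, 294, 294, 294, 294, 0, 0, 294, 294, 294, 294, 294], [-252,
  0, 0, 0, 0, 0, 0, 0, 294, 294, 294, 294, 294, 0, 0, 392, 392, 392, 392, 392], [-238, 0, 0, 0, 0,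
  0, 0, 0, 392, 392, 392, 392, 392, 0, 0, 196, 196, 196, 196, 196], [-252, 0, 0, 0, 0, 0, 0, 0, 392,
  392, 392, 392, 392, 0, 0, 294, 294, 294, 294, 294], [-280, 0, 0, 0, 0, 0, 0, 0, 392, 392, 392,
  392, 392, 0, 0, 392, 392, 392, 392, 392], [-56, 56, 56, 56, 56, 56, 0, 0, 56, 56, 56, 56, 56, 0,
  0, 56, 56, 56, 56, 56], [-60, 28, 28, 28, 28, 28, 0, 0, 56, 56, 56, 56, 56, 0, 0, 84, 84, 84, 84,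
  84], [-68, -28, -28, -28, -28, -28, 0, 0, 56, 56, 56, 56, 56, 0, 0, 112, 112, 112, 112, 112],
  [-60, 28, 28, 28, 28, 28, 0, 0, 84, 84, 84, 84, 84, 0, 0, 56, 56, 56, 56, 56], [-64, 0, 0, 0, 0,
  0, 0, 0, 84, 84, 84, 84, 84, 0, 0, 84, 84, 84, 84, 84], [-72, -56, -56, -56, -56, -56, 0, 0, 84,
  84, 84, 84, 84, 0, 0, 112, 112, 112, 112, 112], [-68, -28, -28, -28, -28, -28, 0, 0, 112, 112,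
  112, 112, 112, 0, 0, 56, 56, 56, 56, 56], [-72, -56, -56, -56, -56, -56, 0, 0, 112, 112, 112, 112,
  112, 0, 0, 84, 84, 84, 84, 84], [-80, -112, -112, -112, -112, -112, 0, 0, 112, 112, 112, 112, 112,
  0, 0, 112, 112, 112, 112, 112]]

/-- pieces of tool 132 -/
def P132 : List (List ℤ) :=
  [[1, 0, 0, 0, 0, -14], [14, -98, -98, -98, -98, -98], [-294, 0, 0, 0, 0, 0, 0, 0, 294, 294, 294,
  294, 294, 0, 0, 294, 294, 294, 294, 294], [-322, 0, 0, 0, 0, 0, 0, 0, 294, 294, 294, 294, 294, 0,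
  0, 490, 490, 490, 490, 490], [-378, 0, 0, 0, 0, 0, 0, 0, 294, 294, 294, 294, 294, 0, 0, 588, 588,
  588, 588, 588], [-322, 0, 0, 0, 0, 0, 0, 0, 490, 490, 490, 490, 490, 0, 0, 294, 294, 294, 294,
  294], [-350, 0, 0, 0, 0, 0, 0, 0, 490, 490, 490, 490, 490, 0, 0, 490, 490, 490, 490, 490], [-406,
  0, 0, 0, 0, 0, 0, 0, 490, 490, 490, 490, 490, 0, 0, 588, 588, 588, 588, 588], [-378, 0, 0, 0, 0,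
  0, 0, 0, 588, 588, 588, 588, 588, 0, 0, 294, 294, 294, 294, 294], [-406, 0, 0, 0, 0, 0, 0, 0, 588,
  588, 588, 588, 588, 0, 0, 490, 490, 490, 490, 490], [-462, 0, 0, 0, 0, 0, 0, 0, 588, 588, 588,
  588, 588, 0, 0, 588, 588, 588, 588, 588], [-42, 42, 42, 42, 42, 42, 0, 0, 42, 42, 42, 42, 42, 0,
  0, 42, 42, 42, 42, 42], [-46, 14, 14, 14, 14, 14, 0, 0, 42, 42, 42, 42, 42, 0, 0, 70, 70, 70, 70,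
  70], [-54, -42, -42, -42, -42, -42, 0, 0, 42, 42, 42, 42, 42, 0, 0, 84, 84, 84, 84, 84], [-46, 14,
  14, 14, 14, 14, 0, 0, 70, 70, 70, 70, 70, 0, 0, 42, 42, 42, 42, 42], [-50, -14, -14, -14, -14,
  -14, 0, 0, 70, 70, 70, 70, 70, 0, 0, 70, 70, 70, 70, 70], [-58, -70, -70, -70, -70, -70, 0, 0, 70,
  70, 70, 70, 70, 0, 0, 84, 84, 84, 84, 84], [-54, -42, -42, -42, -42, -42, 0, 0, 84, 84, 84, 84,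
  84, 0, 0, 42, 42, 42, 42, 42], [-58, -70, -70, -70, -70, -70, 0, 0, 84, 84, 84, 84, 84, 0, 0, 70,
  70, 70, 70, 70], [-66, -126, -126, -126, -126, -126, 0, 0, 84, 84, 84, 84, 84, 0, 0, 84, 84, 84,
  84, 84]]

/-- pieces of tool 133 -/
def P133 : List (List ℤ) :=
  [[1, 0, 0, 0, 0, -12], [16, -84, -84, -84, -84, -84], [-164, 0, 0, 0, 0, 0, 0, 0, 168, 168, 168,
  168, 168, 0, 0, 168, 168, 168, 168, 168], [-178, 0, 0, 0, 0, 0, 0, 0, 168, 168, 168, 168, 168, 0,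
  0, 252, 252, 252, 252, 252], [-206, 0, 0, 0, 0, 0, 0, 0, 168, 168, 168, 168, 168, 0, 0, 336, 336,
  336, 336, 336], [-178, 0, 0, 0, 0, 0, 0, 0, 252, 252, 252, 252, 252, 0, 0, 168, 168, 168, 168,
  168], [-192, 0, 0, 0, 0, 0, 0, 0, 252, 252, 252, 252, 252, 0, 0, 252, 252, 252, 252, 252], [-220,
  0, 0, 0, 0, 0, 0, 0, 252, 252, 252, 252, 252, 0, 0, 336, 336, 336, 336, 336], [-206, 0, 0, 0, 0,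
  0, 0, 0, 336, 336, 336, 336, 336, 0, 0, 168, 168, 168, 168, 168], [-220, 0, 0, 0, 0, 0, 0, 0, 336,
  336, 336, 336, 336, 0, 0, 252, 252, 252, 252, 252], [-248, 0, 0, 0, 0, 0, 0, 0, 336, 336, 336,
  336, 336, 0, 0, 336, 336, 336, 336, 336], [-56, 56, 56, 56, 56, 56, 0, 0, 56, 56, 56, 56, 56, 0,
  0, 56, 56, 56, 56, 56], [-60, 28, 28, 28, 28, 28, 0, 0, 56, 56, 56, 56, 56, 0, 0, 84, 84, 84, 84,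
  84], [-68, -28, -28, -28, -28, -28, 0, 0, 56, 56, 56, 56, 56, 0, 0, 112, 112, 112, 112, 112],
  [-60, 28, 28, 28, 28, 28, 0, 0, 84, 84, 84, 84, 84, 0, 0, 56, 56, 56, 56, 56], [-64, 0, 0, 0, 0,
  0, 0, 0, 84, 84, 84, 84, 84, 0, 0, 84, 84, 84, 84, 84], [-72, -56, -56, -56, -56, -56, 0, 0, 84,
  84, 84, 84, 84, 0, 0, 112, 112, 112, 112, 112], [-68, -28, -28, -28, -28, -28, 0, 0, 112, 112,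
  112, 112, 112, 0, 0, 56, 56, 56, 56, 56], [-72, -56, -56, -56, -56, -56, 0, 0, 112, 112, 112, 112,
  112, 0, 0, 84, 84, 84, 84, 84], [-80, -112, -112, -112, -112, -112, 0, 0, 112, 112, 112, 112, 112,
  0, 0, 112, 112, 112, 112, 112]]

/-- pieces of tool 134 -/
def P134 : List (List ℤ) :=
  [[1, 0, 0, 0, 0, 0, 0, 0, 0, 0, 0, 0, -14], [14, 0, 0, 0, 0, 0, 0, 0, -98, -98, -98, -98, -98],
  [-196, 196, 196, 196, 196, 196, 0, 0, 0, 0, 0, 0, 0, 0, 0, 196, 196, 196, 196, 196], [-210, 196,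
  196, 196, 196, 196, 0, 0, 0, 0, 0, 0, 0, 0, 0, 294, 294, 294, 294, 294], [-238, 196, 196, 196,
  196, 196, 0, 0, 0, 0, 0, 0, 0, 0, 0, 392, 392, 392, 392, 392], [-210, 294, 294, 294, 294, 294, 0,
  0, 0, 0, 0, 0, 0, 0, 0, 196, 196, 196, 196, 196], [-224, 294, 294, 294, 294, 294, 0, 0, 0, 0, 0,
  0, 0, 0, 0, 294, 294, 294, 294, 294], [-252, 294, 294, 294, 294, 294, 0, 0, 0, 0, 0, 0, 0, 0, 0,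
  392, 392, 392, 392, 392], [-238, 392, 392, 392, 392, 392, 0, 0, 0, 0, 0, 0, 0, 0, 0, 196, 196,
  196, 196, 196], [-252, 392, 392, 392, 392, 392, 0, 0, 0, 0, 0, 0, 0, 0, 0, 294, 294, 294, 294,
  294], [-280, 392, 392, 392, 392, 392, 0, 0, 0, 0, 0, 0, 0, 0, 0, 392, 392, 392, 392, 392], [-56,
  56, 56, 56, 56, 56, 0, 0, 56, 56, 56, 56, 56, 0, 0, 56, 56, 56, 56, 56], [-60, 56, 56, 56, 56, 56,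
  0, 0, 28, 28, 28, 28, 28, 0, 0, 84, 84, 84, 84, 84], [-68, 56, 56, 56, 56, 56, 0, 0, -28, -28,
  -28, -28, -28, 0, 0, 112, 112, 112, 112, 112], [-60, 84, 84, 84, 84, 84, 0, 0, 28, 28, 28, 28, 28,
  0, 0, 56, 56, 56, 56, 56], [-64, 84, 84, 84, 84, 84, 0, 0, 0, 0, 0, 0, 0, 0, 0, 84, 84, 84, 84,
  84], [-72, 84, 84, 84, 84, 84, 0, 0, -56, -56, -56, -56, -56, 0, 0, 112, 112, 112, 112, 112],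
  [-68, 112, 112, 112, 112, 112, 0, 0, -28, -28, -28, -28, -28, 0, 0, 56, 56, 56, 56, 56], [-72,
  112, 112, 112, 112, 112, 0, 0, -56, -56, -56, -56, -56, 0, 0, 84, 84, 84, 84, 84], [-80, 112, 112,
  112, 112, 112, 0, 0, -112, -112, -112, -112, -112, 0, 0, 112, 112, 112, 112, 112]]

/-- pieces of tool 135 -/
def P135 : List (List ℤ) :=
  [[1, 0, 0, 0, 0, 0, 0, 0, 0, 0, 0, 0, -14], [14, 0, 0, 0, 0, 0, 0, 0, -98, -98, -98, -98, -98],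
  [-294, 294, 294, 294, 294, 294, 0, 0, 0, 0, 0, 0, 0, 0, 0, 294, 294, 294, 294, 294], [-322, 294,
  294, 294, 294, 294, 0, 0, 0, 0, 0, 0, 0, 0, 0, 490, 490, 490, 490, 490], [-378, 294, 294, 294,
  294, 294, 0, 0, 0, 0, 0, 0, 0, 0, 0, 588, 588, 588, 588, 588], [-322, 490, 490, 490, 490, 490, 0,
  0, 0, 0, 0, 0, 0, 0, 0, 294, 294, 294, 294, 294], [-350, 490, 490, 490, 490, 490, 0, 0, 0, 0, 0,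
  0, 0, 0, 0, 490, 490, 490, 490, 490], [-406, 490, 490, 490, 490, 490, 0, 0, 0, 0, 0, 0, 0, 0, 0,
  588, 588, 588, 588, 588], [-378, 588, 588, 588, 588, 588, 0, 0, 0, 0, 0, 0, 0, 0, 0, 294, 294,
  294, 294, 294], [-406, 588, 588, 588, 588, 588, 0, 0, 0, 0, 0, 0, 0, 0, 0, 490, 490, 490, 490,
  490], [-462, 588, 588, 588, 588, 588, 0, 0, 0, 0, 0, 0, 0, 0, 0, 588, 588, 588, 588, 588], [-42,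
  42, 42, 42, 42, 42, 0, 0, 42, 42, 42, 42, 42, 0, 0, 42, 42, 42, 42, 42], [-46, 42, 42, 42, 42, 42,
  0, 0, 14, 14, 14, 14, 14, 0, 0, 70, 70, 70, 70, 70], [-54, 42, 42, 42, 42, 42, 0, 0, -42, -42,
  -42, -42, -42, 0, 0, 84, 84, 84, 84, 84], [-46, 70, 70, 70, 70, 70, 0, 0, 14, 14, 14, 14, 14, 0,
  0, 42, 42, 42, 42, 42], [-50, 70, 70, 70, 70, 70, 0, 0, -14, -14, -14, -14, -14, 0, 0, 70, 70, 70,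
  70, 70], [-58, 70, 70, 70, 70, 70, 0, 0, -70, -70, -70, -70, -70, 0, 0, 84, 84, 84, 84, 84], [-54,
  84, 84, 84, 84, 84, 0, 0, -42, -42, -42, -42, -42, 0, 0, 42, 42, 42, 42, 42], [-58, 84, 84, 84,
  84, 84, 0, 0, -70, -70, -70, -70, -70, 0, 0, 70, 70, 70, 70, 70], [-66, 84, 84, 84, 84, 84, 0, 0,
  -126, -126, -126, -126, -126, 0, 0, 84, 84, 84, 84, 84]]

/-- pieces of tool 136 -/
def P136 : List (List ℤ) :=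
  [[1, 0, 0, 0, 0, 0, 0, 0, 0, 0, 0, 0, -12], [16, 0, 0, 0, 0, 0, 0, 0, -84, -84, -84, -84, -84],
  [-246, 252, 252, 252, 252, 252, 0, 0, 0, 0, 0, 0, 0, 0, 0, 252, 252, 252, 252, 252], [-274, 252,
  252, 252, 252, 252, 0, 0, 0, 0, 0, 0, 0, 0, 0, 420, 420, 420, 420, 420], [-330, 252, 252, 252,
  252, 252, 0, 0, 0, 0, 0, 0, 0, 0, 0, 504, 504, 504, 504, 504], [-274, 420, 420, 420, 420, 420, 0,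
  0, 0, 0, 0, 0, 0, 0, 0, 252, 252, 252, 252, 252], [-302, 420, 420, 420, 420, 420, 0, 0, 0, 0, 0,
  0, 0, 0, 0, 420, 420, 420, 420, 420], [-358, 420, 420, 420, 420, 420, 0, 0, 0, 0, 0, 0, 0, 0, 0,
  504, 504, 504, 504, 504], [-330, 504, 504, 504, 504, 504, 0, 0, 0, 0, 0, 0, 0, 0, 0, 252, 252,
  252, 252, 252], [-358, 504, 504, 504, 504, 504, 0, 0, 0, 0, 0, 0, 0, 0, 0, 420, 420, 420, 420,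
  420], [-414, 504, 504, 504, 504, 504, 0, 0, 0, 0, 0, 0, 0, 0, 0, 504, 504, 504, 504, 504], [-42,
  42, 42, 42, 42, 42, 0, 0, 42, 42, 42, 42, 42, 0, 0, 42, 42, 42, 42, 42], [-46, 42, 42, 42, 42, 42,
  0, 0, 14, 14, 14, 14, 14, 0, 0, 70, 70, 70, 70, 70], [-54, 42, 42, 42, 42, 42, 0, 0, -42, -42,
  -42, -42, -42, 0, 0, 84, 84, 84, 84, 84], [-46, 70, 70, 70, 70, 70, 0, 0, 14, 14, 14, 14, 14, 0,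
  0, 42, 42, 42, 42, 42], [-50, 70, 70, 70, 70, 70, 0, 0, -14, -14, -14, -14, -14, 0, 0, 70, 70, 70,
  70, 70], [-58, 70, 70, 70, 70, 70, 0, 0, -70, -70, -70, -70, -70, 0, 0, 84, 84, 84, 84, 84], [-54,
  84, 84, 84, 84, 84, 0, 0, -42, -42, -42, -42, -42, 0, 0, 42, 42, 42, 42, 42], [-58, 84, 84, 84,
  84, 84, 0, 0, -70, -70, -70, -70, -70, 0, 0, 70, 70, 70, 70, 70], [-66, 84, 84, 84, 84, 84, 0, 0,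
  -126, -126, -126, -126, -126, 0, 0, 84, 84, 84, 84, 84]]

/-- pieces of tool 137 -/
def P137 : List (List ℤ) :=
  [[1, 0, 0, 0, 0, 0, 0, 0, 0, 0, 0, 0, -10], [18, 0, 0, 0, 0, 0, 0, 0, -70, -70, -70, -70, -70],
  [-132, 140, 140, 140, 140, 140, 0, 0, 0, 0, 0, 0, 0, 0, 0, 140, 140, 140, 140, 140], [-146, 140,
  140, 140, 140, 140, 0, 0, 0, 0, 0, 0, 0, 0, 0, 210, 210, 210, 210, 210], [-174, 140, 140, 140,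
  140, 140, 0, 0, 0, 0, 0, 0, 0, 0, 0, 280, 280, 280, 280, 280], [-146, 210, 210, 210, 210, 210, 0,
  0, 0, 0, 0, 0, 0, 0, 0, 140, 140, 140, 140, 140], [-160, 210, 210, 210, 210, 210, 0, 0, 0, 0, 0,
  0, 0, 0, 0, 210, 210, 210, 210, 210], [-188, 210, 210, 210, 210, 210, 0, 0, 0, 0, 0, 0, 0, 0, 0,
  280, 280, 280, 280, 280], [-174, 280, 280, 280, 280, 280, 0, 0, 0, 0, 0, 0, 0, 0, 0, 140, 140,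
  140, 140, 140], [-188, 280, 280, 280, 280, 280, 0, 0, 0, 0, 0, 0, 0, 0, 0, 210, 210, 210, 210,
  210], [-216, 280, 280, 280, 280, 280, 0, 0, 0, 0, 0, 0, 0, 0, 0, 280, 280, 280, 280, 280], [-56,
  56, 56, 56, 56, 56, 0, 0, 56, 56, 56, 56, 56, 0, 0, 56, 56, 56, 56, 56], [-60, 56, 56, 56, 56, 56,
  0, 0, 28, 28, 28, 28, 28, 0, 0, 84, 84, 84, 84, 84], [-68, 56, 56, 56, 56, 56, 0, 0, -28, -28,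
  -28, -28, -28, 0, 0, 112, 112, 112, 112, 112], [-60, 84, 84, 84, 84, 84, 0, 0, 28, 28, 28, 28, 28,
  0, 0, 56, 56, 56, 56, 56], [-64, 84, 84, 84, 84, 84, 0, 0, 0, 0, 0, 0, 0, 0, 0, 84, 84, 84, 84,
  84], [-72, 84, 84, 84, 84, 84, 0, 0, -56, -56, -56, -56, -56, 0, 0, 112, 112, 112, 112, 112],
  [-68, 112, 112, 112, 112, 112, 0, 0, -28, -28, -28, -28, -28, 0, 0, 56, 56, 56, 56, 56], [-72,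
  112, 112, 112, 112, 112, 0, 0, -56, -56, -56, -56, -56, 0, 0, 84, 84, 84, 84, 84], [-80, 112, 112,
  112, 112, 112, 0, 0, -112, -112, -112, -112, -112, 0, 0, 112, 112, 112, 112, 112]]

/-- pieces of tool 138 -/
def P138 : List (List ℤ) :=
  [[1, 0, 0, 0, 0, 0, 0, 0, 0, 0, 0, 0, -10], [18, 0, 0, 0, 0, 0, 0, 0, -70, -70, -70, -70, -70],
  [-198, 210, 210, 210, 210, 210, 0, 0, 0, 0, 0, 0, 0, 0, 0, 210, 210, 210, 210, 210], [-226, 210,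
  210, 210, 210, 210, 0, 0, 0, 0, 0, 0, 0, 0, 0, 350, 350, 350, 350, 350], [-282, 210, 210, 210,
  210, 210, 0, 0, 0, 0, 0, 0, 0, 0, 0, 420, 420, 420, 420, 420], [-226, 350, 350, 350, 350, 350, 0,
  0, 0, 0, 0, 0, 0, 0, 0, 210, 210, 210, 210, 210], [-254, 350, 350, 350, 350, 350, 0, 0, 0, 0, 0,
  0, 0, 0, 0, 350, 350, 350, 350, 350], [-310, 350, 350, 350, 350, 350, 0, 0, 0, 0, 0, 0, 0, 0, 0,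
  420, 420, 420, 420, 420], [-282, 420, 420, 420, 420, 420, 0, 0, 0, 0, 0, 0, 0, 0, 0, 210, 210,
  210, 210, 210], [-310, 420, 420, 420, 420, 420, 0, 0, 0, 0, 0, 0, 0, 0, 0, 350, 350, 350, 350,
  350], [-366, 420, 420, 420, 420, 420, 0, 0, 0, 0, 0, 0, 0, 0, 0, 420, 420, 420, 420, 420], [-42,
  42, 42, 42, 42, 42, 0, 0, 42, 42, 42, 42, 42, 0, 0, 42, 42, 42, 42, 42], [-46, 42, 42, 42, 42, 42,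
  0, 0, 14, 14, 14, 14, 14, 0, 0, 70, 70, 70, 70, 70], [-54, 42, 42, 42, 42, 42, 0, 0, -42, -42,
  -42, -42, -42, 0, 0, 84, 84, 84, 84, 84], [-46, 70, 70, 70, 70, 70, 0, 0, 14, 14, 14, 14, 14, 0,
  0, 42, 42, 42, 42, 42], [-50, 70, 70, 70, 70, 70, 0, 0, -14, -14, -14, -14, -14, 0, 0, 70, 70, 70,
  70, 70], [-58, 70, 70, 70, 70, 70, 0, 0, -70, -70, -70, -70, -70, 0, 0, 84, 84, 84, 84, 84], [-54,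
  84, 84, 84, 84, 84, 0, 0, -42, -42, -42, -42, -42, 0, 0, 42, 42, 42, 42, 42], [-58, 84, 84, 84,
  84, 84, 0, 0, -70, -70, -70, -70, -70, 0, 0, 70, 70, 70, 70, 70], [-66, 84, 84, 84, 84, 84, 0, 0,
  -126, -126, -126, -126, -126, 0, 0, 84, 84, 84, 84, 84]]

/-- pieces of tool 139 -/
def P139 : List (List ℤ) :=
  [[1, 0, 0, 0, 0, 0, 0, 0, 0, 0, 0, 0, 0, 0, 0, 0, 0, 0, 0, -20], [8, 0, 0, 0, 0, 0, 0, 0, 0, 0, 0,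
  0, 0, 0, 0, -140, -140, -140, -140, -140], [-438, 420, 420, 420, 420, 420, 0, 0, 420, 420, 420,
  420, 420], [-466, 420, 420, 420, 420, 420, 0, 0, 700, 700, 700, 700, 700], [-522, 420, 420, 420,
  420, 420, 0, 0, 840, 840, 840, 840, 840], [-466, 700, 700, 700, 700, 700, 0, 0, 420, 420, 420,
  420, 420], [-494, 700, 700, 700, 700, 700, 0, 0, 700, 700, 700, 700, 700], [-550, 700, 700, 700,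
  700, 700, 0, 0, 840, 840, 840, 840, 840], [-522, 840, 840, 840, 840, 840, 0, 0, 420, 420, 420,
  420, 420], [-550, 840, 840, 840, 840, 840, 0, 0, 700, 700, 700, 700, 700], [-606, 840, 840, 840,
  840, 840, 0, 0, 840, 840, 840, 840, 840], [-42, 42, 42, 42, 42, 42, 0, 0, 42, 42, 42, 42, 42, 0,
  0, 42, 42, 42, 42, 42], [-46, 42, 42, 42, 42, 42, 0, 0, 70, 70, 70, 70, 70, 0, 0, 14, 14, 14, 14,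
  14], [-54, 42, 42, 42, 42, 42, 0, 0, 84, 84, 84, 84, 84, 0, 0, -42, -42, -42, -42, -42], [-46, 70,
  70, 70, 70, 70, 0, 0, 42, 42, 42, 42, 42, 0, 0, 14, 14, 14, 14, 14], [-50, 70, 70, 70, 70, 70, 0,
  0, 70, 70, 70, 70, 70, 0, 0, -14, -14, -14, -14, -14], [-58, 70, 70, 70, 70, 70, 0, 0, 84, 84, 84,
  84, 84, 0, 0, -70, -70, -70, -70, -70], [-54, 84, 84, 84, 84, 84, 0, 0, 42, 42, 42, 42, 42, 0, 0,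
  -42, -42, -42, -42, -42], [-58, 84, 84, 84, 84, 84, 0, 0, 70, 70, 70, 70, 70, 0, 0, -70, -70, -70,
  -70, -70], [-66, 84, 84, 84, 84, 84, 0, 0, 84, 84, 84, 84, 84, 0, 0, -126, -126, -126, -126,
  -126]]

/-- pieces of tool 140 -/
def P140 : List (List ℤ) :=
  [[1, 0, 0, 0, 0, 0, 0, 0, 0, 0, 0, 0, 0, 0, 0, 0, 0, 0, 0, -16], [12, 0, 0, 0, 0, 0, 0, 0, 0, 0,
  0, 0, 0, 0, 0, -112, -112, -112, -112, -112], [-228, 224, 224, 224, 224, 224, 0, 0, 224, 224, 224,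
  224, 224], [-242, 224, 224, 224, 224, 224, 0, 0, 336, 336, 336, 336, 336], [-270, 224, 224, 224,
  224, 224, 0, 0, 448, 448, 448, 448, 448], [-242, 336, 336, 336, 336, 336, 0, 0, 224, 224, 224,
  224, 224], [-256, 336, 336, 336, 336, 336, 0, 0, 336, 336, 336, 336, 336], [-284, 336, 336, 336,
  336, 336, 0, 0, 448, 448, 448, 448, 448], [-270, 448, 448, 448, 448, 448, 0, 0, 224, 224, 224,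
  224, 224], [-284, 448, 448, 448, 448, 448, 0, 0, 336, 336, 336, 336, 336], [-312, 448, 448, 448,
  448, 448, 0, 0, 448, 448, 448, 448, 448], [-56, 56, 56, 56, 56, 56, 0, 0, 56, 56, 56, 56, 56, 0,
  0, 56, 56, 56, 56, 56], [-60, 56, 56, 56, 56, 56, 0, 0, 84, 84, 84, 84, 84, 0, 0, 28, 28, 28, 28,
  28], [-68, 56, 56, 56, 56, 56, 0, 0, 112, 112, 112, 112, 112, 0, 0, -28, -28, -28, -28, -28],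
  [-60, 84, 84, 84, 84, 84, 0, 0, 56, 56, 56, 56, 56, 0, 0, 28, 28, 28, 28, 28], [-64, 84, 84, 84,
  84, 84, 0, 0, 84, 84, 84, 84, 84], [-72, 84, 84, 84, 84, 84, 0, 0, 112, 112, 112, 112, 112, 0, 0,
  -56, -56, -56, -56, -56], [-68, 112, 112, 112, 112, 112, 0, 0, 56, 56, 56, 56, 56, 0, 0, -28, -28,
  -28, -28, -28], [-72, 112, 112, 112, 112, 112, 0, 0, 84, 84, 84, 84, 84, 0, 0, -56, -56, -56, -56,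
  -56], [-80, 112, 112, 112, 112, 112, 0, 0, 112, 112, 112, 112, 112, 0, 0, -112, -112, -112, -112,
  -112]]

/-- pieces of tool 141 -/
def P141 : List (List ℤ) :=
  [[1, 0, 0, 0, 0, 0, 0, 0, 0, 0, 0, 0, 0, 0, 0, 0, 0, 0, 0, -16], [12, 0, 0, 0, 0, 0, 0, 0, 0, 0,
  0, 0, 0, 0, 0, -112, -112, -112, -112, -112], [-342, 336, 336, 336, 336, 336, 0, 0, 336, 336, 336,
  336, 336], [-370, 336, 336, 336, 336, 336, 0, 0, 560, 560, 560, 560, 560], [-426, 336, 336, 336,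
  336, 336, 0, 0, 672, 672, 672, 672, 672], [-370, 560, 560, 560, 560, 560, 0, 0, 336, 336, 336,
  336, 336], [-398, 560, 560, 560, 560, 560, 0, 0, 560, 560, 560, 560, 560], [-454, 560, 560, 560,
  560, 560, 0, 0, 672, 672, 672, 672, 672], [-426, 672, 672, 672, 672, 672, 0, 0, 336, 336, 336,
  336, 336], [-454, 672, 672, 672, 672, 672, 0, 0, 560, 560, 560, 560, 560], [-510, 672, 672, 672,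
  672, 672, 0, 0, 672, 672, 672, 672, 672], [-42, 42, 42, 42, 42, 42, 0, 0, 42, 42, 42, 42, 42, 0,
  0, 42, 42, 42, 42, 42], [-46, 42, 42, 42, 42, 42, 0, 0, 70, 70, 70, 70, 70, 0, 0, 14, 14, 14, 14,
  14], [-54, 42, 42, 42, 42, 42, 0, 0, 84, 84, 84, 84, 84, 0, 0, -42, -42, -42, -42, -42], [-46, 70,
  70, 70, 70, 70, 0, 0, 42, 42, 42, 42, 42, 0, 0, 14, 14, 14, 14, 14], [-50, 70, 70, 70, 70, 70, 0,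
  0, 70, 70, 70, 70, 70, 0, 0, -14, -14, -14, -14, -14], [-58, 70, 70, 70, 70, 70, 0, 0, 84, 84, 84,
  84, 84, 0, 0, -70, -70, -70, -70, -70], [-54, 84, 84, 84, 84, 84, 0, 0, 42, 42, 42, 42, 42, 0, 0,
  -42, -42, -42, -42, -42], [-58, 84, 84, 84, 84, 84, 0, 0, 70, 70, 70, 70, 70, 0, 0, -70, -70, -70,
  -70, -70], [-66, 84, 84, 84, 84, 84, 0, 0, 84, 84, 84, 84, 84, 0, 0, -126, -126, -126, -126,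
  -126]]

/-- pieces of tool 142 -/
def P142 : List (List ℤ) :=
  [[1, 0, 0, 0, 0, 0, 0, 0, 0, 0, 0, 0, 0, 0, 0, 0, 0, 0, 0, -14], [14, 0, 0, 0, 0, 0, 0, 0, 0, 0,
  0, 0, 0, 0, 0, -98, -98, -98, -98, -98], [-196, 196, 196, 196, 196, 196, 0, 0, 196, 196, 196, 196,
  196], [-210, 196, 196, 196, 196, 196, 0, 0, 294, 294, 294, 294, 294], [-238, 196, 196, 196, 196,
  196, 0, 0, 392, 392, 392, 392, 392], [-210, 294, 294, 294, 294, 294, 0, 0, 196, 196, 196, 196,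
  196], [-224, 294, 294, 294, 294, 294, 0, 0, 294, 294, 294, 294, 294], [-252, 294, 294, 294, 294,
  294, 0, 0, 392, 392, 392, 392, 392], [-238, 392, 392, 392, 392, 392, 0, 0, 196, 196, 196, 196,
  196], [-252, 392, 392, 392, 392, 392, 0, 0, 294, 294, 294, 294, 294], [-280, 392, 392, 392, 392,
  392, 0, 0, 392, 392, 392, 392, 392], [-56, 56, 56, 56, 56, 56, 0, 0, 56, 56, 56, 56, 56, 0, 0, 56,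
  56, 56, 56, 56], [-60, 56, 56, 56, 56, 56, 0, 0, 84, 84, 84, 84, 84, 0, 0, 28, 28, 28, 28, 28],
  [-68, 56, 56, 56, 56, 56, 0, 0, 112, 112, 112, 112, 112, 0, 0, -28, -28, -28, -28, -28], [-60, 84,
  84, 84, 84, 84, 0, 0, 56, 56, 56, 56, 56, 0, 0, 28, 28, 28, 28, 28], [-64, 84, 84, 84, 84, 84, 0,
  0, 84, 84, 84, 84, 84], [-72, 84, 84, 84, 84, 84, 0, 0, 112, 112, 112, 112, 112, 0, 0, -56, -56,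
  -56, -56, -56], [-68, 112, 112, 112, 112, 112, 0, 0, 56, 56, 56, 56, 56, 0, 0, -28, -28, -28, -28,
  -28], [-72, 112, 112, 112, 112, 112, 0, 0, 84, 84, 84, 84, 84, 0, 0, -56, -56, -56, -56, -56],
  [-80, 112, 112, 112, 112, 112, 0, 0, 112, 112, 112, 112, 112, 0, 0, -112, -112, -112, -112, -112]]

/-- pieces of tool 143 -/
def P143 : List (List ℤ) :=
  [[1, 0, 0, 0, 0, 0, 0, 0, 0, 0, 0, 0, 0, 0, 0, 0, 0, 0, 0, -14], [14, 0, 0, 0, 0, 0, 0, 0, 0, 0,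
  0, 0, 0, 0, 0, -98, -98, -98, -98, -98], [-294, 294, 294, 294, 294, 294, 0, 0, 294, 294, 294, 294,
  294], [-322, 294, 294, 294, 294, 294, 0, 0, 490, 490, 490, 490, 490], [-378, 294, 294, 294, 294,
  294, 0, 0, 588, 588, 588, 588, 588], [-322, 490, 490, 490, 490, 490, 0, 0, 294, 294, 294, 294,
  294], [-350, 490, 490, 490, 490, 490, 0, 0, 490, 490, 490, 490, 490], [-406, 490, 490, 490, 490,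
  490, 0, 0, 588, 588, 588, 588, 588], [-378, 588, 588, 588, 588, 588, 0, 0, 294, 294, 294, 294,
  294], [-406, 588, 588, 588, 588, 588, 0, 0, 490, 490, 490, 490, 490], [-462, 588, 588, 588, 588,
  588, 0, 0, 588, 588, 588, 588, 588], [-42, 42, 42, 42, 42, 42, 0, 0, 42, 42, 42, 42, 42, 0, 0, 42,
  42, 42, 42, 42], [-46, 42, 42, 42, 42, 42, 0, 0, 70, 70, 70, 70, 70, 0, 0, 14, 14, 14, 14, 14],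
  [-54, 42, 42, 42, 42, 42, 0, 0, 84, 84, 84, 84, 84, 0, 0, -42, -42, -42, -42, -42], [-46, 70, 70,
  70, 70, 70, 0, 0, 42, 42, 42, 42, 42, 0, 0, 14, 14, 14, 14, 14], [-50, 70, 70, 70, 70, 70, 0, 0,
  70, 70, 70, 70, 70, 0, 0, -14, -14, -14, -14, -14], [-58, 70, 70, 70, 70, 70, 0, 0, 84, 84, 84,
  84, 84, 0, 0, -70, -70, -70, -70, -70], [-54, 84, 84, 84, 84, 84, 0, 0, 42, 42, 42, 42, 42, 0, 0,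
  -42, -42, -42, -42, -42], [-58, 84, 84, 84, 84, 84, 0, 0, 70, 70, 70, 70, 70, 0, 0, -70, -70, -70,
  -70, -70], [-66, 84, 84, 84, 84, 84, 0, 0, 84, 84, 84, 84, 84, 0, 0, -126, -126, -126, -126,
  -126]]

/-- pieces of tool 144 -/
def P144 : List (List ℤ) :=
  [[1, 0, 0, 0, 0, 0, 0, 0, 0, 0, 0, 0, 0, 0, 0, 0, 0, 0, 0, -12], [16, 0, 0, 0, 0, 0, 0, 0, 0, 0,
  0, 0, 0, 0, 0, -84, -84, -84, -84, -84], [-164, 168, 168, 168, 168, 168, 0, 0, 168, 168, 168, 168,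
  168], [-178, 168, 168, 168, 168, 168, 0, 0, 252, 252, 252, 252, 252], [-206, 168, 168, 168, 168,
  168, 0, 0, 336, 336, 336, 336, 336], [-178, 252, 252, 252, 252, 252, 0, 0, 168, 168, 168, 168,
  168], [-192, 252, 252, 252, 252, 252, 0, 0, 252, 252, 252, 252, 252], [-220, 252, 252, 252, 252,
  252, 0, 0, 336, 336, 336, 336, 336], [-206, 336, 336, 336, 336, 336, 0, 0, 168, 168, 168, 168,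
  168], [-220, 336, 336, 336, 336, 336, 0, 0, 252, 252, 252, 252, 252], [-248, 336, 336, 336, 336,
  336, 0, 0, 336, 336, 336, 336, 336], [-56, 56, 56, 56, 56, 56, 0, 0, 56, 56, 56, 56, 56, 0, 0, 56,
  56, 56, 56, 56], [-60, 56, 56, 56, 56, 56, 0, 0, 84, 84, 84, 84, 84, 0, 0, 28, 28, 28, 28, 28],
  [-68, 56, 56, 56, 56, 56, 0, 0, 112, 112, 112, 112, 112, 0, 0, -28, -28, -28, -28, -28], [-60, 84,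
  84, 84, 84, 84, 0, 0, 56, 56, 56, 56, 56, 0, 0, 28, 28, 28, 28, 28], [-64, 84, 84, 84, 84, 84, 0,
  0, 84, 84, 84, 84, 84], [-72, 84, 84, 84, 84, 84, 0, 0, 112, 112, 112, 112, 112, 0, 0, -56, -56,
  -56, -56, -56], [-68, 112, 112, 112, 112, 112, 0, 0, 56, 56, 56, 56, 56, 0, 0, -28, -28, -28, -28,
  -28], [-72, 112, 112, 112, 112, 112, 0, 0, 84, 84, 84, 84, 84, 0, 0, -56, -56, -56, -56, -56],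
  [-80, 112, 112, 112, 112, 112, 0, 0, 112, 112, 112, 112, 112, 0, 0, -112, -112, -112, -112, -112]]

/-- pieces of tool 145 -/
def P145 : List (List ℤ) :=
  [[1, 0, 0, 0, 0, 0, 0, 0, 0, 0, 0, 0, 0, 0, 0, 0, 0, 0, 0, -10], [18, 0, 0, 0, 0, 0, 0, 0, 0, 0,
  0, 0, 0, 0, 0, -70, -70, -70, -70, -70], [-132, 140, 140, 140, 140, 140, 0, 0, 140, 140, 140, 140,
  140], [-146, 140, 140, 140, 140, 140, 0, 0, 210, 210, 210, 210, 210], [-174, 140, 140, 140, 140,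
  140, 0, 0, 280, 280, 280, 280, 280], [-146, 210, 210, 210, 210, 210, 0, 0, 140, 140, 140, 140,
  140], [-160, 210, 210, 210, 210, 210, 0, 0, 210, 210, 210, 210, 210], [-188, 210, 210, 210, 210,
  210, 0, 0, 280, 280, 280, 280, 280], [-174, 280, 280, 280, 280, 280, 0, 0, 140, 140, 140, 140,
  140], [-188, 280, 280, 280, 280, 280, 0, 0, 210, 210, 210, 210, 210], [-216, 280, 280, 280, 280,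
  280, 0, 0, 280, 280, 280, 280, 280], [-56, 56, 56, 56, 56, 56, 0, 0, 56, 56, 56, 56, 56, 0, 0, 56,
  56, 56, 56, 56], [-60, 56, 56, 56, 56, 56, 0, 0, 84, 84, 84, 84, 84, 0, 0, 28, 28, 28, 28, 28],
  [-68, 56, 56, 56, 56, 56, 0, 0, 112, 112, 112, 112, 112, 0, 0, -28, -28, -28, -28, -28], [-60, 84,
  84, 84, 84, 84, 0, 0, 56, 56, 56, 56, 56, 0, 0, 28, 28, 28, 28, 28], [-64, 84, 84, 84, 84, 84, 0,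
  0, 84, 84, 84, 84, 84], [-72, 84, 84, 84, 84, 84, 0, 0, 112, 112, 112, 112, 112, 0, 0, -56, -56,
  -56, -56, -56], [-68, 112, 112, 112, 112, 112, 0, 0, 56, 56, 56, 56, 56, 0, 0, -28, -28, -28, -28,
  -28], [-72, 112, 112, 112, 112, 112, 0, 0, 84, 84, 84, 84, 84, 0, 0, -56, -56, -56, -56, -56],
  [-80, 112, 112, 112, 112, 112, 0, 0, 112, 112, 112, 112, 112, 0, 0, -112, -112, -112, -112, -112]]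

/-- pieces of tool 146 -/
def P146 : List (List ℤ) :=
  [[1, 0, 0, 0, 0, 0, 0, 0, 0, 0, 0, 0, 0, 0, 0, 0, 0, 0, 0, -10], [18, 0, 0, 0, 0, 0, 0, 0, 0, 0,
  0, 0, 0, 0, 0, -70, -70, -70, -70, -70], [-198, 210, 210, 210, 210, 210, 0, 0, 210, 210, 210, 210,
  210], [-226, 210, 210, 210, 210, 210, 0, 0, 350, 350, 350, 350, 350], [-282, 210, 210, 210, 210,
  210, 0, 0, 420, 420, 420, 420, 420], [-226, 350, 350, 350, 350, 350, 0, 0, 210, 210, 210, 210,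
  210], [-254, 350, 350, 350, 350, 350, 0, 0, 350, 350, 350, 350, 350], [-310, 350, 350, 350, 350,
  350, 0, 0, 420, 420, 420, 420, 420], [-282, 420, 420, 420, 420, 420, 0, 0, 210, 210, 210, 210,
  210], [-310, 420, 420, 420, 420, 420, 0, 0, 350, 350, 350, 350, 350], [-366, 420, 420, 420, 420,
  420, 0, 0, 420, 420, 420, 420, 420], [-42, 42, 42, 42, 42, 42, 0, 0, 42, 42, 42, 42, 42, 0, 0, 42,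
  42, 42, 42, 42], [-46, 42, 42, 42, 42, 42, 0, 0, 70, 70, 70, 70, 70, 0, 0, 14, 14, 14, 14, 14],
  [-54, 42, 42, 42, 42, 42, 0, 0, 84, 84, 84, 84, 84, 0, 0, -42, -42, -42, -42, -42], [-46, 70, 70,
  70, 70, 70, 0, 0, 42, 42, 42, 42, 42, 0, 0, 14, 14, 14, 14, 14], [-50, 70, 70, 70, 70, 70, 0, 0,
  70, 70, 70, 70, 70, 0, 0, -14, -14, -14, -14, -14], [-58, 70, 70, 70, 70, 70, 0, 0, 84, 84, 84,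
  84, 84, 0, 0, -70, -70, -70, -70, -70], [-54, 84, 84, 84, 84, 84, 0, 0, 42, 42, 42, 42, 42, 0, 0,
  -42, -42, -42, -42, -42], [-58, 84, 84, 84, 84, 84, 0, 0, 70, 70, 70, 70, 70, 0, 0, -70, -70, -70,
  -70, -70], [-66, 84, 84, 84, 84, 84, 0, 0, 84, 84, 84, 84, 84, 0, 0, -126, -126, -126, -126,
  -126]]

/-- pieces of tool 147 -/
def P147 : List (List ℤ) :=
  [[-4, 0, 0, 0, 7, 0, 0, 0, 0, 7, 7, 7, 7, 0, 0, 0, 7, 7, 7, 7], [-4, 0, 0, 0, -21, 0, -7, 0, 7, 7,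
  7, 7, 7, 0, 0, 7, 7, 7, 7, 7]]

/-- pieces of tool 148 -/
def P148 : List (List ℤ) :=
  [[-4, 0, 0, 0, 7, 0, 0, 0, 7, 0, 7, 7, 7, 0, 0, 7, 0, 7, 7, 7], [-4, 0, 0, 0, -21, 0, -7, 0, 7, 7,
  7, 7, 7, 0, 0, 7, 7, 7, 7, 7]]

/-- pieces of tool 149 -/
def P149 : List (List ℤ) :=
  [[-4, 0, 7, 7, 7, 0, 0, 0, 7, 0, 7, 7, 7, 0, 0, 7, 0, 7, 7, 7], [-4, 0, -7, -14, -21, 0, -7, 0, 7,
  7, 7, 7, 7, 0, 0, 7, 7, 7, 7, 7]]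

/-- pieces of tool 150 -/
def P150 : List (List ℤ) :=
  [[-4, 7, 7, 7, 7, 0, 0, 0, 7, 0, 7, 7, 7, 0, 0, 7, 0, 7, 7, 7], [-4, 0, -7, -14, -21, 0, -7, 0, 7,
  7, 7, 7, 7, 0, 0, 7, 7, 7, 7, 7]]

/-- pieces of tool 151 -/
def P151 : List (List ℤ) :=
  [[-4, 0, 0, 0, 7, 0, 0, 0, 7, 7, 0, 7, 7, 0, 0, 7, 7, 0, 7, 7], [-4, 0, 0, 0, -21, 0, -7, 0, 7, 7,
  7, 7, 7, 0, 0, 7, 7, 7, 7, 7]]

/-- pieces of tool 152 -/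
def P152 : List (List ℤ) :=
  [[-24, 21, 21, 21, 21, 21, 0, 0, 0, 0, 42, 0, 0, 0, 0, 21, 21, 21, 21, 21], [-24, 21, 21, 21, 21,
  21, 0, 0, 0, 0, 21, 0, 0, 0, 0, 35, 35, 35, 35, 35], [-24, 21, 21, 21, 21, 21, 0, 0, 0, 0, -21, 0,
  0, 0, 0, 42, 42, 42, 42, 42], [-24, 35, 35, 35, 35, 35, 0, 0, 0, 0, 21, 0, 0, 0, 0, 21, 21, 21,
  21, 21], [-24, 35, 35, 35, 35, 35, 0, 0, 0, 0, 0, 0, 0, 0, 0, 35, 35, 35, 35, 35], [-24, 35, 35,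
  35, 35, 35, 0, 0, 0, 0, -42, 0, 0, 0, 0, 42, 42, 42, 42, 42], [-24, 42, 42, 42, 42, 42, 0, 0, 0,
  0, -21, 0, 0, 0, 0, 21, 21, 21, 21, 21], [-24, 42, 42, 42, 42, 42, 0, 0, 0, 0, -42, 0, 0, 0, 0,
  35, 35, 35, 35, 35], [-24, 42, 42, 42, 42, 42, 0, 0, 0, 0, -84, 0, 0, 0, 0, 42, 42, 42, 42, 42]]

/-- pieces of tool 153 -/
def P153 : List (List ℤ) :=
  [[-4, 0, 7, 7, 7, 7, 0, 0, 0, 0, 7, 0, 0, 0, 0, 0, 7, 7, 7, 7], [-4, 7, 7, 7, 7, 7, 0, 0, 0, 0,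
  -14, 0, 0, 0, 0, 7, 7, 7, 7, 7]]

/-- pieces of tool 154 -/
def P154 : List (List ℤ) :=
  [[-4, 7, 0, 7, 7, 7, 0, 0, 0, 7, 7, 0, 0, 0, 0, 7, 0, 7, 7, 7], [-4, 7, 7, 7, 7, 7, 0, 0, 0, -7,
  -14, 0, 0, 0, 0, 7, 7, 7, 7, 7]]

/-- pieces of tool 155 -/
def P155 : List (List ℤ) :=
  [[-4, 7, 7, 0, 7, 7, 0, 0, 0, 0, 7, 0, 0, 0, 0, 7, 7, 0, 7, 7], [-4, 7, 7, 7, 7, 7, 0, 0, 0, 0,
  -14, 0, 0, 0, 0, 7, 7, 7, 7, 7]]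

/-- pieces of tool 156 -/
def P156 : List (List ℤ) :=
  [[-4, 7, 7, 0, 7, 7, 0, 0, 0, 7, 7, 0, 7, 0, 0, 7, 7, 0, 7, 7], [-4, 7, 7, 7, 7, 7, 0, 0, 7, 7, 7,
  28, 7, 7, 0, 7, 7, 7, 7, 7, 0, 0, -7]]

/-- pieces of tool 157 -/
def P157 : List (List ℤ) :=
  [[-24, 21, 21, 21, 21, 21, 0, 0, 21, 21, 21, 21, 21, 0, 0, 0, 42, 42], [-24, 21, 21, 21, 21, 21,
  0, 0, 35, 35, 35, 35, 35, 0, 0, 0, 28, 21], [-24, 21, 21, 21, 21, 21, 0, 0, 42, 42, 42, 42, 42, 0,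
  0, 0, 0, -21], [-24, 35, 35, 35, 35, 35, 0, 0, 21, 21, 21, 21, 21, 0, 0, 0, 28, 21], [-24, 35, 35,
  35, 35, 35, 0, 0, 35, 35, 35, 35, 35, 0, 0, 0, 14], [-24, 35, 35, 35, 35, 35, 0, 0, 42, 42, 42,
  42, 42, 0, 0, 0, -14, -42], [-24, 42, 42, 42, 42, 42, 0, 0, 21, 21, 21, 21, 21, 0, 0, 0, 0, -21],
  [-24, 42, 42, 42, 42, 42, 0, 0, 35, 35, 35, 35, 35, 0, 0, 0, -14, -42], [-24, 42, 42, 42, 42, 42,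
  0, 0, 42, 42, 42, 42, 42, 0, 0, 0, -42, -84]]

/-- pieces of tool 158 -/
def P158 : List (List ℤ) :=
  [[-32, 56, 56, 56, 0, 56, 0, 0, 28, 28, 28, 28, 28, 0, 0, 28, 28, 28, 28, 28], [-32, 56, 56, 56,
  0, 56, 0, 0, 42, 42, 42, 42, 42, 0, 0, 28, 28, 28, 28, 28], [-32, 56, 56, 56, 0, 56, 0, 0, 56, 56,
  56, 56, 56, 0, 0, 28, 28, 28, 28, 28], [-32, 0, 0, 0, 0, 0, 0, 0, 0, 0, 0, 0, 0, 0, 0, 56, 56, 56,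
  56, 56]]

/-- pieces of tool 159 -/
def P159 : List (List ℤ) :=
  [[-24, 42, 42, 42, 0, 42, 0, 0, 21, 21, 21, 21, 21, 0, 0, 21, 21, 21, 21, 21], [-24, 35, 28, 21,
  0, 14, 0, -7, 21, 21, 21, 21, 21, 0, 0, 35, 35, 35, 35, 35], [-24, 21, 0, -21, 0, -42, 0, -21, 21,
  21, 21, 21, 21, 0, 0, 42, 42, 42, 42, 42], [-24, 42, 42, 42, 0, 42, 0, 0, 42, 42, 42, 42, 42]]

/-- pieces of tool 160 -/
def P160 : List (List ℤ) :=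
  [[-24, 21, 21, 21, 21, 21, 0, 0, 21, 21, 21, 21, 21, 0, 0, 42, 42, 0, 42, 42], [-24, 35, 35, 35,
  35, 35, 0, 0, 21, 21, 21, 21, 21, 0, 0, 49, 56, 21, 70, 42, 7, 0, -7], [-24, 42, 42, 42, 42, 42,
  0, 0, 21, 21, 21, 21, 21, 0, 0, 63, 84, 63, 126, 42, 21, 0, -21], [-24, 0, 0, 0, 0, 0, 0, 0, 42,
  42, 42, 42, 42, 0, 0, 0, 0, 0, 0, 42]]

/-- pieces of tool 161 -/
def P161 : List (List ℤ) :=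
  [[-4, 0, 7, 7, 7, 7, 0, 0, 0, 0, 0, 7, 7, 0, 0, 0, 7, 7, 7, 7], [-4, 7, 7, 7, 7, 7, 0, 0, 7, 14,
  21, 7, 7, 0, 0, 7, 7, 7, 7, 7, 0, 0, -7]]

/-- pieces of tool 162 -/
def P162 : List (List ℤ) :=
  [[-4, 7, 0, 7, 7, 7, 0, 0, 0, 0, 0, 7, 0, 0, 0, 7, 0, 7, 7, 7], [-4, 7, 7, 7, 7, 7, 0, 0, 0, 0, 0,
  -21, 0, -7, 0, 7, 7, 7, 7, 7]]

/-- pieces of tool 163 -/
def P163 : List (List ℤ) :=
  [[-4, 7, 0, 7, 7, 7, 0, 0, 7, 7, 0, 7, 7, 0, 0, 7, 0, 7, 7, 7], [-4, 7, 7, 7, 7, 7, 0, 0, 7, 7,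
  21, 7, 7, 0, 0, 7, 7, 7, 7, 7, 0, 0, -7]]

/-- pieces of tool 164 -/
def P164 : List (List ℤ) :=
  [[-4, 7, 7, 0, 7, 7, 0, 0, 7, 0, 0, 7, 0, 0, 0, 7, 7, 0, 7, 7], [-4, 7, 7, 7, 7, 7, 0, 0, 0, 0, 0,
  -21, 0, -7, 0, 7, 7, 7, 7, 7]]

/-- pieces of tool 165 -/
def P165 : List (List ℤ) :=
  [[-4, 7, 7, 0, 7, 7, 0, 0, 0, 0, 7, 7, 7, 0, 0, 7, 7, 0, 7, 7], [-4, 7, 7, 7, 7, 7, 0, 0, 7, 14,
  7, 7, 7, 0, 0, 7, 7, 7, 7, 7, 0, 0, -7]]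

/-- pieces of tool 166 -/
def P166 : List (List ℤ) :=
  [[-32, 28, 28, 28, 28, 28, 0, 0, 56, 56, 56, 0, 56, 0, 0, 28, 28, 28, 28, 28], [-32, 42, 42, 42,
  42, 42, 0, 0, 56, 42, 56, 0, 56, 0, 0, 28, 28, 28, 28, 28], [-32, 56, 56, 56, 56, 56, 0, 0, 56,
  14, 56, 0, 56, 0, 0, 28, 28, 28, 28, 28], [-32, 0, 0, 0, 0, 0, 0, 0, 0, 56, 0, 0, 0, 0, 0, 56, 56,
  56, 56, 56]]

/-- pieces of tool 167 -/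
def P167 : List (List ℤ) :=
  [[-32, 28, 28, 28, 28, 28, 0, 0, 56, 56, 56, 0, 56, 0, 0, 28, 28, 28, 28, 28], [-32, 42, 42, 42,
  42, 42, 0, 0, 49, 42, 56, 0, 56, 0, 0, 28, 28, 28, 28, 28], [-32, 56, 56, 56, 56, 56, 0, 0, 35,
  14, 56, 0, 56, 0, 0, 28, 28, 28, 28, 28], [-32, 0, 0, 0, 0, 0, 0, 0, 56, 56, 0, 0, 0, 0, 0, 56,
  56, 56, 56, 56]]

/-- pieces of tool 168 -/
def P168 : List (List ℤ) :=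
  [[-24, 21, 21, 21, 21, 21, 0, 0, 42, 42, 42, 0, 42, 0, 0, 21, 21, 21, 21, 21], [-24, 21, 21, 21,
  21, 21, 0, 0, 42, 56, 42, 28, 42, 7, 0, 35, 35, 35, 35, 35, 0, 0, -7], [-24, 21, 21, 21, 21, 21,
  0, 0, 42, 84, 42, 84, 42, 21, 0, 42, 42, 42, 42, 42, 0, 0, -21], [-24, 42, 42, 42, 42, 42, 0, 0,
  42, 0, 42, 0, 42]]

/-- pieces of tool 169 -/
def P169 : List (List ℤ) :=
  [[-24, 21, 21, 21, 21, 21, 0, 0, 42, 42, 42, 0, 42, 0, 0, 21, 21, 21, 21, 21], [-24, 21, 21, 21,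
  21, 21, 0, 0, 42, 42, 42, 28, 42, 7, 0, 35, 35, 35, 35, 35, 0, 0, -7], [-24, 21, 21, 21, 21, 21,
  0, 0, 42, 42, 42, 84, 42, 21, 0, 42, 42, 42, 42, 42, 0, 0, -21], [-24, 42, 42, 42, 42, 42, 0, 0,
  42, 42, 42, 0, 42]]

/-- pieces of tool 170 -/
def P170 : List (List ℤ) :=
  [[-4, 0, 0, 0, 0, 0, 0, 0, 7, 7, 7, 0, 7, 0, 0, 7, 7, 7, 7, 7], [-4, 7, 14, 21, 28, 28, 7, 7, 7,
  7, 7, 7, 7, 0, 0, 7, 7, 7, 7, 7, 0, 0, -7]]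

/-- pieces of tool 171 -/
def P171 : List (List ℤ) :=
  [[1, 0, 0, 0, 0, -10], [18, -70, -70, -70, -70, -70], [-132, 0, 0, 0, 0, 0, 0, 0, 140, 140, 140,
  140, 140, 0, 0, 140, 140, 140, 140, 140], [-146, 0, 0, 0, 0, 0, 0, 0, 140, 140, 140, 140, 140, 0,
  0, 210, 210, 210, 210, 210], [-174, 0, 0, 0, 0, 0, 0, 0, 140, 140, 140, 140, 140, 0, 0, 280, 280,
  280, 280, 280], [-146, 0, 0, 0, 0, 0, 0, 0, 210, 210, 210, 210, 210, 0, 0, 140, 140, 140, 140,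
  140], [-160, 0, 0, 0, 0, 0, 0, 0, 210, 210, 210, 210, 210, 0, 0, 210, 210, 210, 210, 210], [-188,
  0, 0, 0, 0, 0, 0, 0, 210, 210, 210, 210, 210, 0, 0, 280, 280, 280, 280, 280], [-174, 0, 0, 0, 0,
  0, 0, 0, 280, 280, 280, 280, 280, 0, 0, 140, 140, 140, 140, 140], [-188, 0, 0, 0, 0, 0, 0, 0, 280,
  280, 280, 280, 280, 0, 0, 210, 210, 210, 210, 210], [-216, 0, 0, 0, 0, 0, 0, 0, 280, 280, 280,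
  280, 280, 0, 0, 280, 280, 280, 280, 280], [-56, 56, 56, 56, 56, 56, 0, 0, 56, 56, 56, 56, 56, 0,
  0, 56, 56, 56, 56, 56], [-60, 28, 28, 28, 28, 28, 0, 0, 56, 56, 56, 56, 56, 0, 0, 84, 84, 84, 84,
  84], [-68, -28, -28, -28, -28, -28, 0, 0, 56, 56, 56, 56, 56, 0, 0, 112, 112, 112, 112, 112],
  [-60, 28, 28, 28, 28, 28, 0, 0, 84, 84, 84, 84, 84, 0, 0, 56, 56, 56, 56, 56], [-64, 0, 0, 0, 0,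
  0, 0, 0, 84, 84, 84, 84, 84, 0, 0, 84, 84, 84, 84, 84], [-72, -56, -56, -56, -56, -56, 0, 0, 84,
  84, 84, 84, 84, 0, 0, 112, 112, 112, 112, 112], [-68, -28, -28, -28, -28, -28, 0, 0, 112, 112,
  112, 112, 112, 0, 0, 56, 56, 56, 56, 56], [-72, -56, -56, -56, -56, -56, 0, 0, 112, 112, 112, 112,
  112, 0, 0, 84, 84, 84, 84, 84], [-80, -112, -112, -112, -112, -112, 0, 0, 112, 112, 112, 112, 112,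
  0, 0, 112, 112, 112, 112, 112]]

/-- pieces of tool 172 -/
def P172 : List (List ℤ) :=
  [[1, 0, 0, 0, 0, 0, 0, 0, 0, 0, 0, 0, 0, 0, 0, 0, 0, 0, 0, -20], [8, 0, 0, 0, 0, 0, 0, 0, 0, 0, 0,
  0, 0, 0, 0, -140, -140, -140, -140, -140], [-292, 280, 280, 280, 280, 280, 0, 0, 280, 280, 280,
  280, 280], [-306, 280, 280, 280, 280, 280, 0, 0, 420, 420, 420, 420, 420], [-334, 280, 280, 280,
  280, 280, 0, 0, 560, 560, 560, 560, 560], [-306, 420, 420, 420, 420, 420, 0, 0, 280, 280, 280,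
  280, 280], [-320, 420, 420, 420, 420, 420, 0, 0, 420, 420, 420, 420, 420], [-348, 420, 420, 420,
  420, 420, 0, 0, 560, 560, 560, 560, 560], [-334, 560, 560, 560, 560, 560, 0, 0, 280, 280, 280,
  280, 280], [-348, 560, 560, 560, 560, 560, 0, 0, 420, 420, 420, 420, 420], [-376, 560, 560, 560,
  560, 560, 0, 0, 560, 560, 560, 560, 560], [-56, 56, 56, 56, 56, 56, 0, 0, 56, 56, 56, 56, 56, 0,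
  0, 56, 56, 56, 56, 56], [-60, 56, 56, 56, 56, 56, 0, 0, 84, 84, 84, 84, 84, 0, 0, 28, 28, 28, 28,
  28], [-68, 56, 56, 56, 56, 56, 0, 0, 112, 112, 112, 112, 112, 0, 0, -28, -28, -28, -28, -28],
  [-60, 84, 84, 84, 84, 84, 0, 0, 56, 56, 56, 56, 56, 0, 0, 28, 28, 28, 28, 28], [-64, 84, 84, 84,
  84, 84, 0, 0, 84, 84, 84, 84, 84], [-72, 84, 84, 84, 84, 84, 0, 0, 112, 112, 112, 112, 112, 0, 0,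
  -56, -56, -56, -56, -56], [-68, 112, 112, 112, 112, 112, 0, 0, 56, 56, 56, 56, 56, 0, 0, -28, -28,
  -28, -28, -28], [-72, 112, 112, 112, 112, 112, 0, 0, 84, 84, 84, 84, 84, 0, 0, -56, -56, -56, -56,
  -56], [-80, 112, 112, 112, 112, 112, 0, 0, 112, 112, 112, 112, 112, 0, 0, -112, -112, -112, -112,
  -112]]

/-- pieces of tool 173 -/
def P173 : List (List ℤ) :=
  [[-32, 28, 28, 28, 28, 28, 0, 0, 56, 56, 56, 0, 56, 0, 0, 28, 28, 28, 28, 28], [-32, 42, 42, 42,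
  42, 42, 0, 0, 56, 56, 56, 28, 56, 7, 0, 28, 28, 28, 28, 28, 0, 0, -7], [-32, 56, 56, 56, 56, 56,
  0, 0, 56, 56, 56, 84, 56, 21, 0, 28, 28, 28, 28, 28, 0, 0, -21], [-32, 0, 0, 0, 0, 0, 0, 0, 56,
  56, 56, 0, 56, 0, 0, 56, 56, 56, 56, 56]]

/-- pieces of tool 174 -/
def P174 : List (List ℤ) :=
  [[-24, 42, 42, 42, 0, 42, 0, 0, 21, 21, 21, 21, 21, 0, 0, 21, 21, 21, 21, 21], [-24, 35, 28, 21,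
  0, 14, 0, -7, 35, 35, 35, 35, 35, 0, 0, 21, 21, 21, 21, 21], [-24, 21, 0, -21, 0, -42, 0, -21, 42,
  42, 42, 42, 42, 0, 0, 21, 21, 21, 21, 21], [-24, 42, 42, 42, 0, 42, 0, 0, 0, 0, 0, 0, 0, 0, 0, 42,
  42, 42, 42, 42]]

/-- pieces of tool 175 -/
def P175 : List (List ℤ) :=
  [[-24, 21, 21, 21, 21, 21, 0, 0, 42, 42, 42, 0, 42, 0, 0, 21, 21, 21, 21, 21], [-24, 21, 21, 21,
  21, 21, 0, 0, 49, 56, 63, 28, 42, 7, 0, 35, 35, 35, 35, 35, 0, 0, -7], [-24, 21, 21, 21, 21, 21,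
  0, 0, 63, 84, 105, 84, 42, 21, 0, 42, 42, 42, 42, 42, 0, 0, -21], [-24, 42, 42, 42, 42, 42, 0, 0,
  0, 0, 0, 0, 42]]

/-- pieces of tool 176 -/
def P176 : List (List ℤ) :=
  [[-32, 28, 28, 28, 28, 28, 0, 0, 0, 56, 0, 0, 0, 0, 0, 28, 28, 28, 28, 28], [-32, 28, 28, 28, 28,
  28, 0, 0, 0, 42, 0, 0, 0, 0, 0, 42, 42, 42, 42, 42], [-32, 28, 28, 28, 28, 28, 0, 0, 0, 14, 0, 0,
  0, 0, 0, 56, 56, 56, 56, 56], [-32, 42, 42, 42, 42, 42, 0, 0, 0, 42, 0, 0, 0, 0, 0, 28, 28, 28,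
  28, 28], [-32, 42, 42, 42, 42, 42, 0, 0, 0, 28, 0, 0, 0, 0, 0, 42, 42, 42, 42, 42], [-32, 42, 42,
  42, 42, 42, 0, 0, 0, 0, 0, 0, 0, 0, 0, 56, 56, 56, 56, 56], [-32, 56, 56, 56, 56, 56, 0, 0, 0, 14,
  0, 0, 0, 0, 0, 28, 28, 28, 28, 28], [-32, 56, 56, 56, 56, 56, 0, 0, 0, 0, 0, 0, 0, 0, 0, 42, 42,
  42, 42, 42], [-32, 56, 56, 56, 56, 56, 0, 0, 0, -28, 0, 0, 0, 0, 0, 56, 56, 56, 56, 56]]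

/-- pieces of tool 177 -/
def P177 : List (List ℤ) :=
  [[-4, 7, 7, 0, 7, 7, 0, 0, 0, 7, 0, 0, 7, 0, 0, 7, 7, 0, 7, 7], [-4, 7, 7, 7, 7, 7, 0, 0, 7, 7,
  21, 28, 7, 7, 0, 7, 7, 7, 7, 7, 0, 0, -7]]

/-- pieces of tool 178 -/
def P178 : List (List ℤ) :=
  [[-4, 0, 7, 7, 7, 7, 0, 0, 0, 7, 7, 7, 7, 0, 0, 0, 0, 0, 7], [-4, 7, 7, 7, 7, 7, 0, 0, 7, 7, 7, 7,
  7, 0, 0, 0, 0, 0, -21, 0, -7]]

/-- pieces of tool 179 -/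
def P179 : List (List ℤ) :=
  [[-4, 7, 0, 7, 7, 7, 0, 0, 7, 0, 7, 7, 7, 0, 0, 0, 0, 0, 7], [-4, 7, 7, 7, 7, 7, 0, 0, 7, 7, 7, 7,
  7, 0, 0, 0, 0, 0, -21, 0, -7]]

/-- pieces of tool 180 -/
def P180 : List (List ℤ) :=
  [[-4, 7, 0, 7, 7, 7, 0, 0, 7, 0, 7, 7, 7, 0, 0, 7, 0, 0, 7], [-4, 7, 7, 7, 7, 7, 0, 0, 7, 7, 7, 7,
  7, 0, 0, 0, 0, 0, -21, 0, -7]]

/-- pieces of tool 181 -/
def P181 : List (List ℤ) :=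
  [[-4, 7, 0, 7, 7, 7, 0, 0, 7, 0, 7, 7, 7, 0, 0, 0, 0, 7, 7], [-4, 7, 7, 7, 7, 7, 0, 0, 7, 7, 7, 7,
  7, 0, 0, 0, 0, -14, -21, 0, -7]]

/-- pieces of tool 182 -/
def P182 : List (List ℤ) :=
  [[-4, 7, 7, 0, 7, 7, 0, 0, 7, 7, 0, 7, 7, 0, 0, 0, 0, 0, 7], [-4, 7, 7, 7, 7, 7, 0, 0, 7, 7, 7, 7,
  7, 0, 0, 0, 0, 0, -21, 0, -7]]

/-- pieces of tool 183 -/
def P183 : List (List ℤ) :=
  [[-32, 56, 0, 56, 56, 56, 0, 0, 28, 28, 28, 28, 28, 0, 0, 28, 28, 28, 28, 28], [-32, 56, 0, 35,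
  56, 56, 0, 0, 28, 28, 28, 28, 28, 0, 0, 42, 42, 42, 42, 42], [-32, 56, 0, -7, 56, 56, 0, 0, 28,
  28, 28, 28, 28, 0, 0, 56, 56, 56, 56, 56], [-32, 0, 0, 56, 0, 0, 0, 0, 56, 56, 56, 56, 56]]

/-- pieces of tool 184 -/
def P184 : List (List ℤ) :=
  [[-32, 28, 28, 28, 28, 28, 0, 0, 28, 28, 28, 28, 28, 0, 0, 56, 56, 56, 0, 56], [-32, 42, 42, 42,
  42, 42, 0, 0, 28, 28, 28, 28, 28, 0, 0, 56, 56, 56, 28, 56, 7, 0, -7], [-32, 56, 56, 56, 56, 56,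
  0, 0, 28, 28, 28, 28, 28, 0, 0, 56, 56, 56, 84, 56, 21, 0, -21], [-32, 0, 0, 0, 0, 0, 0, 0, 56,
  56, 56, 56, 56, 0, 0, 56, 56, 56, 0, 56]]

/-- pieces of tool 185 -/
def P185 : List (List ℤ) :=
  [[-24, 42, 42, 0, 42, 42, 0, 0, 21, 21, 21, 21, 21, 0, 0, 21, 21, 21, 21, 21], [-24, 42, 28, 0,
  42, 14, 0, -7, 35, 35, 35, 35, 35, 0, 0, 21, 21, 21, 21, 21], [-24, 42, 0, 0, 42, -42, 0, -21, 42,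
  42, 42, 42, 42, 0, 0, 21, 21, 21, 21, 21], [-24, 0, 42, 0, 0, 42, 0, 0, 0, 0, 0, 0, 0, 0, 0, 42,
  42, 42, 42, 42]]

/-- pieces of tool 186 -/
def P186 : List (List ℤ) :=
  [[-24, 42, 42, 0, 42, 42, 0, 0, 21, 21, 21, 21, 21, 0, 0, 21, 21, 21, 21, 21], [-24, 35, 28, 0,
  42, 14, 0, -7, 35, 35, 35, 35, 35, 0, 0, 21, 21, 21, 21, 21], [-24, 21, 0, 0, 42, -42, 0, -21, 42,
  42, 42, 42, 42, 0, 0, 21, 21, 21, 21, 21], [-24, 42, 42, 0, 0, 42, 0, 0, 0, 0, 0, 0, 0, 0, 0, 42,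
  42, 42, 42, 42]]

/-- pieces of tool 187 -/
def P187 : List (List ℤ) :=
  [[-24, 42, 42, 0, 42, 42, 0, 0, 21, 21, 21, 21, 21, 0, 0, 21, 21, 21, 21, 21], [-24, 42, 42, 0,
  42, 14, 0, -7, 21, 21, 21, 21, 21, 0, 0, 35, 35, 35, 35, 35], [-24, 42, 42, 0, 42, -42, 0, -21,
  21, 21, 21, 21, 21, 0, 0, 42, 42, 42, 42, 42], [-24, 0, 0, 0, 0, 42, 0, 0, 42, 42, 42, 42, 42]]

/-- pieces of tool 188 -/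
def P188 : List (List ℤ) :=
  [[-24, 21, 21, 21, 21, 21, 0, 0, 42, 42, 0, 42, 42, 0, 0, 21, 21, 21, 21, 21], [-24, 21, 21, 21,
  21, 21, 0, 0, 35, 28, 0, 42, 42, 0, 0, 35, 35, 35, 35, 35], [-24, 21, 21, 21, 21, 21, 0, 0, 21, 0,
  0, 42, 42, 0, 0, 42, 42, 42, 42, 42], [-24, 42, 42, 42, 42, 42, 0, 0, 42, 42]]

/-- pieces of tool 189 -/
def P189 : List (List ℤ) :=
  [[-24, 21, 21, 21, 21, 21, 0, 0, 21, 21, 21, 21, 21, 0, 0, 42, 42, 42, 0, 42], [-24, 35, 35, 35,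
  35, 35, 0, 0, 21, 21, 21, 21, 21, 0, 0, 42, 42, 42, 28, 42, 7, 0, -7], [-24, 42, 42, 42, 42, 42,
  0, 0, 21, 21, 21, 21, 21, 0, 0, 42, 42, 42, 84, 42, 21, 0, -21], [-24, 0, 0, 0, 0, 0, 0, 0, 42,
  42, 42, 42, 42, 0, 0, 42, 42, 42, 0, 42]]

/-- pieces of tool 190 -/
def P190 : List (List ℤ) :=
  [[-24, 21, 21, 21, 21, 21, 0, 0, 21, 21, 21, 21, 21, 0, 0, 42, 42, 42, 0, 42], [-24, 21, 21, 21,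
  21, 21, 0, 0, 35, 35, 35, 35, 35, 0, 0, 42, 42, 63, 28, 42, 7, 0, -7], [-24, 21, 21, 21, 21, 21,
  0, 0, 42, 42, 42, 42, 42, 0, 0, 42, 42, 105, 84, 42, 21, 0, -21], [-24, 42, 42, 42, 42, 42, 0, 0,
  0, 0, 0, 0, 0, 0, 0, 42, 42, 0, 0, 42]]

/-- pieces of tool 191 -/
def P191 : List (List ℤ) :=
  [[-4, 0, 0, 0, 0, 0, 0, 0, 7, 7, 7, 7, 7, 0, 0, 7, 7, 7, 0, 7], [-4, 7, 14, 21, 28, 28, 7, 7, 7,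
  7, 7, 7, 7, 0, 0, 7, 7, 7, 7, 7, 0, 0, -7]]

/-- pieces of tool 192 -/
def P192 : List (List ℤ) :=
  [[1, 0, 0, 0, 0, 0, 0, 0, 0, 0, 0, 0, -16], [12, 0, 0, 0, 0, 0, 0, 0, -112, -112, -112, -112,
  -112], [-342, 336, 336, 336, 336, 336, 0, 0, 0, 0, 0, 0, 0, 0, 0, 336, 336, 336, 336, 336], [-370,
  336, 336, 336, 336, 336, 0, 0, 0, 0, 0, 0, 0, 0, 0, 560, 560, 560, 560, 560], [-426, 336, 336,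
  336, 336, 336, 0, 0, 0, 0, 0, 0, 0, 0, 0, 672, 672, 672, 672, 672], [-370, 560, 560, 560, 560,
  560, 0, 0, 0, 0, 0, 0, 0, 0, 0, 336, 336, 336, 336, 336], [-398, 560, 560, 560, 560, 560, 0, 0, 0,
  0, 0, 0, 0, 0, 0, 560, 560, 560, 560, 560], [-454, 560, 560, 560, 560, 560, 0, 0, 0, 0, 0, 0, 0,
  0, 0, 672, 672, 672, 672, 672], [-426, 672, 672, 672, 672, 672, 0, 0, 0, 0, 0, 0, 0, 0, 0, 336,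
  336, 336, 336, 336], [-454, 672, 672, 672, 672, 672, 0, 0, 0, 0, 0, 0, 0, 0, 0, 560, 560, 560,
  560, 560], [-510, 672, 672, 672, 672, 672, 0, 0, 0, 0, 0, 0, 0, 0, 0, 672, 672, 672, 672, 672],
  [-42, 42, 42, 42, 42, 42, 0, 0, 42, 42, 42, 42, 42, 0, 0, 42, 42, 42, 42, 42], [-46, 42, 42, 42,
  42, 42, 0, 0, 14, 14, 14, 14, 14, 0, 0, 70, 70, 70, 70, 70], [-54, 42, 42, 42, 42, 42, 0, 0, -42,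
  -42, -42, -42, -42, 0, 0, 84, 84, 84, 84, 84], [-46, 70, 70, 70, 70, 70, 0, 0, 14, 14, 14, 14, 14,
  0, 0, 42, 42, 42, 42, 42], [-50, 70, 70, 70, 70, 70, 0, 0, -14, -14, -14, -14, -14, 0, 0, 70, 70,
  70, 70, 70], [-58, 70, 70, 70, 70, 70, 0, 0, -70, -70, -70, -70, -70, 0, 0, 84, 84, 84, 84, 84],
  [-54, 84, 84, 84, 84, 84, 0, 0, -42, -42, -42, -42, -42, 0, 0, 42, 42, 42, 42, 42], [-58, 84, 84,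
  84, 84, 84, 0, 0, -70, -70, -70, -70, -70, 0, 0, 70, 70, 70, 70, 70], [-66, 84, 84, 84, 84, 84, 0,
  0, -126, -126, -126, -126, -126, 0, 0, 84, 84, 84, 84, 84]]

/-- pieces of tool 193 -/
def P193 : List (List ℤ) :=
  [[-32, 56, 56, 56, 0, 56, 0, 0, 28, 28, 28, 28, 28, 0, 0, 28, 28, 28, 28, 28], [-32, 49, 42, 35,
  0, 28, 0, -7, 28, 28, 28, 28, 28, 0, 0, 42, 42, 42, 42, 42], [-32, 35, 14, -7, 0, -28, 0, -21, 28,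
  28, 28, 28, 28, 0, 0, 56, 56, 56, 56, 56], [-32, 56, 56, 56, 0, 56, 0, 0, 56, 56, 56, 56, 56]]

/-- pieces of tool 194 -/
def P194 : List (List ℤ) :=
  [[-24, 21, 21, 21, 21, 21, 0, 0, 21, 21, 21, 21, 21, 0, 0, 42, 42, 42, 0, 42], [-24, 21, 21, 21,
  21, 21, 0, 0, 35, 35, 35, 35, 35, 0, 0, 42, 42, 42, 0, 42], [-24, 21, 21, 21, 21, 21, 0, 0, 42,
  42, 42, 42, 42, 0, 0, 42, 42, 42, 0, 42], [-24, 42, 42, 42, 42, 42]]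

/-- pieces of tool 195 -/
def P195 : List (List ℤ) :=
  [[-32, 28, 28, 28, 28, 28, 0, 0, 28, 28, 28, 28, 28, 0, 0, 56, 56, 56, 0, 56], [-32, 28, 28, 28,
  28, 28, 0, 0, 42, 42, 42, 42, 42, 0, 0, 56, 56, 56, 28, 56, 7, 0, -7], [-32, 28, 28, 28, 28, 28,
  0, 0, 56, 56, 56, 56, 56, 0, 0, 56, 56, 56, 84, 56, 21, 0, -21], [-32, 56, 56, 56, 56, 56, 0, 0,
  0, 0, 0, 0, 0, 0, 0, 56, 56, 56, 0, 56]]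

/-- pieces of tool 196 -/
def P196 : List (List ℤ) :=
  [[-24, 21, 21, 21, 21, 21, 0, 0, 42, 42, 42, 0, 42, 0, 0, 21, 21, 21, 21, 21], [-24, 35, 35, 35,
  35, 35, 0, 0, 49, 56, 63, 28, 42, 7, 0, 21, 21, 21, 21, 21, 0, 0, -7], [-24, 42, 42, 42, 42, 42,
  0, 0, 63, 84, 105, 84, 42, 21, 0, 21, 21, 21, 21, 21, 0, 0, -21], [-24, 0, 0, 0, 0, 0, 0, 0, 0, 0,
  0, 0, 42, 0, 0, 42, 42, 42, 42, 42]]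

/-- pieces of tool 197 -/
def P197 : List (List ℤ) :=
  [[-32, 56, 56, 56, 0, 56, 0, 0, 28, 28, 28, 28, 28, 0, 0, 28, 28, 28, 28, 28], [-32, 56, 56, 56,
  0, 56, 0, 0, 28, 28, 28, 28, 28, 0, 0, 42, 42, 42, 42, 42], [-32, 56, 56, 56, 0, 56, 0, 0, 28, 28,
  28, 28, 28, 0, 0, 56, 56, 56, 56, 56], [-32, 0, 0, 0, 0, 0, 0, 0, 56, 56, 56, 56, 56]]

/-- pieces of the tools -/
def TL : List (List (List ℤ)) :=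
  [P0, P1, P2, P3, P4, P5, P6, P7, P8, P9, P10, P11, P12, P13, P14, P15, P16, P17, P18, P19, P20,
  P21, P22, P23, P24, P25, P26, P27, P28, P29, P30, P31, P32, P33, P34, P35, P36, P37, P38, P39,
  P40, P41, P42, P43, P44, P45, P46, P47, P48, P49, P50, P51, P52, P53, P54, P55, P56, P57, P58,
  P59, P60, P61, P62, P63, P64, P65, P66, P67, P68, P69, P70, P71, P72, P73, P74, P75, P76, P77,
  P78, P79, P80, P81, P82, P83, P84, P85, P86, P87, P88, P89, P90, P91, P92, P93, P94, P95, P96,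
  P97, P98, P99, P100, P101, P102, P103, P104, P105, P106, P107, P108, P109, P110, P111, P112, P113,
  P114, P115, P116, P117, P118, P119, P120, P121, P122, P123, P124, P125, P126, P127, P128, P129,
  P130, P131, P132, P133, P134, P135, P136, P137, P138, P139, P140, P141, P142, P143, P144, P145,
  P146, P147, P148, P149, P150, P151, P152, P153, P154, P155, P156, P157, P158, P159, P160, P161,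
  P162, P163, P164, P165, P166, P167, P168, P169, P170, P171, P172, P173, P174, P175, P176, P177,
  P178, P179, P180, P181, P182, P183, P184, P185, P186, P187, P188, P189, P190, P191, P192, P193,
  P194, P195, P196, P197]

/-- root constraints of type 0 -/
def F0 : List (Bool × List ℤ) :=
  [(false, [1, -1, -1, -1, -1, -1, 0, 0, -1, -1, -1, -1, -1, 0, 0, -1, -1, -1, -1, -1]), (true, [-4,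
  7, 7, 7, 7, 7, 0, 0, 7, 7, 7, 7, 7]), (true, [-4, 7, 7, 7, 7, 7, 0, 0, 0, 0, 0, 0, 0, 0, 0, 7, 7,
  7, 7, 7]), (true, [-4, 0, 0, 0, 0, 0, 0, 0, 7, 7, 7, 7, 7, 0, 0, 7, 7, 7, 7, 7]), (false, [-4, 0,
  0, 0, 0, 0, 0, 0, 0, 0, 0, 0, 0, 0, 0, 0, 0, 0, 0, 0, 0, 0, 7]), (false, [0, -1, -2, -3, -4, -4,
  -1, -1, 0, 0, 0, 0, 0, 0, 0, 0, 0, 0, 0, 0, 0, 0, 1]), (false, [0, 0, 0, 0, 0, 0, 0, 0, -1, -2,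
  -3, -4, -4, -1, 0, 0, 0, 0, 0, 0, 0, 0, 1]), (false, [0, 0, 0, 0, 0, 0, 0, 0, 0, 0, 0, 0, 0, 0, 0,
  -1, -2, -3, -4, -4, -1, 0, 1]), (false, [0, 0, 0, 0, -1]), (false, [0, 0, 0, 0, 0, 0, -1]),
  (false, [0, 0, 0, 0, 0, 0, 0, 0, 0, 0, 0, -1]), (false, [0, 0, 0, 0, 0, 0, 0, 0, 0, 0, 0, 0, 0,
  -1]), (false, [0, 0, 0, 0, 0, 0, 0, 0, 0, 0, 0, 0, 0, 0, 0, 0, 0, 0, -1]), (false, [0, 0, 0, 0, 0,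
  0, 0, 0, 0, 0, 0, 0, 0, 0, 0, 0, 0, 0, 0, 0, -1]), (false, [0, 1]), (false, [0, 0, 1]), (false,
  [0, 0, 0, 1]), (false, [0, 0, 0, 0, 1]), (false, [0, 0, 0, 0, 0, 1]), (false, [0, 0, 0, 0, 0, 0,
  1]), (false, [0, 0, 0, 0, 0, 0, 0, 1]), (false, [0, 0, 0, 0, 0, 0, 0, 0, 1]), (false, [0, 0, 0, 0,
  0, 0, 0, 0, 0, 1]), (false, [0, 0, 0, 0, 0, 0, 0, 0, 0, 0, 1]), (false, [0, 0, 0, 0, 0, 0, 0, 0,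
  0, 0, 0, 1]), (false, [0, 0, 0, 0, 0, 0, 0, 0, 0, 0, 0, 0, 1]), (false, [0, 0, 0, 0, 0, 0, 0, 0,
  0, 0, 0, 0, 0, 1]), (false, [0, 0, 0, 0, 0, 0, 0, 0, 0, 0, 0, 0, 0, 0, 1]), (false, [0, 0, 0, 0,
  0, 0, 0, 0, 0, 0, 0, 0, 0, 0, 0, 1]), (false, [0, 0, 0, 0, 0, 0, 0, 0, 0, 0, 0, 0, 0, 0, 0, 0,
  1]), (false, [0, 0, 0, 0, 0, 0, 0, 0, 0, 0, 0, 0, 0, 0, 0, 0, 0, 1]), (false, [0, 0, 0, 0, 0, 0,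
  0, 0, 0, 0, 0, 0, 0, 0, 0, 0, 0, 0, 1]), (false, [0, 0, 0, 0, 0, 0, 0, 0, 0, 0, 0, 0, 0, 0, 0, 0,
  0, 0, 0, 1]), (false, [0, 0, 0, 0, 0, 0, 0, 0, 0, 0, 0, 0, 0, 0, 0, 0, 0, 0, 0, 0, 1]), (false,
  [0, 0, 0, 0, 0, 0, 0, 0, 0, 0, 0, 0, 0, 0, 0, 0, 0, 0, 0, 0, 0, 1]), (false, [0, 0, 0, 0, 0, 0, 0,
  0, 0, 0, 0, 0, 0, 0, 0, 0, 0, 0, 0, 0, 0, 0, 1])]

/-- root constraints of type 1 -/
def F1 : List (Bool × List ℤ) :=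
  [(false, [1, -1, -1, -1, -1, -1, 0, 0, -1, -1, -1, -1, -1, 0, 0, -1, -1, -1, -1, -1]), (true, [-4,
  7, 7, 7, 7, 7, 0, 0, 7, 7, 7, 7, 7]), (true, [-4, 7, 7, 7, 7, 7, 0, 0, 0, 0, 0, 0, 0, 0, 0, 7, 7,
  7, 7, 7]), (true, [-4, 0, 0, 0, 0, 0, 0, 0, 7, 7, 7, 7, 7, 0, 0, 7, 7, 7, 7, 7]), (false, [-4, 0,
  0, 0, 0, 0, 0, 0, 0, 0, 0, 0, 0, 0, 0, 0, 0, 0, 0, 0, 0, 0, 7]), (false, [0, -1, -2, -3, -4, -4,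
  -1, -1, 0, 0, 0, 0, 0, 0, 0, 0, 0, 0, 0, 0, 0, 0, 1]), (false, [0, 0, 0, 0, 0, 0, 0, 0, -1, -2,
  -3, -4, -4, -1, 0, 0, 0, 0, 0, 0, 0, 0, 1]), (false, [0, 0, 0, 0, 0, 0, 0, 0, 0, 0, 0, 0, 0, 0, 0,
  -1, -2, -3, -4, -4, -1, 0, 1]), (true, [-1, -7, -7, -7, 7, -7]), (false, [0, 0, 0, 0, 0, 0, 0, 0,
  0, 0, 0, -1]), (false, [0, 0, 0, 0, 0, 0, 0, 0, 0, 0, 0, 0, 0, -1]), (false, [0, 0, 0, 0, 0, 0, 0,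
  0, 0, 0, 0, 0, 0, 0, 0, 0, 0, 0, -1]), (false, [0, 0, 0, 0, 0, 0, 0, 0, 0, 0, 0, 0, 0, 0, 0, 0, 0,
  0, 0, 0, -1]), (false, [0, 1]), (false, [0, 0, 1]), (false, [0, 0, 0, 1]), (false, [0, 0, 0, 0,
  1]), (false, [0, 0, 0, 0, 0, 1]), (false, [0, 0, 0, 0, 0, 0, 1]), (false, [0, 0, 0, 0, 0, 0, 0,
  1]), (false, [0, 0, 0, 0, 0, 0, 0, 0, 1]), (false, [0, 0, 0, 0, 0, 0, 0, 0, 0, 1]), (false, [0, 0,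
  0, 0, 0, 0, 0, 0, 0, 0, 1]), (false, [0, 0, 0, 0, 0, 0, 0, 0, 0, 0, 0, 1]), (false, [0, 0, 0, 0,
  0, 0, 0, 0, 0, 0, 0, 0, 1]), (false, [0, 0, 0, 0, 0, 0, 0, 0, 0, 0, 0, 0, 0, 1]), (false, [0, 0,
  0, 0, 0, 0, 0, 0, 0, 0, 0, 0, 0, 0, 1]), (false, [0, 0, 0, 0, 0, 0, 0, 0, 0, 0, 0, 0, 0, 0, 0,
  1]), (false, [0, 0, 0, 0, 0, 0, 0, 0, 0, 0, 0, 0, 0, 0, 0, 0, 1]), (false, [0, 0, 0, 0, 0, 0, 0,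
  0, 0, 0, 0, 0, 0, 0, 0, 0, 0, 1]), (false, [0, 0, 0, 0, 0, 0, 0, 0, 0, 0, 0, 0, 0, 0, 0, 0, 0, 0,
  1]), (false, [0, 0, 0, 0, 0, 0, 0, 0, 0, 0, 0, 0, 0, 0, 0, 0, 0, 0, 0, 1]), (false, [0, 0, 0, 0,
  0, 0, 0, 0, 0, 0, 0, 0, 0, 0, 0, 0, 0, 0, 0, 0, 1]), (false, [0, 0, 0, 0, 0, 0, 0, 0, 0, 0, 0, 0,
  0, 0, 0, 0, 0, 0, 0, 0, 0, 1]), (false, [0, 0, 0, 0, 0, 0, 0, 0, 0, 0, 0, 0, 0, 0, 0, 0, 0, 0, 0,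
  0, 0, 0, 1])]

/-- root constraints of type 2 -/
def F2 : List (Bool × List ℤ) :=
  [(false, [1, -1, -1, -1, -1, -1, 0, 0, -1, -1, -1, -1, -1, 0, 0, -1, -1, -1, -1, -1]), (true, [-4,
  7, 7, 7, 7, 7, 0, 0, 7, 7, 7, 7, 7]), (true, [-4, 7, 7, 7, 7, 7, 0, 0, 0, 0, 0, 0, 0, 0, 0, 7, 7,
  7, 7, 7]), (true, [-4, 0, 0, 0, 0, 0, 0, 0, 7, 7, 7, 7, 7, 0, 0, 7, 7, 7, 7, 7]), (false, [-4, 0,
  0, 0, 0, 0, 0, 0, 0, 0, 0, 0, 0, 0, 0, 0, 0, 0, 0, 0, 0, 0, 7]), (false, [0, -1, -2, -3, -4, -4,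
  -1, -1, 0, 0, 0, 0, 0, 0, 0, 0, 0, 0, 0, 0, 0, 0, 1]), (false, [0, 0, 0, 0, 0, 0, 0, 0, -1, -2,
  -3, -4, -4, -1, 0, 0, 0, 0, 0, 0, 0, 0, 1]), (false, [0, 0, 0, 0, 0, 0, 0, 0, 0, 0, 0, 0, 0, 0, 0,
  -1, -2, -3, -4, -4, -1, 0, 1]), (true, [-1, 0, 0, 0, 0, 0, 0, 0, -7, -7, -7, 7, -7]), (false, [0,
  0, 0, 0, -1]), (false, [0, 0, 0, 0, 0, 0, -1]), (false, [0, 0, 0, 0, 0, 0, 0, 0, 0, 0, 0, 0, 0, 0,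
  0, 0, 0, 0, -1]), (false, [0, 0, 0, 0, 0, 0, 0, 0, 0, 0, 0, 0, 0, 0, 0, 0, 0, 0, 0, 0, -1]),
  (false, [0, 1]), (false, [0, 0, 1]), (false, [0, 0, 0, 1]), (false, [0, 0, 0, 0, 1]), (false, [0,
  0, 0, 0, 0, 1]), (false, [0, 0, 0, 0, 0, 0, 1]), (false, [0, 0, 0, 0, 0, 0, 0, 1]), (false, [0, 0,
  0, 0, 0, 0, 0, 0, 1]), (false, [0, 0, 0, 0, 0, 0, 0, 0, 0, 1]), (false, [0, 0, 0, 0, 0, 0, 0, 0,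
  0, 0, 1]), (false, [0, 0, 0, 0, 0, 0, 0, 0, 0, 0, 0, 1]), (false, [0, 0, 0, 0, 0, 0, 0, 0, 0, 0,
  0, 0, 1]), (false, [0, 0, 0, 0, 0, 0, 0, 0, 0, 0, 0, 0, 0, 1]), (false, [0, 0, 0, 0, 0, 0, 0, 0,
  0, 0, 0, 0, 0, 0, 1]), (false, [0, 0, 0, 0, 0, 0, 0, 0, 0, 0, 0, 0, 0, 0, 0, 1]), (false, [0, 0,
  0, 0, 0, 0, 0, 0, 0, 0, 0, 0, 0, 0, 0, 0, 1]), (false, [0, 0, 0, 0, 0, 0, 0, 0, 0, 0, 0, 0, 0, 0,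
  0, 0, 0, 1]), (false, [0, 0, 0, 0, 0, 0, 0, 0, 0, 0, 0, 0, 0, 0, 0, 0, 0, 0, 1]), (false, [0, 0,
  0, 0, 0, 0, 0, 0, 0, 0, 0, 0, 0, 0, 0, 0, 0, 0, 0, 1]), (false, [0, 0, 0, 0, 0, 0, 0, 0, 0, 0, 0,
  0, 0, 0, 0, 0, 0, 0, 0, 0, 1]), (false, [0, 0, 0, 0, 0, 0, 0, 0, 0, 0, 0, 0, 0, 0, 0, 0, 0, 0, 0,
  0, 0, 1]), (false, [0, 0, 0, 0, 0, 0, 0, 0, 0, 0, 0, 0, 0, 0, 0, 0, 0, 0, 0, 0, 0, 0, 1])]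

/-- root constraints of type 3 -/
def F3 : List (Bool × List ℤ) :=
  [(false, [1, -1, -1, -1, -1, -1, 0, 0, -1, -1, -1, -1, -1, 0, 0, -1, -1, -1, -1, -1]), (true, [-4,
  7, 7, 7, 7, 7, 0, 0, 7, 7, 7, 7, 7]), (true, [-4, 7, 7, 7, 7, 7, 0, 0, 0, 0, 0, 0, 0, 0, 0, 7, 7,
  7, 7, 7]), (true, [-4, 0, 0, 0, 0, 0, 0, 0, 7, 7, 7, 7, 7, 0, 0, 7, 7, 7, 7, 7]), (false, [-4, 0,
  0, 0, 0, 0, 0, 0, 0, 0, 0, 0, 0, 0, 0, 0, 0, 0, 0, 0, 0, 0, 7]), (false, [0, -1, -2, -3, -4, -4,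
  -1, -1, 0, 0, 0, 0, 0, 0, 0, 0, 0, 0, 0, 0, 0, 0, 1]), (false, [0, 0, 0, 0, 0, 0, 0, 0, -1, -2,
  -3, -4, -4, -1, 0, 0, 0, 0, 0, 0, 0, 0, 1]), (false, [0, 0, 0, 0, 0, 0, 0, 0, 0, 0, 0, 0, 0, 0, 0,
  -1, -2, -3, -4, -4, -1, 0, 1]), (true, [-1, -7, -7, -7, 7, -7]), (true, [-1, 0, 0, 0, 0, 0, 0, 0,
  -7, -7, -7, 7, -7]), (false, [0, 0, 0, 0, 0, 0, 0, 0, 0, 0, 0, 0, 0, 0, 0, 0, 0, 0, -1]), (false,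
  [0, 0, 0, 0, 0, 0, 0, 0, 0, 0, 0, 0, 0, 0, 0, 0, 0, 0, 0, 0, -1]), (false, [0, 1]), (false, [0, 0,
  1]), (false, [0, 0, 0, 1]), (false, [0, 0, 0, 0, 1]), (false, [0, 0, 0, 0, 0, 1]), (false, [0, 0,
  0, 0, 0, 0, 1]), (false, [0, 0, 0, 0, 0, 0, 0, 1]), (false, [0, 0, 0, 0, 0, 0, 0, 0, 1]), (false,
  [0, 0, 0, 0, 0, 0, 0, 0, 0, 1]), (false, [0, 0, 0, 0, 0, 0, 0, 0, 0, 0, 1]), (false, [0, 0, 0, 0,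
  0, 0, 0, 0, 0, 0, 0, 1]), (false, [0, 0, 0, 0, 0, 0, 0, 0, 0, 0, 0, 0, 1]), (false, [0, 0, 0, 0,
  0, 0, 0, 0, 0, 0, 0, 0, 0, 1]), (false, [0, 0, 0, 0, 0, 0, 0, 0, 0, 0, 0, 0, 0, 0, 1]), (false,
  [0, 0, 0, 0, 0, 0, 0, 0, 0, 0, 0, 0, 0, 0, 0, 1]), (false, [0, 0, 0, 0, 0, 0, 0, 0, 0, 0, 0, 0, 0,
  0, 0, 0, 1]), (false, [0, 0, 0, 0, 0, 0, 0, 0, 0, 0, 0, 0, 0, 0, 0, 0, 0, 1]), (false, [0, 0, 0,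
  0, 0, 0, 0, 0, 0, 0, 0, 0, 0, 0, 0, 0, 0, 0, 1]), (false, [0, 0, 0, 0, 0, 0, 0, 0, 0, 0, 0, 0, 0,
  0, 0, 0, 0, 0, 0, 1]), (false, [0, 0, 0, 0, 0, 0, 0, 0, 0, 0, 0, 0, 0, 0, 0, 0, 0, 0, 0, 0, 1]),
  (false, [0, 0, 0, 0, 0, 0, 0, 0, 0, 0, 0, 0, 0, 0, 0, 0, 0, 0, 0, 0, 0, 1]), (false, [0, 0, 0, 0,
  0, 0, 0, 0, 0, 0, 0, 0, 0, 0, 0, 0, 0, 0, 0, 0, 0, 0, 1])]

/-- root constraints of type 4 -/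
def F4 : List (Bool × List ℤ) :=
  [(false, [1, -1, -1, -1, -1, -1, 0, 0, -1, -1, -1, -1, -1, 0, 0, -1, -1, -1, -1, -1]), (true, [-4,
  7, 7, 7, 7, 7, 0, 0, 7, 7, 7, 7, 7]), (true, [-4, 7, 7, 7, 7, 7, 0, 0, 0, 0, 0, 0, 0, 0, 0, 7, 7,
  7, 7, 7]), (true, [-4, 0, 0, 0, 0, 0, 0, 0, 7, 7, 7, 7, 7, 0, 0, 7, 7, 7, 7, 7]), (false, [-4, 0,
  0, 0, 0, 0, 0, 0, 0, 0, 0, 0, 0, 0, 0, 0, 0, 0, 0, 0, 0, 0, 7]), (false, [0, -1, -2, -3, -4, -4,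
  -1, -1, 0, 0, 0, 0, 0, 0, 0, 0, 0, 0, 0, 0, 0, 0, 1]), (false, [0, 0, 0, 0, 0, 0, 0, 0, -1, -2,
  -3, -4, -4, -1, 0, 0, 0, 0, 0, 0, 0, 0, 1]), (false, [0, 0, 0, 0, 0, 0, 0, 0, 0, 0, 0, 0, 0, 0, 0,
  -1, -2, -3, -4, -4, -1, 0, 1]), (true, [-1, 0, 0, 0, 0, 0, 0, 0, 0, 0, 0, 0, 0, 0, 0, -7, -7, -7,
  7, -7]), (false, [0, 0, 0, 0, -1]), (false, [0, 0, 0, 0, 0, 0, -1]), (false, [0, 0, 0, 0, 0, 0, 0,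
  0, 0, 0, 0, -1]), (false, [0, 0, 0, 0, 0, 0, 0, 0, 0, 0, 0, 0, 0, -1]), (false, [0, 1]), (false,
  [0, 0, 1]), (false, [0, 0, 0, 1]), (false, [0, 0, 0, 0, 1]), (false, [0, 0, 0, 0, 0, 1]), (false,
  [0, 0, 0, 0, 0, 0, 1]), (false, [0, 0, 0, 0, 0, 0, 0, 1]), (false, [0, 0, 0, 0, 0, 0, 0, 0, 1]),
  (false, [0, 0, 0, 0, 0, 0, 0, 0, 0, 1]), (false, [0, 0, 0, 0, 0, 0, 0, 0, 0, 0, 1]), (false, [0,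
  0, 0, 0, 0, 0, 0, 0, 0, 0, 0, 1]), (false, [0, 0, 0, 0, 0, 0, 0, 0, 0, 0, 0, 0, 1]), (false, [0,
  0, 0, 0, 0, 0, 0, 0, 0, 0, 0, 0, 0, 1]), (false, [0, 0, 0, 0, 0, 0, 0, 0, 0, 0, 0, 0, 0, 0, 1]),
  (false, [0, 0, 0, 0, 0, 0, 0, 0, 0, 0, 0, 0, 0, 0, 0, 1]), (false, [0, 0, 0, 0, 0, 0, 0, 0, 0, 0,
  0, 0, 0, 0, 0, 0, 1]), (false, [0, 0, 0, 0, 0, 0, 0, 0, 0, 0, 0, 0, 0, 0, 0, 0, 0, 1]), (false,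
  [0, 0, 0, 0, 0, 0, 0, 0, 0, 0, 0, 0, 0, 0, 0, 0, 0, 0, 1]), (false, [0, 0, 0, 0, 0, 0, 0, 0, 0, 0,
  0, 0, 0, 0, 0, 0, 0, 0, 0, 1]), (false, [0, 0, 0, 0, 0, 0, 0, 0, 0, 0, 0, 0, 0, 0, 0, 0, 0, 0, 0,
  0, 1]), (false, [0, 0, 0, 0, 0, 0, 0, 0, 0, 0, 0, 0, 0, 0, 0, 0, 0, 0, 0, 0, 0, 1]), (false, [0,
  0, 0, 0, 0, 0, 0, 0, 0, 0, 0, 0, 0, 0, 0, 0, 0, 0, 0, 0, 0, 0, 1])]

/-- root constraints of type 5 -/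
def F5 : List (Bool × List ℤ) :=
  [(false, [1, -1, -1, -1, -1, -1, 0, 0, -1, -1, -1, -1, -1, 0, 0, -1, -1, -1, -1, -1]), (true, [-4,
  7, 7, 7, 7, 7, 0, 0, 7, 7, 7, 7, 7]), (true, [-4, 7, 7, 7, 7, 7, 0, 0, 0, 0, 0, 0, 0, 0, 0, 7, 7,
  7, 7, 7]), (true, [-4, 0, 0, 0, 0, 0, 0, 0, 7, 7, 7, 7, 7, 0, 0, 7, 7, 7, 7, 7]), (false, [-4, 0,
  0, 0, 0, 0, 0, 0, 0, 0, 0, 0, 0, 0, 0, 0, 0, 0, 0, 0, 0, 0, 7]), (false, [0, -1, -2, -3, -4, -4,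
  -1, -1, 0, 0, 0, 0, 0, 0, 0, 0, 0, 0, 0, 0, 0, 0, 1]), (false, [0, 0, 0, 0, 0, 0, 0, 0, -1, -2,
  -3, -4, -4, -1, 0, 0, 0, 0, 0, 0, 0, 0, 1]), (false, [0, 0, 0, 0, 0, 0, 0, 0, 0, 0, 0, 0, 0, 0, 0,
  -1, -2, -3, -4, -4, -1, 0, 1]), (true, [-1, -7, -7, -7, 7, -7]), (true, [-1, 0, 0, 0, 0, 0, 0, 0,
  0, 0, 0, 0, 0, 0, 0, -7, -7, -7, 7, -7]), (false, [0, 0, 0, 0, 0, 0, 0, 0, 0, 0, 0, -1]), (false,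
  [0, 0, 0, 0, 0, 0, 0, 0, 0, 0, 0, 0, 0, -1]), (false, [0, 1]), (false, [0, 0, 1]), (false, [0, 0,
  0, 1]), (false, [0, 0, 0, 0, 1]), (false, [0, 0, 0, 0, 0, 1]), (false, [0, 0, 0, 0, 0, 0, 1]),
  (false, [0, 0, 0, 0, 0, 0, 0, 1]), (false, [0, 0, 0, 0, 0, 0, 0, 0, 1]), (false, [0, 0, 0, 0, 0,
  0, 0, 0, 0, 1]), (false, [0, 0, 0, 0, 0, 0, 0, 0, 0, 0, 1]), (false, [0, 0, 0, 0, 0, 0, 0, 0, 0,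
  0, 0, 1]), (false, [0, 0, 0, 0, 0, 0, 0, 0, 0, 0, 0, 0, 1]), (false, [0, 0, 0, 0, 0, 0, 0, 0, 0,
  0, 0, 0, 0, 1]), (false, [0, 0, 0, 0, 0, 0, 0, 0, 0, 0, 0, 0, 0, 0, 1]), (false, [0, 0, 0, 0, 0,
  0, 0, 0, 0, 0, 0, 0, 0, 0, 0, 1]), (false, [0, 0, 0, 0, 0, 0, 0, 0, 0, 0, 0, 0, 0, 0, 0, 0, 1]),
  (false, [0, 0, 0, 0, 0, 0, 0, 0, 0, 0, 0, 0, 0, 0, 0, 0, 0, 1]), (false, [0, 0, 0, 0, 0, 0, 0, 0,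
  0, 0, 0, 0, 0, 0, 0, 0, 0, 0, 1]), (false, [0, 0, 0, 0, 0, 0, 0, 0, 0, 0, 0, 0, 0, 0, 0, 0, 0, 0,
  0, 1]), (false, [0, 0, 0, 0, 0, 0, 0, 0, 0, 0, 0, 0, 0, 0, 0, 0, 0, 0, 0, 0, 1]), (false, [0, 0,
  0, 0, 0, 0, 0, 0, 0, 0, 0, 0, 0, 0, 0, 0, 0, 0, 0, 0, 0, 1]), (false, [0, 0, 0, 0, 0, 0, 0, 0, 0,
  0, 0, 0, 0, 0, 0, 0, 0, 0, 0, 0, 0, 0, 1])]

/-- root constraints of type 6 -/
def F6 : List (Bool × List ℤ) :=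
  [(false, [1, -1, -1, -1, -1, -1, 0, 0, -1, -1, -1, -1, -1, 0, 0, -1, -1, -1, -1, -1]), (true, [-4,
  7, 7, 7, 7, 7, 0, 0, 7, 7, 7, 7, 7]), (true, [-4, 7, 7, 7, 7, 7, 0, 0, 0, 0, 0, 0, 0, 0, 0, 7, 7,
  7, 7, 7]), (true, [-4, 0, 0, 0, 0, 0, 0, 0, 7, 7, 7, 7, 7, 0, 0, 7, 7, 7, 7, 7]), (false, [-4, 0,
  0, 0, 0, 0, 0, 0, 0, 0, 0, 0, 0, 0, 0, 0, 0, 0, 0, 0, 0, 0, 7]), (false, [0, -1, -2, -3, -4, -4,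
  -1, -1, 0, 0, 0, 0, 0, 0, 0, 0, 0, 0, 0, 0, 0, 0, 1]), (false, [0, 0, 0, 0, 0, 0, 0, 0, -1, -2,
  -3, -4, -4, -1, 0, 0, 0, 0, 0, 0, 0, 0, 1]), (false, [0, 0, 0, 0, 0, 0, 0, 0, 0, 0, 0, 0, 0, 0, 0,
  -1, -2, -3, -4, -4, -1, 0, 1]), (true, [-1, 0, 0, 0, 0, 0, 0, 0, -7, -7, -7, 7, -7]), (true, [-1,
  0, 0, 0, 0, 0, 0, 0, 0, 0, 0, 0, 0, 0, 0, -7, -7, -7, 7, -7]), (false, [0, 0, 0, 0, -1]), (false,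
  [0, 0, 0, 0, 0, 0, -1]), (false, [0, 1]), (false, [0, 0, 1]), (false, [0, 0, 0, 1]), (false, [0,
  0, 0, 0, 1]), (false, [0, 0, 0, 0, 0, 1]), (false, [0, 0, 0, 0, 0, 0, 1]), (false, [0, 0, 0, 0, 0,
  0, 0, 1]), (false, [0, 0, 0, 0, 0, 0, 0, 0, 1]), (false, [0, 0, 0, 0, 0, 0, 0, 0, 0, 1]), (false,
  [0, 0, 0, 0, 0, 0, 0, 0, 0, 0, 1]), (false, [0, 0, 0, 0, 0, 0, 0, 0, 0, 0, 0, 1]), (false, [0, 0,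
  0, 0, 0, 0, 0, 0, 0, 0, 0, 0, 1]), (false, [0, 0, 0, 0, 0, 0, 0, 0, 0, 0, 0, 0, 0, 1]), (false,
  [0, 0, 0, 0, 0, 0, 0, 0, 0, 0, 0, 0, 0, 0, 1]), (false, [0, 0, 0, 0, 0, 0, 0, 0, 0, 0, 0, 0, 0, 0,
  0, 1]), (false, [0, 0, 0, 0, 0, 0, 0, 0, 0, 0, 0, 0, 0, 0, 0, 0, 1]), (false, [0, 0, 0, 0, 0, 0,
  0, 0, 0, 0, 0, 0, 0, 0, 0, 0, 0, 1]), (false, [0, 0, 0, 0, 0, 0, 0, 0, 0, 0, 0, 0, 0, 0, 0, 0, 0,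
  0, 1]), (false, [0, 0, 0, 0, 0, 0, 0, 0, 0, 0, 0, 0, 0, 0, 0, 0, 0, 0, 0, 1]), (false, [0, 0, 0,
  0, 0, 0, 0, 0, 0, 0, 0, 0, 0, 0, 0, 0, 0, 0, 0, 0, 1]), (false, [0, 0, 0, 0, 0, 0, 0, 0, 0, 0, 0,
  0, 0, 0, 0, 0, 0, 0, 0, 0, 0, 1]), (false, [0, 0, 0, 0, 0, 0, 0, 0, 0, 0, 0, 0, 0, 0, 0, 0, 0, 0,
  0, 0, 0, 0, 1])]

/-- root constraints of type 7 -/
def F7 : List (Bool × List ℤ) :=
  [(false, [1, -1, -1, -1, -1, -1, 0, 0, -1, -1, -1, -1, -1, 0, 0, -1, -1, -1, -1, -1]), (true, [-4,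
  7, 7, 7, 7, 7, 0, 0, 7, 7, 7, 7, 7]), (true, [-4, 7, 7, 7, 7, 7, 0, 0, 0, 0, 0, 0, 0, 0, 0, 7, 7,
  7, 7, 7]), (true, [-4, 0, 0, 0, 0, 0, 0, 0, 7, 7, 7, 7, 7, 0, 0, 7, 7, 7, 7, 7]), (false, [-4, 0,
  0, 0, 0, 0, 0, 0, 0, 0, 0, 0, 0, 0, 0, 0, 0, 0, 0, 0, 0, 0, 7]), (false, [0, -1, -2, -3, -4, -4,
  -1, -1, 0, 0, 0, 0, 0, 0, 0, 0, 0, 0, 0, 0, 0, 0, 1]), (false, [0, 0, 0, 0, 0, 0, 0, 0, -1, -2,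
  -3, -4, -4, -1, 0, 0, 0, 0, 0, 0, 0, 0, 1]), (false, [0, 0, 0, 0, 0, 0, 0, 0, 0, 0, 0, 0, 0, 0, 0,
  -1, -2, -3, -4, -4, -1, 0, 1]), (true, [-1, -7, -7, -7, 7, -7]), (true, [-1, 0, 0, 0, 0, 0, 0, 0,
  -7, -7, -7, 7, -7]), (true, [-1, 0, 0, 0, 0, 0, 0, 0, 0, 0, 0, 0, 0, 0, 0, -7, -7, -7, 7, -7]),
  (false, [0, 1]), (false, [0, 0, 1]), (false, [0, 0, 0, 1]), (false, [0, 0, 0, 0, 1]), (false, [0,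
  0, 0, 0, 0, 1]), (false, [0, 0, 0, 0, 0, 0, 1]), (false, [0, 0, 0, 0, 0, 0, 0, 1]), (false, [0, 0,
  0, 0, 0, 0, 0, 0, 1]), (false, [0, 0, 0, 0, 0, 0, 0, 0, 0, 1]), (false, [0, 0, 0, 0, 0, 0, 0, 0,
  0, 0, 1]), (false, [0, 0, 0, 0, 0, 0, 0, 0, 0, 0, 0, 1]), (false, [0, 0, 0, 0, 0, 0, 0, 0, 0, 0,
  0, 0, 1]), (false, [0, 0, 0, 0, 0, 0, 0, 0, 0, 0, 0, 0, 0, 1]), (false, [0, 0, 0, 0, 0, 0, 0, 0,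
  0, 0, 0, 0, 0, 0, 1]), (false, [0, 0, 0, 0, 0, 0, 0, 0, 0, 0, 0, 0, 0, 0, 0, 1]), (false, [0, 0,
  0, 0, 0, 0, 0, 0, 0, 0, 0, 0, 0, 0, 0, 0, 1]), (false, [0, 0, 0, 0, 0, 0, 0, 0, 0, 0, 0, 0, 0, 0,
  0, 0, 0, 1]), (false, [0, 0, 0, 0, 0, 0, 0, 0, 0, 0, 0, 0, 0, 0, 0, 0, 0, 0, 1]), (false, [0, 0,
  0, 0, 0, 0, 0, 0, 0, 0, 0, 0, 0, 0, 0, 0, 0, 0, 0, 1]), (false, [0, 0, 0, 0, 0, 0, 0, 0, 0, 0, 0,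
  0, 0, 0, 0, 0, 0, 0, 0, 0, 1]), (false, [0, 0, 0, 0, 0, 0, 0, 0, 0, 0, 0, 0, 0, 0, 0, 0, 0, 0, 0,
  0, 0, 1]), (false, [0, 0, 0, 0, 0, 0, 0, 0, 0, 0, 0, 0, 0, 0, 0, 0, 0, 0, 0, 0, 0, 0, 1])]

end Pool.LDV2.Y3
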