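import Pool.Agent.H21.LPT.Check2

/-!
# Checking a tree in parts

`TH` is a tree whose leaves are trees; `hol` lists these trees with the constraints met on the way.
If all of them pass the checker, the whole tree does.
-/

set_option autoImplicit false

namespace Pool.LPT2

open Pool.LPT

/-- trees whose leaves are trees -/
inductive TH : Type
  | ho (t : Tr) : TH
  | br (k : ℕ) (a b : TH) : TH

/-- the whole tree -/
def TH.tr : TH → Tr
  | .ho t => t
  | .br k a b => .br k a.tr b.tr

/-- a tree with its constraints -/
abbrev Job : Type := Tr × (List (Bool × List ℤ) × List ℕ)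

/-- the checker on a job -/
def job (TL : List (List (List ℤ))) (q : Job) : Bool := check TL q.1 q.2.1 q.2.2

/-- list of the jobs -/
def hol (TL : List (List (List ℤ))) : TH → List (Bool × List ℤ) → List ℕ → List Job → List Job
  | .ho t, E, N, acc => (t, (E, N)) :: acc
  | .br k a b, E, N, acc =>
    hol TL a ((true, pc TL k) :: E) N (hol TL b ((false, lmul (-1) (pc TL k)) :: E) (k :: N) acc)

lemma check_hol (TL : List (List (List ℤ))) (h : TH) : ∀ (E : List (Bool × List ℤ)) (N : List ℕ)
    (acc : List Job), (∀ q ∈ hol TL h E N acc, job TL q = true) →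
      check TL h.tr E N = true ∧ ∀ q ∈ acc, job TL q = true := by
  induction h with
  | ho t =>
    intro E N acc H
    exact ⟨H (t, (E, N)) List.mem_cons_self, fun q hq => H q (List.mem_cons_of_mem _ hq)⟩
  | br k a b iha ihb =>
    intro E N acc H
    obtain ⟨h1, h2⟩ := iha _ _ _ H
    obtain ⟨h3, h4⟩ := ihb _ _ _ h2
    refine ⟨?_, h4⟩
    show (check TL a.tr ((true, pc TL k) :: E) N &&
      check TL b.tr ((false, lmul (-1) (pc TL k)) :: E) (k :: N)) = true
    rw [h1, h3]
    rfl

/-- the jobs `n, .., n + m - 1` pass -/
def rng (TL : List (List (List ℤ))) (h : TH) (F : List (Bool × List ℤ)) (n m : ℕ) : Bool :=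
  (((hol TL h F [] []).drop n).take m).all (job TL)

/-- there are at most `n` jobs -/
def fin (TL : List (List (List ℤ))) (h : TH) (F : List (Bool × List ℤ)) (n : ℕ) : Bool :=
  ((hol TL h F [] []).drop n).isEmpty

lemma tail_of_fin {TL : List (List (List ℤ))} {h : TH} {F : List (Bool × List ℤ)} {n : ℕ}
    (H : fin TL h F n = true) : ((hol TL h F [] []).drop n).all (job TL) = true := by
  unfold fin at H
  rw [List.isEmpty_iff] at H
  rw [H]
  rfl

lemma tail_of_rng {TL : List (List (List ℤ))} {h : TH} {F : List (Bool × List ℤ)} {n : ℕ} (m : ℕ)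
    (H : rng TL h F n m = true) (H2 : ((hol TL h F [] []).drop (n + m)).all (job TL) = true) :
    ((hol TL h F [] []).drop n).all (job TL) = true := by
  unfold rng at H
  rw [← List.take_append_drop m ((hol TL h F [] []).drop n), List.all_append, H, List.drop_drop, H2]
  rfl

lemma check_of_tail {TL : List (List (List ℤ))} {h : TH} {F : List (Bool × List ℤ)}
    (H : ((hol TL h F [] []).drop 0).all (job TL) = true) : check TL h.tr F [] = true := by
  refine (check_hol TL h F [] [] ?_).1
  intro q hq
  rw [List.drop_zero, List.all_eq_true] at H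
  exact H q hq

end Pool.LPT2
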