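import Pool.Agent.H10.LDV2.Stmts2

/-!
# LDV2: label system with subset extraction (tool SB) inside the tree

Same as `Pool.LDV2.LS`, but instead of a fixed bound `c l 9 ≤ h` for the block of the exponents `> E`
there is the field `S9`: for EVERY `θ` the block has cost `< θ` unless the third alternative is
available for all costs in `[θ, ρ]`.  (No tool `F`.)  This makes `E = 3` and `T = 4 / 7` possible.
-/

set_option autoImplicit false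

namespace Pool.LDV2

open Finset Pool.Agent.H98.ABCR Pool.SHA Pool.BL Pool.LDV

/-- the label system: labels `1, .., E` = layers, `8` = one big layer of exponent `> E` (or nothing),
`9` = the other exponents `> E` (and the tail `t l`); all tools fail (`a` has index `0`) -/
structure LSY (E : ℕ) (T m : ℝ) (c g : Fin 3 → ℕ → ℝ) (x : Fin 3 → ℝ) : Prop where
  hc : ∀ l n, 0 ≤ c l n
  hg : ∀ l n, 0 ≤ g l n
  hx : ∀ l, x l = ∑ n ∈ Icc 1 E, c l n + c l 8 + c l 9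
  ge : ∀ l, ∀ n ∈ Icc 1 E, g l n = (n : ℝ) * c l n
  g8 : ∀ l, ((E : ℝ) + 1) * c l 8 ≤ g l 8
  g9 : ∀ l, ((E : ℝ) + 1) * c l 9 ≤ g l 9
  S9 : ∀ (i j k : Fin 3) (θ : ℝ), i ≠ j → i ≠ k → j ≠ k → 0 ≤ θ →
    2 * θ ≤ T - 1 / 2 + x i / 2 → θ ≤ c i 9 →
    (∀ q : ℝ, θ ≤ q → q ≤ T - 1 / 2 + x i / 2 →
      q + (Phi4 (x j) (((E : ℝ) + 1) * q) + Phi4 (x k) (((E : ℝ) + 1) * q)) / 2 ≤ T) → False
  hb : ∀ l, (c l 8 = 0 ∧ g l 8 = 0) ∨ T - 1 / 2 + x l / 2 < c l 8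
  hs : x 0 + x 1 + x 2 ≤ 1
  ht : ∀ j k, j ≠ k → T < x j + x k
  hm : T ≤ m
  G0 : ∀ l, ∑ n ∈ Icc 1 E, g l n + g l 8 + g l 9 ≤ m
  G1 : ∀ l, l ≠ 0 → ∑ n ∈ Icc 1 E, g l n + g l 8 + g l 9 = m
  C : ∀ (i j k : Fin 3) (K : Finset ℕ), i ≠ j → i ≠ k → j ≠ k → K ⊆ labs E →
    T < ∑ n ∈ K, c i n + (Phi4 (x j) (∑ n ∈ K, g i n) + Phi4 (x k) (∑ n ∈ K, g i n)) / 2
  L : ∀ (i j k : Fin 3) (K : Finset ℕ) (e : ℕ), i ≠ j → i ≠ k → j ≠ k → K ⊆ labs E →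
    e ∈ Icc 1 E → T < ∑ n ∈ K, c i n + (x j - c j e) + (x k - c k e) +
      max 0 (c j e + c k e - ∑ n ∈ K, g i n)
  R : ∀ (l : Fin 3) (e : ℕ), l ≠ 0 → e ∈ insert 8 (Icc 1 E) →
    T < x 1 + x 2 - min (c l e) (m - (∑ n ∈ Icc 1 E, g 0 n + g 0 8 + g 0 9))
  K : ∀ (i j k : Fin 3) (D K : Finset ℕ) (d : ℕ), i ≠ j → i ≠ k → j ≠ k → 2 ≤ d →
    ((D ⊆ Icc 1 E ∧ ∀ n ∈ D, d ∣ n) ∨ D = {8}) → K ⊆ labs E → Disjoint D K →
    T < ∑ n ∈ K, c i n + x k ∨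
      T < (x i - ∑ n ∈ D, c i n) + (Phi4 (x j) (∑ n ∈ K, g i n) + x k) / 2
  N : T < ∑ l, (x l - c l 2) + max 0 (c 0 2 + c 1 2 + c 2 2 - m)

/-- LPY: the label system has no solution (tree of linear programmes, machine) -/
def S_LPY (E : ℕ) (T : ℝ) : Prop := ∀ (m : ℝ) (c g : Fin 3 → ℕ → ℝ) (x : Fin 3 → ℝ),
  LSY E T m c g x → False

/-- CHY: REDUCTION TO THE LABELS (as `S_CHW`), for every `1 / 2 < T` and `1 ≤ E ≤ 4`.  If all alternatives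
fail: `x_l` = the costs, `T < x_j + x_k`, `ρ_l = T - 1 / 2 + x_l / 2 > x_l / 2`.  `H_l = Icc (E + 1) J`; at most
one element `e0` of `H_l` has cost `> ρ_l`.  Labels: `c l n = p l n` (`n ≤ E`), `c l 8 = p l e0` (or `0`),
`c l 9` = cost of the rest of `H_l`, `g l 9 = t l + ∑ e p` over the rest.  Field `S9`: if `θ ≤ c l 9`,
`2 θ ≤ ρ_l`, then by `Pool.BL.S_SUB` some `K ⊆` rest of `H_l` has cost `q ∈ [θ, ρ_l]` and gain
`t l + ∑_K e p ≥ (E + 1) q`; `Phi4` decreases in `g`: third alternative.  The other fields: as in `S_CHW`. -/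
def S_CHY : Prop := ∀ (E : ℕ) (T : ℝ), 1 ≤ E → E ≤ 4 → 1 / 2 < T → S_LPY E T → CHG T

end Pool.LDV2
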