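import Pool.Agent.H21.LDV2.Stmts3
import Pool.Agent.H21.LPT.Check2

/-!
# The tools of the label system `LSY 3 (4 / 7)` as lists of forms
-/

set_option autoImplicit false

namespace Pool.LDV2.Y3

open Finset Pool.LPT Pool.LPT2 Pool.BL Pool.LDV

/-- coordinate form -/
def unit (n : ℕ) : List ℤ := List.replicate n 0 ++ [1]

/-- linear combination -/
def lc : List (ℤ × List ℤ) → List ℤ
  | [] => []
  | p :: L => ladd (lmul p.1 p.2) (lc L)

/-- index of the cost of label `n` of coordinate `l` -/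
def idx (l : Fin 3) (n : ℕ) : ℕ := 1 + 7 * l.val + (if n = 8 then 3 else if n = 9 then 4 else n - 1)

/-- cost -/
def cf (l : Fin 3) (n : ℕ) : List ℤ := unit (idx l n)

/-- gain -/
def gf (l : Fin 3) (n : ℕ) : List ℤ :=
  if n = 8 then lc [(4, cf l 8), (1, unit (6 + 7 * l.val))]
  else if n = 9 then (if l = 0 then lc [(4, cf 0 9), (1, unit 7)]
    else lc [(1, unit 22), (-1, cf l 1), (-2, cf l 2), (-3, cf l 3), (-4, cf l 8),
      (-1, unit (6 + 7 * l.val))])
  else lmul n (cf l n)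

/-- sum of forms -/
def sumf : List (List ℤ) → List ℤ
  | [] => []
  | a :: L => ladd a (sumf L)

/-- cost of a list of labels -/
def costf (l : Fin 3) (K : List ℕ) : List ℤ := sumf (K.map (cf l))

/-- gain of a list of labels -/
def gainf (l : Fin 3) (K : List ℕ) : List ℤ := sumf (K.map (gf l))

/-- all the labels -/
def labL : List ℕ := [1, 2, 3, 8, 9]

/-- the cost of a coordinate -/
def xf (l : Fin 3) : List ℤ := costf l labL

/-- tools -/
inductive Tool : Type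
  | C1 (i j k : Fin 3) (K : List ℕ) : Tool
  | C3 (i j k : Fin 3) (K : List ℕ) : Tool
  | L (i j k : Fin 3) (e : ℕ) (K : List ℕ) : Tool
  | R (l : Fin 3) (e : ℕ) : Tool
  | K1 (i j k : Fin 3) (D : List ℕ) (d : ℕ) (K : List ℕ) : Tool
  | K3 (i j k : Fin 3) (D : List ℕ) (d : ℕ) (K : List ℕ) : Tool
  | N : Tool
  | S1 (i j k : Fin 3) (u v : ℕ) : Tool
  | S3 (i j k : Fin 3) (u v : ℕ) : Tool

/-- pieces of `28 Phi x g` -/
def A1 (x g : List ℤ) : List (List ℤ) :=
  [lc [(28, x)], lc [(42, x), (-7, g)], lc [(56, x), (-21, g)]]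

/-- pieces of `21 Phi3 x g` -/
def A3 (x g : List ℤ) : List (List ℤ) :=
  [lc [(21, x)], lc [(35, x), (-7, g)], lc [(42, x), (-21, g)]]

/-- pieces of `14 v Phi x (4 u / v)` -/
def B1 (x : List ℤ) (u v : ℕ) : List (List ℤ) :=
  [lc [(14 * v, x)], lc [(21 * v, x), (-(14 * u), [1])], lc [(28 * v, x), (-(42 * u), [1])]]

/-- pieces of `21 v Phi3 x (4 u / v)` -/
def B3 (x : List ℤ) (u v : ℕ) : List (List ℤ) :=
  [lc [(21 * v, x)], lc [(35 * v, x), (-(28 * u), [1])], lc [(42 * v, x), (-(84 * u), [1])]]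

/-- pieces of `56 Phi x (4 ρ)`, `r = 14 ρ` -/
def D1 (x r : List ℤ) : List (List ℤ) :=
  [lc [(56, x)], lc [(84, x), (-4, r)], lc [(112, x), (-12, r)]]

/-- pieces of `42 Phi3 x (4 ρ)`, `r = 14 ρ` -/
def D3 (x r : List ℤ) : List (List ℤ) :=
  [lc [(42, x)], lc [(70, x), (-4, r)], lc [(84, x), (-12, r)]]

/-- all the sums -/
def pr (A B : List (List ℤ)) (s : List ℤ) : List (List ℤ) :=
  A.flatMap (fun a => B.map (fun b => ladd s (ladd a b)))

/-- `14 ρ`, `ρ = 4 / 7 - 1 / 2 + x / 2` -/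
def rhof (l : Fin 3) : List ℤ := lc [(1, [1]), (7, xf l)]

/-- the pieces of a tool: the tool gives the exponent `4 / 7` iff all of them are `≤ 0` -/
def pieces : Tool → List (List ℤ)
  | .C1 i j k K => pr (A1 (xf j) (gainf i K)) (A1 (xf k) (gainf i K))
      (lc [(56, costf i K), (-32, [1])])
  | .C3 i j k K => pr (A3 (xf j) (gainf i K)) (A3 (xf k) (gainf i K))
      (lc [(42, costf i K), (-24, [1])])
  | .L i j k e K =>
      [lc [(7, costf i K), (7, xf j), (-7, cf j e), (7, xf k), (-7, cf k e), (-4, [1])],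
        lc [(7, costf i K), (7, xf j), (7, xf k), (-7, gainf i K), (-4, [1])]]
  | .R l e => [lc [(7, xf 1), (7, xf 2), (-7, cf l e), (-4, [1])],
      lc [(7, xf 1), (7, xf 2), (-7, unit 22), (7, gainf 0 labL), (-4, [1])]]
  | .K1 i j k D _ K => (A1 (xf j) (gainf i K)).map (fun a =>
        lc [(1, a), (56, xf i), (-56, costf i D), (28, xf k), (-32, [1])]) ++
      [lc [(56, costf i K), (56, xf k), (-32, [1])]]
  | .K3 i j k D _ K => (A3 (xf j) (gainf i K)).map (fun a =>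
        lc [(1, a), (42, xf i), (-42, costf i D), (21, xf k), (-24, [1])]) ++
      [lc [(42, costf i K), (42, xf k), (-24, [1])]]
  | .N => [lc [(7, xf 0), (-7, cf 0 2), (7, xf 1), (-7, cf 1 2), (7, xf 2), (-7, cf 2 2),
        (-4, [1])],
      lc [(7, xf 0), (7, xf 1), (7, xf 2), (-7, unit 22), (-4, [1])]]
  | .S1 i j k u v => [lc [((u : ℤ), [1]), (-(v : ℤ), cf i 9)],
        lc [(28 * (u : ℤ), [1]), (-(v : ℤ), rhof i)]] ++
      pr (B1 (xf j) u v) (B1 (xf k) u v) [28 * (u : ℤ) - 16 * v] ++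
      pr (D1 (xf j) (rhof i)) (D1 (xf k) (rhof i)) (lc [(8, rhof i), (-64, [1])])
  | .S3 i j k u v => [lc [((u : ℤ), [1]), (-(v : ℤ), cf i 9)],
        lc [(28 * (u : ℤ), [1]), (-(v : ℤ), rhof i)]] ++
      pr (B3 (xf j) u v) (B3 (xf k) u v) [42 * (u : ℤ) - 24 * v] ++
      pr (D3 (xf j) (rhof i)) (D3 (xf k) (rhof i)) (lc [(6, rhof i), (-48, [1])])

/-- the tool is one of the system -/
def ok : Tool → Bool
  | .C1 i j k K => decide (i ≠ j ∧ i ≠ k ∧ j ≠ k ∧ K.Nodup ∧ ∀ n ∈ K, n ∈ labL)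
  | .C3 i j k K => decide (i ≠ j ∧ i ≠ k ∧ j ≠ k ∧ K.Nodup ∧ ∀ n ∈ K, n ∈ labL)
  | .L i j k e K => decide (i ≠ j ∧ i ≠ k ∧ j ≠ k ∧ K.Nodup ∧ (∀ n ∈ K, n ∈ labL) ∧
      e ∈ ([1, 2, 3] : List ℕ))
  | .R l e => decide (l ≠ 0 ∧ e ∈ ([1, 2, 3, 8] : List ℕ))
  | .K1 i j k D d K => decide (i ≠ j ∧ i ≠ k ∧ j ≠ k ∧ D.Nodup ∧ K.Nodup ∧ 2 ≤ d ∧
      ((∀ n ∈ D, n ∈ ([1, 2, 3] : List ℕ) ∧ d ∣ n) ∨ D = [8]) ∧ (∀ n ∈ K, n ∈ labL) ∧
      ∀ n ∈ D, n ∉ K)
  | .K3 i j k D d K => decide (i ≠ j ∧ i ≠ k ∧ j ≠ k ∧ D.Nodup ∧ K.Nodup ∧ 2 ≤ d ∧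
      ((∀ n ∈ D, n ∈ ([1, 2, 3] : List ℕ) ∧ d ∣ n) ∨ D = [8]) ∧ (∀ n ∈ K, n ∈ labL) ∧
      ∀ n ∈ D, n ∉ K)
  | .N => true
  | .S1 i j k _ v => decide (i ≠ j ∧ i ≠ k ∧ j ≠ k ∧ 0 < v)
  | .S3 i j k _ v => decide (i ≠ j ∧ i ≠ k ∧ j ≠ k ∧ 0 < v)

/-- the point of a label system -/
noncomputable def vec (m : ℝ) (c g : Fin 3 → ℕ → ℝ) : ℕ → ℝ := fun n =>
  ([1, c 0 1, c 0 2, c 0 3, c 0 8, c 0 9, g 0 8 - 4 * c 0 8, g 0 9 - 4 * c 0 9,
    c 1 1, c 1 2, c 1 3, c 1 8, c 1 9, g 1 8 - 4 * c 1 8, 0,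
    c 2 1, c 2 2, c 2 3, c 2 8, c 2 9, g 2 8 - 4 * c 2 8, 0, m] : List ℝ).getD n 0

lemma ev_unit (n : ℕ) : ∀ v : ℕ → ℝ, ev (unit n) v = v n := by
  induction n with
  | zero => intro v; simp [unit, ev]
  | succ n ih =>
    intro v
    have h : unit (n + 1) = 0 :: unit n := by simp [unit, List.replicate_succ]
    rw [h]
    simp [ev, ih]

lemma ev_lc (L : List (ℤ × List ℤ)) (v : ℕ → ℝ) :
    ev (lc L) v = (L.map (fun p => (p.1 : ℝ) * ev p.2 v)).sum := by
  induction L with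
  | nil => simp [lc, ev]
  | cons p L ih => simp [lc, ev_ladd, ev_lmul, ih]

lemma ev_sumf (L : List (List ℤ)) (v : ℕ → ℝ) : ev (sumf L) v = (L.map (fun a => ev a v)).sum := by
  induction L with
  | nil => simp [sumf, ev]
  | cons p L ih => simp [sumf, ev_ladd, ih]

lemma ev_const (z : ℤ) (v : ℕ → ℝ) : ev [z] v = z * v 0 := by simp [ev]

section

variable {m : ℝ} {c g : Fin 3 → ℕ → ℝ} {x : Fin 3 → ℝ}

lemma vec0 : vec m c g 0 = 1 := rfl

lemma ev_cf (l : Fin 3) (n : ℕ) (hn : n ∈ labL) : ev (cf l n) (vec m c g) = c l n := by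
  unfold cf
  rw [ev_unit]
  simp only [labL, List.mem_cons, List.not_mem_nil, or_false] at hn
  fin_cases l <;> rcases hn with h | h | h | h | h <;> subst h <;> rfl

lemma ev_gf (H : LSY 3 (4 / 7) m c g x) (l : Fin 3) (n : ℕ) (hn : n ∈ labL) :
    ev (gf l n) (vec m c g) = g l n := by
  have h1 := H.ge l 1 (by simp)
  have h2 := H.ge l 2 (by simp)
  have h3 := H.ge l 3 (by simp)
  push_cast at h1 h2 h3
  have hG := H.G1 l
  have e : ∑ n ∈ Icc 1 3, g l n = g l 1 + g l 2 + g l 3 := by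
    rw [show Icc 1 3 = ({1, 2, 3} : Finset ℕ) from rfl]
    simp; ring
  rw [e] at hG
  simp only [labL, List.mem_cons, List.not_mem_nil, or_false] at hn
  have hc1 := ev_cf (m := m) (c := c) (g := g) l 1 (by simp [labL])
  have hc2 := ev_cf (m := m) (c := c) (g := g) l 2 (by simp [labL])
  have hc3 := ev_cf (m := m) (c := c) (g := g) l 3 (by simp [labL])
  have hc8 := ev_cf (m := m) (c := c) (g := g) l 8 (by simp [labL])
  have hc9 := ev_cf (m := m) (c := c) (g := g) l 9 (by simp [labL])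
  have hB : vec m c g (6 + 7 * l.val) = g l 8 - 4 * c l 8 := by
    fin_cases l <;> rfl
  have hm : vec m c g 22 = m := rfl
  rcases hn with h | h | h | h | h <;> subst h
  · simp [gf, ev_lmul, hc1, h1]
  · simp [gf, ev_lmul, hc2, h2]
  · simp [gf, ev_lmul, hc3, h3]
  · simp [gf, ev_lc, hc8, ev_unit, hB]
  · by_cases hl : l = 0
    · subst hl
      have h7 : vec m c g 7 = g 0 9 - 4 * c 0 9 := rfl
      simp [gf, ev_lc, hc9, ev_unit, h7]
    · have hG := hG hl
      have e9 : gf l 9 = lc [(1, unit 22), (-1, cf l 1), (-2, cf l 2), (-3, cf l 3), (-4, cf l 8),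
          (-1, unit (6 + 7 * l.val))] := by simp [gf, hl]
      rw [e9, ev_lc]
      simp only [List.map_cons, List.map_nil, List.sum_cons,
        List.sum_nil, hc1, hc2, hc3, hc8, ev_unit, hB, hm]
      push_cast
      linarith

lemma ev_costf (l : Fin 3) (K : List ℕ) (hK : ∀ n ∈ K, n ∈ labL) (hd : K.Nodup) :
    ev (costf l K) (vec m c g) = ∑ n ∈ K.toFinset, c l n := by
  unfold costf
  rw [ev_sumf, List.sum_toFinset _ hd, List.map_map]
  congr 1
  exact List.map_congr_left (fun n hn => ev_cf l n (hK n hn))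

lemma ev_gainf (H : LSY 3 (4 / 7) m c g x) (l : Fin 3) (K : List ℕ) (hK : ∀ n ∈ K, n ∈ labL)
    (hd : K.Nodup) : ev (gainf l K) (vec m c g) = ∑ n ∈ K.toFinset, g l n := by
  unfold gainf
  rw [ev_sumf, List.sum_toFinset _ hd, List.map_map]
  congr 1
  exact List.map_congr_left (fun n hn => ev_gf H l n (hK n hn))

lemma ev_xf (H : LSY 3 (4 / 7) m c g x) (l : Fin 3) : ev (xf l) (vec m c g) = x l := by
  unfold xf
  rw [ev_costf l labL (fun n hn => hn) (by decide), H.hx l]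
  rw [show (labL.toFinset) = ({1, 2, 3, 8, 9} : Finset ℕ) from rfl,
    show Icc 1 3 = ({1, 2, 3} : Finset ℕ) from rfl]
  simp; ring

lemma phi4_le_phi {a b : ℝ} (hb : 0 ≤ b) : Phi4 a b ≤ Phi a b := by
  unfold Phi4 Phi
  have h1 := le_max_left a (max (3 * a / 2 - b / 4) (2 * a - 3 * b / 4))
  have h2 := le_max_left (3 * a / 2 - b / 4) (2 * a - 3 * b / 4)
  have h3 := le_max_right (3 * a / 2 - b / 4) (2 * a - 3 * b / 4)
  have h4 := le_max_right a (max (3 * a / 2 - b / 4) (2 * a - 3 * b / 4))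
  refine max_le h1 (max_le ?_ (max_le ?_ ?_)) <;> linarith

lemma phi4_le_phi3 {a b : ℝ} : Phi4 a b ≤ Phi3 a b := by
  unfold Phi4 Phi3
  have h1 := le_max_left a (max ((5 * a - b) / 3) (2 * a - b))
  have h2 := le_max_left ((5 * a - b) / 3) (2 * a - b)
  have h3 := le_max_right ((5 * a - b) / 3) (2 * a - b)
  have h4 := le_max_right a (max ((5 * a - b) / 3) (2 * a - b))
  refine max_le h1 (max_le ?_ (max_le ?_ ?_)) <;> linarith

lemma phi_sum_le {s T a b a' b' : ℝ}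
    (h11 : s + (a + a') / 2 ≤ T) (h12 : s + (a + (3 * a' / 2 - b' / 4)) / 2 ≤ T)
    (h13 : s + (a + (2 * a' - 3 * b' / 4)) / 2 ≤ T)
    (h21 : s + ((3 * a / 2 - b / 4) + a') / 2 ≤ T)
    (h22 : s + ((3 * a / 2 - b / 4) + (3 * a' / 2 - b' / 4)) / 2 ≤ T)
    (h23 : s + ((3 * a / 2 - b / 4) + (2 * a' - 3 * b' / 4)) / 2 ≤ T)
    (h31 : s + ((2 * a - 3 * b / 4) + a') / 2 ≤ T)
    (h32 : s + ((2 * a - 3 * b / 4) + (3 * a' / 2 - b' / 4)) / 2 ≤ T)
    (h33 : s + ((2 * a - 3 * b / 4) + (2 * a' - 3 * b' / 4)) / 2 ≤ T) :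
    s + (Phi a b + Phi a' b') / 2 ≤ T := by
  have k : Phi a b ≤ 2 * (T - s) - Phi a' b' := by
    unfold Phi
    refine max_le ?_ (max_le ?_ ?_) <;>
    · rw [le_sub_comm]
      refine max_le ?_ (max_le ?_ ?_) <;> linarith
  linarith

lemma phi3_sum_le {s T a b a' b' : ℝ}
    (h11 : s + (a + a') / 2 ≤ T) (h12 : s + (a + (5 * a' - b') / 3) / 2 ≤ T)
    (h13 : s + (a + (2 * a' - b')) / 2 ≤ T)
    (h21 : s + ((5 * a - b) / 3 + a') / 2 ≤ T)
    (h22 : s + ((5 * a - b) / 3 + (5 * a' - b') / 3) / 2 ≤ T)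
    (h23 : s + ((5 * a - b) / 3 + (2 * a' - b')) / 2 ≤ T)
    (h31 : s + ((2 * a - b) + a') / 2 ≤ T)
    (h32 : s + ((2 * a - b) + (5 * a' - b') / 3) / 2 ≤ T)
    (h33 : s + ((2 * a - b) + (2 * a' - b')) / 2 ≤ T) :
    s + (Phi3 a b + Phi3 a' b') / 2 ≤ T := by
  have k : Phi3 a b ≤ 2 * (T - s) - Phi3 a' b' := by
    unfold Phi3
    refine max_le ?_ (max_le ?_ ?_) <;>
    · rw [le_sub_comm]
      refine max_le ?_ (max_le ?_ ?_) <;> linarith
  linarith

lemma forall_pr {A B : List (List ℤ)} {s : List ℤ} {P : List ℤ → Prop} :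
    (∀ f ∈ pr A B s, P f) ↔ ∀ a ∈ A, ∀ b ∈ B, P (ladd s (ladd a b)) := by
  unfold pr
  constructor
  · intro h a ha b hb
    exact h _ (List.mem_flatMap.2 ⟨a, ha, List.mem_map.2 ⟨b, hb, rfl⟩⟩)
  · intro h f hf
    obtain ⟨a, ha, hf⟩ := List.mem_flatMap.1 hf
    obtain ⟨b, hb, rfl⟩ := List.mem_map.1 hf
    exact h a ha b hb

lemma labs_of {K : List ℕ} (hK : ∀ n ∈ K, n ∈ labL) : K.toFinset ⊆ labs 3 := by
  intro n hn
  have := hK n (List.mem_toFinset.1 hn)
  simp only [labL, List.mem_cons, List.not_mem_nil, or_false] at this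
  unfold labs
  simp only [mem_insert, mem_Icc]
  omega

lemma snd_C1 (H : LSY 3 (4 / 7) m c g x) (i j k : Fin 3) (K : List ℕ)
    (ho : ok (.C1 i j k K) = true) (h : ∀ f ∈ pieces (.C1 i j k K), ev f (vec m c g) ≤ 0) :
    False := by
  simp only [ok, decide_eq_true_eq] at ho
  obtain ⟨hij, hik, hjk, hd, hK⟩ := ho
  have hC := H.C i j k K.toFinset hij hik hjk (labs_of hK)
  have hg0 : 0 ≤ ∑ n ∈ K.toFinset, g i n := sum_nonneg (fun n _ => H.hg i n)
  simp only [pieces] at h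
  rw [forall_pr] at h
  simp only [A1, List.forall_mem_cons, List.not_mem_nil, false_imp_iff, implies_true, and_true,
    ev_ladd, ev_lc, List.map_cons, List.map_nil, List.sum_cons, List.sum_nil, ev_xf H,
    ev_costf i K hK hd, ev_gainf H i K hK hd, ev_const, vec0] at h
  push_cast at h
  obtain ⟨⟨a1, a2, a3⟩, ⟨b1, b2, b3⟩, ⟨d1, d2, d3⟩⟩ := h
  have := phi_sum_le (s := ∑ n ∈ K.toFinset, c i n) (T := 4 / 7) (a := x j) (a' := x k)
    (b := ∑ n ∈ K.toFinset, g i n) (b' := ∑ n ∈ K.toFinset, g i n)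
    (by linarith) (by linarith) (by linarith) (by linarith) (by linarith) (by linarith)
    (by linarith) (by linarith) (by linarith)
  have e1 := phi4_le_phi (a := x j) hg0
  have e2 := phi4_le_phi (a := x k) hg0
  linarith

lemma snd_C3 (H : LSY 3 (4 / 7) m c g x) (i j k : Fin 3) (K : List ℕ)
    (ho : ok (.C3 i j k K) = true) (h : ∀ f ∈ pieces (.C3 i j k K), ev f (vec m c g) ≤ 0) :
    False := by
  simp only [ok, decide_eq_true_eq] at ho
  obtain ⟨hij, hik, hjk, hd, hK⟩ := ho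
  have hC := H.C i j k K.toFinset hij hik hjk (labs_of hK)
  simp only [pieces] at h
  rw [forall_pr] at h
  simp only [A3, List.forall_mem_cons, List.not_mem_nil, false_imp_iff, implies_true, and_true,
    ev_ladd, ev_lc, List.map_cons, List.map_nil, List.sum_cons, List.sum_nil, ev_xf H,
    ev_costf i K hK hd, ev_gainf H i K hK hd, ev_const, vec0] at h
  push_cast at h
  obtain ⟨⟨a1, a2, a3⟩, ⟨b1, b2, b3⟩, ⟨d1, d2, d3⟩⟩ := h
  have := phi3_sum_le (s := ∑ n ∈ K.toFinset, c i n) (T := 4 / 7) (a := x j) (a' := x k)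
    (b := ∑ n ∈ K.toFinset, g i n) (b' := ∑ n ∈ K.toFinset, g i n)
    (by linarith) (by linarith) (by linarith) (by linarith) (by linarith) (by linarith)
    (by linarith) (by linarith) (by linarith)
  have e1 := phi4_le_phi3 (a := x j) (b := ∑ n ∈ K.toFinset, g i n)
  have e2 := phi4_le_phi3 (a := x k) (b := ∑ n ∈ K.toFinset, g i n)
  linarith

lemma snd_L (H : LSY 3 (4 / 7) m c g x) (i j k : Fin 3) (e : ℕ) (K : List ℕ)
    (ho : ok (.L i j k e K) = true) (h : ∀ f ∈ pieces (.L i j k e K), ev f (vec m c g) ≤ 0) :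
    False := by
  simp only [ok, decide_eq_true_eq] at ho
  obtain ⟨hij, hik, hjk, hd, hK, he⟩ := ho
  have he' : e ∈ labL := by
    simp only [labL, List.mem_cons, List.not_mem_nil, or_false] at he ⊢
    omega
  have he2 : e ∈ Icc 1 3 := by
    simp only [List.mem_cons, List.not_mem_nil, or_false] at he
    simp only [mem_Icc]
    omega
  have hC := H.L i j k K.toFinset e hij hik hjk (labs_of hK) he2
  simp only [pieces] at h
  simp only [List.forall_mem_cons, List.not_mem_nil, false_imp_iff, implies_true, and_true,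
    ev_lc, List.map_cons, List.map_nil, List.sum_cons, List.sum_nil, ev_xf H,
    ev_costf i K hK hd, ev_gainf H i K hK hd, ev_const, vec0, ev_cf _ e he'] at h
  push_cast at h
  obtain ⟨h1, h2⟩ := h
  have : max 0 (c j e + c k e - ∑ n ∈ K.toFinset, g i n) ≤
      4 / 7 - (∑ n ∈ K.toFinset, c i n + (x j - c j e) + (x k - c k e)) :=
    max_le (by linarith) (by linarith)
  linarith

lemma snd_R (H : LSY 3 (4 / 7) m c g x) (l : Fin 3) (e : ℕ)
    (ho : ok (.R l e) = true) (h : ∀ f ∈ pieces (.R l e), ev f (vec m c g) ≤ 0) : False := by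
  simp only [ok, decide_eq_true_eq] at ho
  obtain ⟨hl, he⟩ := ho
  have he' : e ∈ labL := by
    simp only [labL, List.mem_cons, List.not_mem_nil, or_false] at he ⊢
    omega
  have he2 : e ∈ insert 8 (Icc 1 3) := by
    simp only [List.mem_cons, List.not_mem_nil, or_false] at he
    simp only [mem_insert, mem_Icc]
    omega
  have hC := H.R l e hl he2
  have hg : ev (gainf 0 labL) (vec m c g) = ∑ n ∈ Icc 1 3, g 0 n + g 0 8 + g 0 9 := by
    rw [ev_gainf H 0 labL (fun n hn => hn) (by decide)]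
    rw [show (labL.toFinset) = ({1, 2, 3, 8, 9} : Finset ℕ) from rfl,
      show Icc 1 3 = ({1, 2, 3} : Finset ℕ) from rfl]
    simp; ring
  have hm : vec m c g 22 = m := rfl
  simp only [pieces] at h
  simp only [List.forall_mem_cons, List.not_mem_nil, false_imp_iff, implies_true, and_true,
    ev_lc, List.map_cons, List.map_nil, List.sum_cons, List.sum_nil, ev_xf H, hg, ev_unit, hm,
    ev_const, vec0, ev_cf _ e he'] at h
  push_cast at h
  obtain ⟨h1, h2⟩ := h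
  have : x 1 + x 2 - 4 / 7 ≤ min (c l e) (m - (∑ n ∈ Icc 1 3, g 0 n + g 0 8 + g 0 9)) :=
    le_min (by linarith) (by linarith)
  linarith

lemma DK_of {D : List ℕ} {d : ℕ}
    (hD : (∀ n ∈ D, n ∈ ([1, 2, 3] : List ℕ) ∧ d ∣ n) ∨ D = [8]) :
    (∀ n ∈ D, n ∈ labL) ∧
      ((D.toFinset ⊆ Icc 1 3 ∧ ∀ n ∈ D.toFinset, d ∣ n) ∨ D.toFinset = {8}) := by
  rcases hD with hD | hD
  · refine ⟨fun n hn => ?_, Or.inl ⟨fun n hn => ?_, fun n hn => ?_⟩⟩
    · have := (hD n hn).1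
      simp only [labL, List.mem_cons, List.not_mem_nil, or_false] at this ⊢
      omega
    · have := (hD n (List.mem_toFinset.1 hn)).1
      simp only [List.mem_cons, List.not_mem_nil, or_false] at this
      simp only [mem_Icc]
      omega
    · exact (hD n (List.mem_toFinset.1 hn)).2
  · subst hD
    exact ⟨by simp [labL], Or.inr rfl⟩

lemma snd_K1 (H : LSY 3 (4 / 7) m c g x) (i j k : Fin 3) (D : List ℕ) (d : ℕ) (K : List ℕ)
    (ho : ok (.K1 i j k D d K) = true)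
    (h : ∀ f ∈ pieces (.K1 i j k D d K), ev f (vec m c g) ≤ 0) : False := by
  simp only [ok, decide_eq_true_eq] at ho
  obtain ⟨hij, hik, hjk, hdD, hd, h2, hD, hK, hDK⟩ := ho
  obtain ⟨hDl, hD'⟩ := DK_of hD
  have hdis : Disjoint D.toFinset K.toFinset := by
    rw [Finset.disjoint_left]
    intro n hn hn'
    exact hDK n (List.mem_toFinset.1 hn) (List.mem_toFinset.1 hn')
  have hC := H.K i j k D.toFinset K.toFinset d hij hik hjk h2 hD' (labs_of hK) hdis
  have hg0 : 0 ≤ ∑ n ∈ K.toFinset, g i n := sum_nonneg (fun n _ => H.hg i n)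
  simp only [pieces] at h
  simp only [A1, List.forall_mem_append, List.map_cons, List.map_nil,
    List.forall_mem_cons, List.not_mem_nil, false_imp_iff, implies_true, and_true,
    ev_lc, List.sum_cons, List.sum_nil, ev_xf H,
    ev_costf i K hK hd, ev_costf i D hDl hdD, ev_gainf H i K hK hd, ev_const, vec0] at h
  push_cast at h
  obtain ⟨⟨a1, a2, a3⟩, a4⟩ := h
  have e1 := phi4_le_phi (a := x j) hg0
  have e2 : Phi (x j) (∑ n ∈ K.toFinset, g i n) ≤
      2 * (4 / 7 - (x i - ∑ n ∈ D.toFinset, c i n)) - x k := by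
    unfold Phi
    refine max_le ?_ (max_le ?_ ?_) <;> linarith
  rcases hC with hC | hC
  · linarith
  · linarith

lemma snd_K3 (H : LSY 3 (4 / 7) m c g x) (i j k : Fin 3) (D : List ℕ) (d : ℕ) (K : List ℕ)
    (ho : ok (.K3 i j k D d K) = true)
    (h : ∀ f ∈ pieces (.K3 i j k D d K), ev f (vec m c g) ≤ 0) : False := by
  simp only [ok, decide_eq_true_eq] at ho
  obtain ⟨hij, hik, hjk, hdD, hd, h2, hD, hK, hDK⟩ := ho
  obtain ⟨hDl, hD'⟩ := DK_of hD
  have hdis : Disjoint D.toFinset K.toFinset := by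
    rw [Finset.disjoint_left]
    intro n hn hn'
    exact hDK n (List.mem_toFinset.1 hn) (List.mem_toFinset.1 hn')
  have hC := H.K i j k D.toFinset K.toFinset d hij hik hjk h2 hD' (labs_of hK) hdis
  simp only [pieces] at h
  simp only [A3, List.forall_mem_append, List.map_cons, List.map_nil,
    List.forall_mem_cons, List.not_mem_nil, false_imp_iff, implies_true, and_true,
    ev_lc, List.sum_cons, List.sum_nil, ev_xf H,
    ev_costf i K hK hd, ev_costf i D hDl hdD, ev_gainf H i K hK hd, ev_const, vec0] at h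
  push_cast at h
  obtain ⟨⟨a1, a2, a3⟩, a4⟩ := h
  have e1 := phi4_le_phi3 (a := x j) (b := ∑ n ∈ K.toFinset, g i n)
  have e2 : Phi3 (x j) (∑ n ∈ K.toFinset, g i n) ≤
      2 * (4 / 7 - (x i - ∑ n ∈ D.toFinset, c i n)) - x k := by
    unfold Phi3
    refine max_le ?_ (max_le ?_ ?_) <;> linarith
  rcases hC with hC | hC
  · linarith
  · linarith

lemma snd_N (H : LSY 3 (4 / 7) m c g x) (h : ∀ f ∈ pieces .N, ev f (vec m c g) ≤ 0) : False := by
  have hC := H.N
  have hm : vec m c g 22 = m := rfl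
  have h0 := ev_cf (m := m) (c := c) (g := g) 0 2 (by simp [labL])
  have h1 := ev_cf (m := m) (c := c) (g := g) 1 2 (by simp [labL])
  have h2 := ev_cf (m := m) (c := c) (g := g) 2 2 (by simp [labL])
  simp only [pieces] at h
  simp only [List.forall_mem_cons, List.not_mem_nil, false_imp_iff, implies_true, and_true,
    ev_lc, List.map_cons, List.map_nil, List.sum_cons, List.sum_nil, ev_xf H, ev_unit, hm,
    ev_const, vec0, h0, h1, h2] at h
  push_cast at h
  obtain ⟨a1, a2⟩ := h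
  rw [Fin.sum_univ_three] at hC
  have : max 0 (c 0 2 + c 1 2 + c 2 2 - m) ≤
      4 / 7 - ((x 0 - c 0 2) + (x 1 - c 1 2) + (x 2 - c 2 2)) :=
    max_le (by linarith) (by linarith)
  linarith

lemma div_piece {V e : ℝ} (hV : 0 < V) (h : V * e ≤ 0) : e ≤ 0 := by
  by_contra hc
  push Not at hc
  have := mul_pos hV hc
  linarith

lemma snd_S1 (H : LSY 3 (4 / 7) m c g x) (i j k : Fin 3) (u v : ℕ)
    (ho : ok (.S1 i j k u v) = true)
    (h : ∀ f ∈ pieces (.S1 i j k u v), ev f (vec m c g) ≤ 0) : False := by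
  simp only [ok, decide_eq_true_eq] at ho
  obtain ⟨hij, hik, hjk, hv⟩ := ho
  have hV : (0 : ℝ) < (v : ℝ) := by exact_mod_cast hv
  have h9 := ev_cf (m := m) (c := c) (g := g) i 9 (by simp [labL])
  obtain ⟨θ, hθ⟩ : ∃ θ : ℝ, θ = (u : ℝ) / v := ⟨_, rfl⟩
  have hu : (u : ℝ) = θ * v := by rw [hθ]; field_simp
  have hθ0 : 0 ≤ θ := by rw [hθ]; positivity
  simp only [pieces, List.forall_mem_append, forall_pr] at h
  simp only [B1, D1, rhof,
    List.forall_mem_cons, List.not_mem_nil, false_imp_iff, implies_true, and_true,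
    ev_ladd, ev_lc, List.map_cons, List.map_nil, List.sum_cons, List.sum_nil, ev_xf H,
    ev_const, vec0, h9] at h
  push_cast at h
  rw [hu] at h
  obtain ⟨⟨⟨a1, a2⟩, ⟨⟨b11, b12, b13⟩, ⟨b21, b22, b23⟩, ⟨b31, b32, b33⟩⟩⟩,
    ⟨⟨d11, d12, d13⟩, ⟨d21, d22, d23⟩, ⟨d31, d32, d33⟩⟩⟩ := h
  have a1' : θ - c i 9 ≤ 0 := div_piece hV (by linarith)
  have a2' : 28 * θ - (1 + 7 * x i) ≤ 0 := div_piece hV (by linarith)
  have b11' : 28 * θ + 14 * x j + 14 * x k - 16 ≤ 0 := div_piece hV (by linarith)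
  have b12' : 28 * θ + 14 * x j + (21 * x k - 14 * θ) - 16 ≤ 0 := div_piece hV (by linarith)
  have b13' : 28 * θ + 14 * x j + (28 * x k - 42 * θ) - 16 ≤ 0 := div_piece hV (by linarith)
  have b21' : 28 * θ + (21 * x j - 14 * θ) + 14 * x k - 16 ≤ 0 := div_piece hV (by linarith)
  have b22' : 28 * θ + (21 * x j - 14 * θ) + (21 * x k - 14 * θ) - 16 ≤ 0 :=
    div_piece hV (by linarith)
  have b23' : 28 * θ + (21 * x j - 14 * θ) + (28 * x k - 42 * θ) - 16 ≤ 0 :=
    div_piece hV (by linarith)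
  have b31' : 28 * θ + (28 * x j - 42 * θ) + 14 * x k - 16 ≤ 0 := div_piece hV (by linarith)
  have b32' : 28 * θ + (28 * x j - 42 * θ) + (21 * x k - 14 * θ) - 16 ≤ 0 :=
    div_piece hV (by linarith)
  have b33' : 28 * θ + (28 * x j - 42 * θ) + (28 * x k - 42 * θ) - 16 ≤ 0 :=
    div_piece hV (by linarith)
  refine H.S9 i j k θ hij hik hjk hθ0 (by linarith) (by linarith) ?_
  intro q hq1 hq2
  obtain ⟨Q, hQ⟩ : ∃ Q : ℝ, Q = (((3 : ℕ) : ℝ) + 1) * q := ⟨_, rfl⟩
  rw [← hQ]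
  have hQ4 : Q = 4 * q := by rw [hQ]; norm_num
  have hq0 : 0 ≤ Q := by rw [hQ4]; linarith
  have := phi_sum_le (s := q) (T := 4 / 7) (a := x j) (a' := x k) (b := Q) (b' := Q)
    (by linarith) (by linarith) (by linarith)
    (by linarith) (by linarith) (by linarith)
    (by linarith) (by linarith) (by linarith)
  have e1 := phi4_le_phi (a := x j) hq0
  have e2 := phi4_le_phi (a := x k) hq0
  linarith

lemma snd_S3 (H : LSY 3 (4 / 7) m c g x) (i j k : Fin 3) (u v : ℕ)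
    (ho : ok (.S3 i j k u v) = true)
    (h : ∀ f ∈ pieces (.S3 i j k u v), ev f (vec m c g) ≤ 0) : False := by
  simp only [ok, decide_eq_true_eq] at ho
  obtain ⟨hij, hik, hjk, hv⟩ := ho
  have hV : (0 : ℝ) < (v : ℝ) := by exact_mod_cast hv
  have h9 := ev_cf (m := m) (c := c) (g := g) i 9 (by simp [labL])
  obtain ⟨θ, hθ⟩ : ∃ θ : ℝ, θ = (u : ℝ) / v := ⟨_, rfl⟩
  have hu : (u : ℝ) = θ * v := by rw [hθ]; field_simp
  have hθ0 : 0 ≤ θ := by rw [hθ]; positivity
  simp only [pieces, List.forall_mem_append, forall_pr] at h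
  simp only [B3, D3, rhof,
    List.forall_mem_cons, List.not_mem_nil, false_imp_iff, implies_true, and_true,
    ev_ladd, ev_lc, List.map_cons, List.map_nil, List.sum_cons, List.sum_nil, ev_xf H,
    ev_const, vec0, h9] at h
  push_cast at h
  rw [hu] at h
  obtain ⟨⟨⟨a1, a2⟩, ⟨⟨b11, b12, b13⟩, ⟨b21, b22, b23⟩, ⟨b31, b32, b33⟩⟩⟩,
    ⟨⟨d11, d12, d13⟩, ⟨d21, d22, d23⟩, ⟨d31, d32, d33⟩⟩⟩ := h
  have a1' : θ - c i 9 ≤ 0 := div_piece hV (by linarith)
  have a2' : 28 * θ - (1 + 7 * x i) ≤ 0 := div_piece hV (by linarith)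
  have b11' : 42 * θ + 21 * x j + 21 * x k - 24 ≤ 0 := div_piece hV (by linarith)
  have b12' : 42 * θ + 21 * x j + (35 * x k - 28 * θ) - 24 ≤ 0 := div_piece hV (by linarith)
  have b13' : 42 * θ + 21 * x j + (42 * x k - 84 * θ) - 24 ≤ 0 := div_piece hV (by linarith)
  have b21' : 42 * θ + (35 * x j - 28 * θ) + 21 * x k - 24 ≤ 0 := div_piece hV (by linarith)
  have b22' : 42 * θ + (35 * x j - 28 * θ) + (35 * x k - 28 * θ) - 24 ≤ 0 :=
    div_piece hV (by linarith)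
  have b23' : 42 * θ + (35 * x j - 28 * θ) + (42 * x k - 84 * θ) - 24 ≤ 0 :=
    div_piece hV (by linarith)
  have b31' : 42 * θ + (42 * x j - 84 * θ) + 21 * x k - 24 ≤ 0 := div_piece hV (by linarith)
  have b32' : 42 * θ + (42 * x j - 84 * θ) + (35 * x k - 28 * θ) - 24 ≤ 0 :=
    div_piece hV (by linarith)
  have b33' : 42 * θ + (42 * x j - 84 * θ) + (42 * x k - 84 * θ) - 24 ≤ 0 :=
    div_piece hV (by linarith)
  refine H.S9 i j k θ hij hik hjk hθ0 (by linarith) (by linarith) ?_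
  intro q hq1 hq2
  obtain ⟨Q, hQ⟩ : ∃ Q : ℝ, Q = (((3 : ℕ) : ℝ) + 1) * q := ⟨_, rfl⟩
  rw [← hQ]
  have hQ4 : Q = 4 * q := by rw [hQ]; norm_num
  have := phi3_sum_le (s := q) (T := 4 / 7) (a := x j) (a' := x k) (b := Q) (b' := Q)
    (by linarith) (by linarith) (by linarith)
    (by linarith) (by linarith) (by linarith)
    (by linarith) (by linarith) (by linarith)
  have e1 := phi4_le_phi3 (a := x j) (b := Q)
  have e2 := phi4_le_phi3 (a := x k) (b := Q)
  linarith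

/-- every tool fails -/
theorem tool_fails (H : LSY 3 (4 / 7) m c g x) (t : Tool) (ho : ok t = true) :
    ∃ f ∈ pieces t, 0 < ev f (vec m c g) := by
  by_contra hcon
  push Not at hcon
  cases t with
  | C1 i j k K => exact snd_C1 H i j k K ho hcon
  | C3 i j k K => exact snd_C3 H i j k K ho hcon
  | L i j k e K => exact snd_L H i j k e K ho hcon
  | R l e => exact snd_R H l e ho hcon
  | K1 i j k D d K => exact snd_K1 H i j k D d K ho hcon
  | K3 i j k D d K => exact snd_K3 H i j k D d K ho hcon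
  | N => exact snd_N H hcon
  | S1 i j k u v => exact snd_S1 H i j k u v ho hcon
  | S3 i j k u v => exact snd_S3 H i j k u v ho hcon

end

end Pool.LDV2.Y3
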