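import Pool.Agent.H21.LDV2.Tr3_0D

/-! Tree of `S_LPY 3 (4 / 7)`, type 0: check of the parts (generated by machine) -/

set_option autoImplicit false
set_option maxRecDepth 100000

namespace Pool.LDV2.Y3

open Pool.LPT2

lemma g17 : rng TL top0 F0 194 10 = true := by decide +kernel

lemma g18 : rng TL top0 F0 204 22 = true := by decide +kernel

lemma g19 : rng TL top0 F0 226 4 = true := by decide +kernel

lemma g20 : rng TL top0 F0 230 3 = true := by decide +kernel

lemma g21 : rng TL top0 F0 233 30 = true := by decide +kernel

lemma g22 : rng TL top0 F0 263 12 = true := by decide +kernel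

lemma g23 : rng TL top0 F0 275 1 = true := by decide +kernel

lemma g24 : rng TL top0 F0 276 1 = true := by decide +kernel

lemma g25 : rng TL top0 F0 277 11 = true := by decide +kernel

lemma g26 : rng TL top0 F0 288 3 = true := by decide +kernel

lemma g27 : rng TL top0 F0 291 21 = true := by decide +kernel

lemma g28 : rng TL top0 F0 312 11 = true := by decide +kernel

lemma g29 : rng TL top0 F0 323 12 = true := by decide +kernel

lemma g30 : rng TL top0 F0 335 9 = true := by decide +kernel

lemma g31 : rng TL top0 F0 344 1 = true := by decide +kernel

lemma g32 : rng TL top0 F0 345 5 = true := by decide +kernel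

lemma g33 : rng TL top0 F0 350 3 = true := by decide +kernel

end Pool.LDV2.Y3
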