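import Pool.Agent.H21.LDV2.Tr3_0D

/-! Tree of `S_LPY 3 (4 / 7)`, type 0: check of the parts (generated by machine) -/

set_option autoImplicit false
set_option maxRecDepth 100000

namespace Pool.LDV2.Y3

open Pool.LPT2

lemma g34 : rng TL top0 F0 353 6 = true := by decide +kernel

lemma g35 : rng TL top0 F0 359 3 = true := by decide +kernel

lemma g36 : rng TL top0 F0 362 11 = true := by decide +kernel

lemma g37 : rng TL top0 F0 373 27 = true := by decide +kernel

lemma g38 : rng TL top0 F0 400 13 = true := by decide +kernel

lemma g39 : rng TL top0 F0 413 3 = true := by decide +kernel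

lemma g40 : rng TL top0 F0 416 30 = true := by decide +kernel

lemma g41 : rng TL top0 F0 446 3 = true := by decide +kernel

lemma g42 : rng TL top0 F0 449 21 = true := by decide +kernel

lemma g43 : rng TL top0 F0 470 3 = true := by decide +kernel

lemma g44 : rng TL top0 F0 473 30 = true := by decide +kernel

lemma g45 : rng TL top0 F0 503 5 = true := by decide +kernel

lemma g46 : rng TL top0 F0 508 26 = true := by decide +kernel

lemma g47 : rng TL top0 F0 534 1 = true := by decide +kernel

lemma g48 : rng TL top0 F0 535 1 = true := by decide +kernel

lemma g49 : rng TL top0 F0 536 30 = true := by decide +kernel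

lemma g50 : rng TL top0 F0 566 1 = true := by decide +kernel

end Pool.LDV2.Y3
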