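import Pool.Agent.H21.LDV2.Tr3_0D

/-! Tree of `S_LPY 3 (4 / 7)`, type 0: check of the parts (generated by machine) -/

set_option autoImplicit false
set_option maxRecDepth 100000

namespace Pool.LDV2.Y3

open Pool.LPT2

lemma g51 : rng TL top0 F0 567 24 = true := by decide +kernel

lemma g52 : rng TL top0 F0 591 19 = true := by decide +kernel

lemma g53 : rng TL top0 F0 610 4 = true := by decide +kernel

lemma g54 : rng TL top0 F0 614 3 = true := by decide +kernel

lemma g55 : rng TL top0 F0 617 1 = true := by decide +kernel

lemma g56 : rng TL top0 F0 618 1 = true := by decide +kernel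

lemma g57 : rng TL top0 F0 619 6 = true := by decide +kernel

lemma g58 : rng TL top0 F0 625 9 = true := by decide +kernel

lemma g59 : rng TL top0 F0 634 6 = true := by decide +kernel

lemma g60 : rng TL top0 F0 640 6 = true := by decide +kernel

lemma g61 : rng TL top0 F0 646 1 = true := by decide +kernel

lemma g62 : rng TL top0 F0 647 4 = true := by decide +kernel

lemma g63 : rng TL top0 F0 651 1 = true := by decide +kernel

lemma g64 : rng TL top0 F0 652 1 = true := by decide +kernel

lemma g65 : rng TL top0 F0 653 2 = true := by decide +kernel

lemma g66 : rng TL top0 F0 655 13 = true := by decide +kernel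

end Pool.LDV2.Y3
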