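import Pool.Agent.H21.LDV2.Tr3_0E
import Pool.Agent.H21.LDV2.Tr3_0F
import Pool.Agent.H21.LDV2.Tr3_0G
import Pool.Agent.H21.LDV2.Tr3_0H

/-! Tree of `S_LPY 3 (4 / 7)`, type 0 (generated by machine) -/

set_option autoImplicit false

namespace Pool.LDV2.Y3

open Pool.LPT2

lemma gfin : fin TL top0 F0 668 = true := by decide +kernel

lemma chk0 : check TL tr0 F0 [] = true :=
  check_of_tail (
    tail_of_rng 13 g0 (
    tail_of_rng 1 g1 (
    tail_of_rng 7 g2 (
    tail_of_rng 2 g3 (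
    tail_of_rng 4 g4 (
    tail_of_rng 27 g5 (
    tail_of_rng 1 g6 (
    tail_of_rng 13 g7 (
    tail_of_rng 27 g8 (
    tail_of_rng 9 g9 (
    tail_of_rng 4 g10 (
    tail_of_rng 22 g11 (
    tail_of_rng 19 g12 (
    tail_of_rng 18 g13 (
    tail_of_rng 6 g14 (
    tail_of_rng 16 g15 (
    tail_of_rng 5 g16 (
    tail_of_rng 10 g17 (
    tail_of_rng 22 g18 (
    tail_of_rng 4 g19 (
    tail_of_rng 3 g20 (
    tail_of_rng 30 g21 (
    tail_of_rng 12 g22 (
    tail_of_rng 1 g23 (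
    tail_of_rng 1 g24 (
    tail_of_rng 11 g25 (
    tail_of_rng 3 g26 (
    tail_of_rng 21 g27 (
    tail_of_rng 11 g28 (
    tail_of_rng 12 g29 (
    tail_of_rng 9 g30 (
    tail_of_rng 1 g31 (
    tail_of_rng 5 g32 (
    tail_of_rng 3 g33 (
    tail_of_rng 6 g34 (
    tail_of_rng 3 g35 (
    tail_of_rng 11 g36 (
    tail_of_rng 27 g37 (
    tail_of_rng 13 g38 (
    tail_of_rng 3 g39 (
    tail_of_rng 30 g40 (
    tail_of_rng 3 g41 (
    tail_of_rng 21 g42 (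
    tail_of_rng 3 g43 (
    tail_of_rng 30 g44 (
    tail_of_rng 5 g45 (
    tail_of_rng 26 g46 (
    tail_of_rng 1 g47 (
    tail_of_rng 1 g48 (
    tail_of_rng 30 g49 (
    tail_of_rng 1 g50 (
    tail_of_rng 24 g51 (
    tail_of_rng 19 g52 (
    tail_of_rng 4 g53 (
    tail_of_rng 3 g54 (
    tail_of_rng 1 g55 (
    tail_of_rng 1 g56 (
    tail_of_rng 6 g57 (
    tail_of_rng 9 g58 (
    tail_of_rng 6 g59 (
    tail_of_rng 6 g60 (
    tail_of_rng 1 g61 (
    tail_of_rng 4 g62 (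
    tail_of_rng 1 g63 (
    tail_of_rng 1 g64 (
    tail_of_rng 2 g65 (
    tail_of_rng 13 g66 (
    tail_of_fin gfin))))))))))))))))))))))))))))))))))))))))))))))))))))))))))))))))))))

end Pool.LDV2.Y3
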