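import Pool.Agent.H21.LDV2.Tr3_0D

/-! Tree of `S_LPY 3 (4 / 7)`, type 0: check of the parts (generated by machine) -/

set_option autoImplicit false
set_option maxRecDepth 100000

namespace Pool.LDV2.Y3

open Pool.LPT2

lemma g0 : rng TL top0 F0 0 13 = true := by decide +kernel

lemma g1 : rng TL top0 F0 13 1 = true := by decide +kernel

lemma g2 : rng TL top0 F0 14 7 = true := by decide +kernel

lemma g3 : rng TL top0 F0 21 2 = true := by decide +kernel

lemma g4 : rng TL top0 F0 23 4 = true := by decide +kernel

lemma g5 : rng TL top0 F0 27 27 = true := by decide +kernel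

lemma g6 : rng TL top0 F0 54 1 = true := by decide +kernel

lemma g7 : rng TL top0 F0 55 13 = true := by decide +kernel

lemma g8 : rng TL top0 F0 68 27 = true := by decide +kernel

lemma g9 : rng TL top0 F0 95 9 = true := by decide +kernel

lemma g10 : rng TL top0 F0 104 4 = true := by decide +kernel

lemma g11 : rng TL top0 F0 108 22 = true := by decide +kernel

lemma g12 : rng TL top0 F0 130 19 = true := by decide +kernel

lemma g13 : rng TL top0 F0 149 18 = true := by decide +kernel

lemma g14 : rng TL top0 F0 167 6 = true := by decide +kernel

lemma g15 : rng TL top0 F0 173 16 = true := by decide +kernel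

lemma g16 : rng TL top0 F0 189 5 = true := by decide +kernel

end Pool.LDV2.Y3
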